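import Pool.Agent.H86.VR.V2

namespace Pool.Agent.H86.VR.Fam

open Finset Pool.Agent.Results.MP_6e410e_gt.Willerton
open scoped Classical

section regions

variable {C : Type} {next : C × Bool → C × Bool}

/-- A diagram with one component has at most `card C + 2` regions. -/
theorem region_le [Finite C] [Nonempty C] (h1 : ∀ x y : C × Bool, ∃ k : ℕ, next^[k] x = y) :
    Nat.card (Region next) ≤ Nat.card C + 2 := by
  have := Fintype.ofFinite C
  have hfR : Finite (Region next) := by unfold Region; infer_instance
  have := Fintype.ofFinite (Region next)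
  have hb := next_bij h1
  let δ : (Region next → ℚ) →ₗ[ℚ] (C × Bool → ℚ) :=
    { toFun := fun a x => a (reg next x true) - a (reg next x false)
      map_add' := by intro a b; funext x; simp only [Pi.add_apply]; ring
      map_smul' := by intro r a; funext x; simp only [Pi.smul_apply, smul_eq_mul, RingHom.id_apply]; ring }
  let B : (C × Bool → ℚ) →ₗ[ℚ] (C → ℚ) :=
    { toFun := fun z c => z (c, true) + z (c, false) - (z (next (c, true)) + z (next (c, false)))
      map_add' := by intro a b; funext x; simp only [Pi.add_apply]; ring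
      map_smul' := by intro r a; funext x; simp only [Pi.smul_apply, smul_eq_mul, RingHom.id_apply]; ring }
  let S : (C → ℚ) →ₗ[ℚ] ℚ :=
    { toFun := fun y => ∑ c, y c
      map_add' := by intro a b; simp [Finset.sum_add_distrib]
      map_smul' := by intro r a; simp [Finset.mul_sum] }
  -- composition zero
  have hle : LinearMap.range δ ≤ LinearMap.ker B := by
    rintro _ ⟨a, rfl⟩
    rw [LinearMap.mem_ker]
    funext c
    change (a (reg next (c, true) true) - a (reg next (c, true) false)) +
      (a (reg next (c, false) true) - a (reg next (c, false) false)) -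
      ((a (reg next (next (c, true)) true) - a (reg next (next (c, true)) false)) +
      (a (reg next (next (c, false)) true) - a (reg next (next (c, false)) false))) = 0
    rw [reg_ne, reg_nw, reg_sw, reg_se]
    ring
  -- kernel of δ
  have hker : Module.finrank ℚ (LinearMap.ker δ) ≤ 1 := by
    obtain ⟨c0⟩ := ‹Nonempty C›
    have hconst : ∀ a ∈ LinearMap.ker δ, ∀ r, a r = a (reg next (c0, true) true) := by
      intro a ha r
      have h0 : ∀ x, a (reg next x true) = a (reg next x false) := by
        intro x
        have := congrFun (LinearMap.mem_ker.1 ha) x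
        change a (reg next x true) - a (reg next x false) = 0 at this
        linarith
      have hstep : ∀ x, a (reg next (next x) true) = a (reg next x true) := by
        rintro ⟨c, b⟩
        cases b with
        | true =>
          rw [reg_ne, ← h0, reg_nw]
        | false =>
          rw [reg_nw, h0, reg_sw]
      have hit : ∀ k x, a (reg next (next^[k] x) true) = a (reg next x true) := by
        intro k
        induction k with
        | zero => intro x; rfl
        | succ k ih => intro x; rw [Function.iterate_succ_apply, ih, hstep]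
      induction r using Quot.ind with
      | mk xs =>
        obtain ⟨x, s⟩ := xs
        obtain ⟨k, hk⟩ := h1 (c0, true) x
        have h2 := hit k (c0, true)
        rw [hk] at h2
        cases s with
        | true => exact h2
        | false => exact (h0 x).symm.trans h2
    let ev : LinearMap.ker δ →ₗ[ℚ] ℚ :=
      { toFun := fun a => a.1 (reg next (c0, true) true)
        map_add' := by intro a b; rfl
        map_smul' := by intro r a; rfl }
    have hinj : Function.Injective ev := by
      intro a b hab
      apply Subtype.ext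
      funext r
      rw [hconst a.1 a.2 r, hconst b.1 b.2 r]
      exact hab
    have := LinearMap.finrank_le_finrank_of_injective hinj
    simpa using this
  -- range of B
  have hrB : LinearMap.ker S ≤ LinearMap.range B := by
    obtain ⟨c0⟩ := ‹Nonempty C›
    have hB : ∀ u : C × Bool, B (Pi.single (next u) 1) =
        Pi.single (next u).1 1 - Pi.single u.1 1 := by
      intro u
      funext c
      change (Pi.single (next u) (1 : ℚ) : C × Bool → ℚ) (c, true) +
        (Pi.single (next u) (1 : ℚ) : C × Bool → ℚ) (c, false) -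
        ((Pi.single (next u) (1 : ℚ) : C × Bool → ℚ) (next (c, true)) +
        (Pi.single (next u) (1 : ℚ) : C × Bool → ℚ) (next (c, false))) = _
      simp only [Pi.single_apply, Pi.sub_apply, hb.1.eq_iff]
      obtain ⟨d, b⟩ := u
      generalize next (d, b) = w
      obtain ⟨d', b'⟩ := w
      simp only [Prod.mk.injEq]
      congr 1
      · by_cases hc : c = d' <;> cases b' <;> simp [hc]
      · by_cases hc : c = d <;> cases b <;> simp [hc]
    have hk : ∀ k : ℕ, (Pi.single (next^[k] (c0, true)).1 (1 : ℚ) : C → ℚ) - Pi.single c0 1 ∈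
        LinearMap.range B := by
      intro k
      induction k with
      | zero => simp
      | succ k ih =>
        rw [Function.iterate_succ_apply']
        have h3 : B (Pi.single (next (next^[k] (c0, true))) 1) ∈ LinearMap.range B := ⟨_, rfl⟩
        rw [hB] at h3
        have := Submodule.add_mem _ h3 ih
        simpa using this
    have hall : ∀ c : C, (Pi.single c (1 : ℚ) : C → ℚ) - Pi.single c0 1 ∈ LinearMap.range B := by
      intro c
      obtain ⟨k, hk'⟩ := h1 (c0, true) (c, true)
      have := hk k
      rwa [hk'] at this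
    intro y hy
    have hy' : ∑ c, y c = 0 := LinearMap.mem_ker.1 hy
    have : y = ∑ c, y c • ((Pi.single c (1 : ℚ) : C → ℚ) - Pi.single c0 1) := by
      funext d
      simp only [smul_sub, Finset.sum_sub_distrib, Pi.sub_apply, Finset.sum_apply, Pi.smul_apply,
        smul_eq_mul, ← Finset.sum_mul, hy', zero_mul, sub_zero]
      simp [Pi.single_apply]
    rw [this]
    exact Submodule.sum_mem _ fun c _ => Submodule.smul_mem _ _ (hall c)
  have hS : Module.finrank ℚ (LinearMap.ker S) + 1 = Fintype.card C := by
    have hsurj : Function.Surjective S := by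
      obtain ⟨c0⟩ := ‹Nonempty C›
      intro r
      refine ⟨Pi.single c0 r, ?_⟩
      change ∑ c, (Pi.single c0 r : C → ℚ) c = r
      simp
    have h2 := LinearMap.finrank_range_add_finrank_ker S
    rw [LinearMap.range_eq_top.2 hsurj] at h2
    simp only [finrank_top, Module.finrank_self, Module.finrank_fintype_fun_eq_card] at h2
    omega
  have h2 := LinearMap.finrank_range_add_finrank_ker B
  have h3 := LinearMap.finrank_range_add_finrank_ker δ
  have h4 := Submodule.finrank_mono hrB
  have h5 := Submodule.finrank_mono hle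
  rw [Module.finrank_fintype_fun_eq_card, Fintype.card_prod, Fintype.card_bool] at h2
  rw [Module.finrank_fintype_fun_eq_card] at h3
  rw [Nat.card_eq_fintype_card, Nat.card_eq_fintype_card]
  omega

end regions

/-! ### Diagrams from Gauss words -/

/-- A Gauss word with `n` letters with the places `0, ..., 2 n - 1`: `part` is the other place with
the same letter, `lab p s` is a label for the left (`s = true`) or right side of the edge that
arrives at `p`. -/
structure Code (n : ℕ) where
  pos : 0 < n
  part : ℕ → ℕ
  lab : ℕ → Bool → ℕ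
  lt : ∀ p, p < 2 * n → part p < 2 * n
  inv : ∀ p, p < 2 * n → part (part p) = p
  par : ∀ p, p < 2 * n → part p % 2 ≠ p % 2
  lab_lt : ∀ p s, p < 2 * n → lab p s < n + 2
  ne : ∀ t, t < 2 * n → t % 2 = 0 → lab ((t + 1) % (2 * n)) true = lab ((part t + 1) % (2 * n)) false
  nw : ∀ t, t < 2 * n → t % 2 = 0 → lab ((part t + 1) % (2 * n)) true = lab t true
  sw : ∀ t, t < 2 * n → t % 2 = 0 → lab t false = lab (part t) true
  se : ∀ t, t < 2 * n → t % 2 = 0 → lab (part t) false = lab ((t + 1) % (2 * n)) false
  surj : ∀ k, k < n + 2 → ∃ p s, p < 2 * n ∧ lab p s = k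

section code

variable {n : ℕ} (G : Code n)

/-- the passage at a place -/
def Code.at (p : ℕ) : Fin n × Bool :=
  if p % 2 = 0 then (⟨p / 2 % n, Nat.mod_lt _ G.pos⟩, true)
  else (⟨G.part p / 2 % n, Nat.mod_lt _ G.pos⟩, false)

/-- the place of a passage -/
def Code.place (x : Fin n × Bool) : ℕ := if x.2 = true then 2 * x.1.val else G.part (2 * x.1.val)

def Code.next (x : Fin n × Bool) : Fin n × Bool := G.at ((G.place x + 1) % (2 * n))

theorem Code.place_lt (x : Fin n × Bool) : G.place x < 2 * n := by
  have h := x.1.isLt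
  unfold Code.place
  split_ifs
  · omega
  · exact G.lt _ (by omega)

theorem Code.place_at (p : ℕ) (hp : p < 2 * n) : G.place (G.at p) = p := by
  unfold Code.at Code.place
  by_cases h : p % 2 = 0
  · rw [if_pos h]
    have h1 : p / 2 % n = p / 2 := Nat.mod_eq_of_lt (by omega)
    simp only [if_true, h1]
    omega
  · rw [if_neg h]
    have h2 := G.lt p hp
    have h3 := G.par p hp
    have h1 : G.part p / 2 % n = G.part p / 2 := Nat.mod_eq_of_lt (by omega)
    simp only [Bool.false_eq_true, if_false, h1]
    have h4 : 2 * (G.part p / 2) = G.part p := by omega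
    rw [h4]
    exact G.inv p hp

theorem Code.at_place (x : Fin n × Bool) : G.at (G.place x) = x := by
  obtain ⟨c, b⟩ := x
  have h := c.isLt
  cases b with
  | true =>
    have : G.place (c, true) = 2 * c.val := by simp [Code.place]
    rw [this]
    unfold Code.at
    rw [if_pos (by omega)]
    congr 1
    apply Fin.ext
    change 2 * c.val / 2 % n = c.val
    rw [Nat.mul_div_cancel_left _ (by norm_num), Nat.mod_eq_of_lt h]
  | false =>
    have : G.place (c, false) = G.part (2 * c.val) := by simp [Code.place]
    rw [this]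
    have h3 := G.par (2 * c.val) (by omega)
    unfold Code.at
    rw [if_neg (by omega)]
    congr 1
    apply Fin.ext
    change G.part (G.part (2 * c.val)) / 2 % n = c.val
    rw [G.inv _ (by omega), Nat.mul_div_cancel_left _ (by norm_num), Nat.mod_eq_of_lt h]

theorem Code.place_next (x : Fin n × Bool) : G.place (G.next x) = (G.place x + 1) % (2 * n) := by
  have := G.pos
  exact G.place_at _ (Nat.mod_lt _ (by omega))

theorem Code.num : Num G.next (2 * n) G.place := by
  refine ⟨G.place_lt, ?_, fun x => ?_⟩
  · intro x y h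
    rw [← G.at_place x, ← G.at_place y, h]
  · rw [G.place_next]
    have := G.place_lt x
    rcases Nat.lt_or_ge (G.place x + 1) (2 * n) with h | h
    · left; exact Nat.mod_eq_of_lt h
    · right
      have h2 : G.place x + 1 = 2 * n := by omega
      exact ⟨by rw [h2, Nat.mod_self], h2⟩

theorem Code.place_iter (k : ℕ) (x : Fin n × Bool) :
    G.place (G.next^[k] x) = (G.place x + k) % (2 * n) := by
  induction k with
  | zero => simp [Nat.mod_eq_of_lt (G.place_lt x)]
  | succ k ih =>
    rw [Function.iterate_succ_apply', G.place_next, ih, Nat.mod_add_mod]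
    rfl

theorem Code.one (x y : Fin n × Bool) : ∃ k : ℕ, G.next^[k] x = y := by
  refine ⟨G.place y + (2 * n - G.place x), ?_⟩
  rw [← G.at_place (G.next^[_] x), G.place_iter, ← G.at_place y]
  congr 1
  have h1 := G.place_lt x
  have h2 := G.place_lt y
  rw [G.at_place]
  have : G.place x + (G.place y + (2 * n - G.place x)) = G.place y + 2 * n := by omega
  rw [this, Nat.add_mod_right, Nat.mod_eq_of_lt h2]

theorem Code.card_region : Nat.card (Region G.next) = Nat.card (Fin n) + 2 := by
  have hne : Nonempty (Fin n) := ⟨⟨0, G.pos⟩⟩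
  have hpos := G.pos
  refine le_antisymm (region_le G.one) ?_
  have hfR : Finite (Region G.next) := by unfold Region; infer_instance
  let f : (Fin n × Bool) × Bool → Fin (n + 2) :=
    fun x => ⟨G.lab (G.place x.1) x.2, G.lab_lt _ _ (G.place_lt _)⟩
  let g : Region G.next → Fin (n + 2) := Quot.lift f (by
    rintro x y ⟨c, h⟩
    have hc := c.isLt
    have e1 : G.place (c, true) = 2 * c.val := by simp [Code.place]
    have e2 : G.place (c, false) = G.part (2 * c.val) := by simp [Code.place]
    have q1 := G.ne (2 * c.val) (by omega) (by omega)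
    have q2 := G.nw (2 * c.val) (by omega) (by omega)
    have q3 := G.sw (2 * c.val) (by omega) (by omega)
    have q4 := G.se (2 * c.val) (by omega) (by omega)
    cases h <;> apply Fin.ext
    · change G.lab (G.place (G.next (c, true))) true = G.lab (G.place (G.next (c, false))) false
      rw [G.place_next, G.place_next, e1, e2]; exact q1
    · change G.lab (G.place (G.next (c, false))) true = G.lab (G.place (c, true)) true
      rw [G.place_next, e1, e2]; exact q2
    · change G.lab (G.place (c, true)) false = G.lab (G.place (c, false)) true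
      rw [e1, e2]; exact q3
    · change G.lab (G.place (c, false)) false = G.lab (G.place (G.next (c, true))) false
      rw [G.place_next, e1, e2]; exact q4)
  have hg : Function.Surjective g := by
    intro k
    obtain ⟨p, s, hp, hk⟩ := G.surj k.val k.isLt
    refine ⟨Quot.mk _ (G.at p, s), ?_⟩
    apply Fin.ext
    change G.lab (G.place (G.at p)) s = k.val
    rw [G.place_at p hp]; exact hk
  have := Nat.card_le_card_of_surjective g hg
  simpa using this

/-- the diagram of a code -/
def Code.diagram (sign : Fin n → Bool) : KnotDiagram where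
  C := Fin n
  finC := inferInstance
  next := G.next
  one_component := G.one
  planar := fun _ => G.card_region
  sign := sign

end code

/-! ### The family -/
section family

/-- The word `X Y X Y' Z Z`: blocks of lengths `a`, `b`, `c`, the block `Y'` is `Y` reversed. -/
def fpart (a b c p : ℕ) : ℕ :=
  if p < a then p + (a + b)
  else if p < a + b then 2 * (a + b) - 1 + a - p
  else if p < a + b + a then p - (a + b)
  else if p < 2 * (a + b) then 2 * (a + b) - 1 + a - p
  else if p < 2 * (a + b) + c then p + c
  else p - c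

/-- labels of the sides: even right sides and odd left sides -/
def lmix (a b c p : ℕ) : ℕ :=
  if p = 0 then a + b + c + 1
  else if p < a then p - 1
  else if p < a + b then (if p % 2 = 1 then a + b + c + 1 else a + b + c - 1)
  else if p = a + b then a + b + c + 1
  else if p < a + b + a then p - (a + b) - 1
  else if p < 2 * (a + b) then (if p % 2 = 1 then a + b + c - 1 else a + b + c + 1)
  else if p = 2 * (a + b) then a + b + c + 1
  else if p < 2 * (a + b) + c then p - (a + b) - 3
  else if p = 2 * (a + b) + c then a + b + c + 1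
  else p - (a + b) - c - 3

/-- odd right sides -/
def lodd (a b c p : ℕ) : ℕ :=
  if p < a then a + b + c - 2
  else if p < a + b then p - 2
  else if p ≤ a + b + a then a + b + c - 2
  else if p < 2 * (a + b) then a + 2 * (a + b) - p - 2
  else a + b + c - 3

/-- even left sides -/
def leven (a b c p : ℕ) : ℕ :=
  if p ≤ a then a + b + c
  else if p < a + b then p - 2
  else if p < a + b + a then a + b + c
  else if p < 2 * (a + b) then a + 2 * (a + b) - p - 2
  else a + b + c

def flab (a b c p : ℕ) (s : Bool) : ℕ :=
  if p % 2 = 1 then (if s = true then lmix a b c p else lodd a b c p)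
  else (if s = true then leven a b c p else lmix a b c p)

theorem flab_odd_t {a b c p : ℕ} (h : p % 2 = 1) : flab a b c p true = lmix a b c p := by
  simp [flab, h]
theorem flab_odd_f {a b c p : ℕ} (h : p % 2 = 1) : flab a b c p false = lodd a b c p := by
  simp [flab, h]
theorem flab_even_t {a b c p : ℕ} (h : p % 2 = 0) : flab a b c p true = leven a b c p := by
  simp [flab, h]
theorem flab_even_f {a b c p : ℕ} (h : p % 2 = 0) : flab a b c p false = lmix a b c p := by
  simp [flab, h]

theorem wrap {n s : ℕ} (h : s < 2 * n) : (s + 1) % (2 * n) = if s + 1 = 2 * n then 0 else s + 1 := by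
  split_ifs with h1
  · rw [h1, Nat.mod_self]
  · exact Nat.mod_eq_of_lt (by omega)

variable {a b c : ℕ}

theorem lm0 : lmix a b c 0 = a + b + c + 1 := by
  unfold lmix; rw [if_pos rfl]
theorem lm1 {p : ℕ} (h0 : 0 < p) (h1 : p < a) : lmix a b c p = p - 1 := by
  unfold lmix; rw [if_neg (by omega), if_pos h1]
theorem lm2 {p : ℕ} (h0 : 0 < p) (h1 : a ≤ p) (h2 : p < a + b) (h3 : p % 2 = 1) :
    lmix a b c p = a + b + c + 1 := by
  unfold lmix; rw [if_neg (by omega), if_neg (by omega), if_pos h2, if_pos h3]
theorem lm3 {p : ℕ} (h0 : 0 < p) (h1 : a ≤ p) (h2 : p < a + b) (h3 : p % 2 = 0) :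
    lmix a b c p = a + b + c - 1 := by
  unfold lmix; rw [if_neg (by omega), if_neg (by omega), if_pos h2, if_neg (by omega)]
theorem lm4 (hb : b % 2 = 1) {p : ℕ} (h1 : p = a + b) : lmix a b c p = a + b + c + 1 := by
  unfold lmix; rw [if_neg (by omega), if_neg (by omega), if_neg (by omega), if_pos h1]
theorem lm5 {p : ℕ} (h1 : a + b < p) (h2 : p < a + b + a) : lmix a b c p = p - (a + b) - 1 := by
  unfold lmix
  rw [if_neg (by omega), if_neg (by omega), if_neg (by omega), if_neg (by omega), if_pos h2]
theorem lm6 {p : ℕ} (h0 : a + b < p) (h1 : a + b + a ≤ p) (h2 : p < 2 * (a + b)) (h3 : p % 2 = 1) :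
    lmix a b c p = a + b + c - 1 := by
  unfold lmix
  rw [if_neg (by omega), if_neg (by omega), if_neg (by omega), if_neg (by omega),
    if_neg (by omega), if_pos h2, if_pos h3]
theorem lm7 {p : ℕ} (h0 : a + b < p) (h1 : a + b + a ≤ p) (h2 : p < 2 * (a + b)) (h3 : p % 2 = 0) :
    lmix a b c p = a + b + c + 1 := by
  unfold lmix
  rw [if_neg (by omega), if_neg (by omega), if_neg (by omega), if_neg (by omega),
    if_neg (by omega), if_pos h2, if_neg (by omega)]
theorem lm8 (hb : b % 2 = 1) {p : ℕ} (h1 : p = 2 * (a + b)) : lmix a b c p = a + b + c + 1 := by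
  unfold lmix
  rw [if_neg (by omega), if_neg (by omega), if_neg (by omega), if_neg (by omega),
    if_neg (by omega), if_neg (by omega), if_pos h1]
theorem lm9 {p : ℕ} (h0 : 2 * (a + b) < p) (h1 : p < 2 * (a + b) + c) :
    lmix a b c p = p - (a + b) - 3 := by
  unfold lmix
  rw [if_neg (by omega), if_neg (by omega), if_neg (by omega), if_neg (by omega),
    if_neg (by omega), if_neg (by omega), if_neg (by omega), if_pos h1]
theorem lm10 (hb : b % 2 = 1) {p : ℕ} (hc0 : 0 < c) (h1 : p = 2 * (a + b) + c) : lmix a b c p = a + b + c + 1 := by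
  unfold lmix
  rw [if_neg (by omega), if_neg (by omega), if_neg (by omega), if_neg (by omega),
    if_neg (by omega), if_neg (by omega), if_neg (by omega), if_neg (by omega), if_pos h1]
theorem lm11 {p : ℕ} (h1 : 2 * (a + b) + c < p) : lmix a b c p = p - (a + b) - c - 3 := by
  unfold lmix
  rw [if_neg (by omega), if_neg (by omega), if_neg (by omega), if_neg (by omega),
    if_neg (by omega), if_neg (by omega), if_neg (by omega), if_neg (by omega), if_neg (by omega)]

variable (ha : a % 2 = 0) (ha2 : 2 ≤ a) (hb : b % 2 = 1) (hc : c % 2 = 1)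
include ha ha2 hb hc

theorem fpart_lt (p : ℕ) (hp : p < 2 * (a + b + c)) : fpart a b c p < 2 * (a + b + c) := by
  unfold fpart
  split_ifs <;> omega

/-- the six blocks -/
theorem fpart_cases (p : ℕ) (hp : p < 2 * (a + b + c)) :
    (p < a ∧ fpart a b c p = p + (a + b)) ∨
    (a ≤ p ∧ p < a + b ∧ fpart a b c p = 2 * (a + b) - 1 + a - p) ∨
    (a + b ≤ p ∧ p < a + b + a ∧ fpart a b c p = p - (a + b)) ∨
    (a + b + a ≤ p ∧ p < 2 * (a + b) ∧ fpart a b c p = 2 * (a + b) - 1 + a - p) ∨
    (2 * (a + b) ≤ p ∧ p < 2 * (a + b) + c ∧ fpart a b c p = p + c) ∨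
    (2 * (a + b) + c ≤ p ∧ fpart a b c p = p - c) := by
  unfold fpart
  split_ifs <;> omega

theorem fpart_inv (p : ℕ) (hp : p < 2 * (a + b + c)) : fpart a b c (fpart a b c p) = p := by
  rcases fpart_cases ha ha2 hb hc p hp with ⟨h1, h⟩ | ⟨h1, h2, h⟩ | ⟨h1, h2, h⟩ | ⟨h1, h2, h⟩ |
    ⟨h1, h2, h⟩ | ⟨h1, h⟩ <;>
  · rw [h]
    unfold fpart
    split_ifs <;> omega

theorem fpart_par (p : ℕ) (hp : p < 2 * (a + b + c)) : fpart a b c p % 2 ≠ p % 2 := by
  rcases fpart_cases ha ha2 hb hc p hp with ⟨h1, h⟩ | ⟨h1, h2, h⟩ | ⟨h1, h2, h⟩ | ⟨h1, h2, h⟩ |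
    ⟨h1, h2, h⟩ | ⟨h1, h⟩ <;> omega

theorem flab_lt (p : ℕ) (s : Bool) (hp : p < 2 * (a + b + c)) : flab a b c p s < a + b + c + 2 := by
  unfold flab
  split_ifs
  · unfold lmix; split_ifs <;> omega
  · unfold lodd; split_ifs <;> omega
  · unfold leven; split_ifs <;> omega
  · unfold lmix; split_ifs <;> omega

theorem f_sw (t : ℕ) (ht : t < 2 * (a + b + c)) (he : t % 2 = 0) :
    flab a b c t false = flab a b c (fpart a b c t) true := by
  have hp := fpart_par ha ha2 hb hc t ht
  rw [flab_even_f he, flab_odd_t (by omega)]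
  rcases fpart_cases ha ha2 hb hc t ht with ⟨h1, h⟩ | ⟨h1, h2, h⟩ | ⟨h1, h2, h⟩ | ⟨h1, h2, h⟩ |
    ⟨h1, h2, h⟩ | ⟨h1, h⟩ <;> rw [h]
  · rcases Nat.eq_zero_or_pos t with h0 | h0
    · subst h0
      rw [lm0, lm4 hb (by omega)]
    · rw [lm1 h0 h1, lm5 (by omega) (by omega)]; omega
  · rw [lm3 (by omega) h1 h2 he, lm6 (by omega) (by omega) (by omega) (by omega)]
  · rw [lm5 (by omega) h2, lm1 (by omega) (by omega)]
  · rw [lm7 (by omega) h1 h2 he, lm2 (by omega) (by omega) (by omega) (by omega)]
  · by_cases h0 : t = 2 * (a + b)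
    · rw [lm8 hb h0, lm10 hb (by omega) (by omega)]
    · rw [lm9 (by omega) h2, lm11 (by omega)]; omega
  · rw [lm11 (by omega), lm9 (by omega) (by omega)]; omega

theorem f_nw (t : ℕ) (ht : t < 2 * (a + b + c)) (he : t % 2 = 0) :
    flab a b c ((fpart a b c t + 1) % (2 * (a + b + c))) true = flab a b c t true := by
  have hp := fpart_par ha ha2 hb hc t ht
  rw [wrap (fpart_lt ha ha2 hb hc t ht), flab_even_t he, flab_even_t (by split_ifs <;> omega)]
  rcases fpart_cases ha ha2 hb hc t ht with ⟨h1, h⟩ | ⟨h1, h2, h⟩ | ⟨h1, h2, h⟩ | ⟨h1, h2, h⟩ |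
    ⟨h1, h2, h⟩ | ⟨h1, h⟩ <;>
  · rw [h]
    rw [h] at hp
    by_cases hw : fpart a b c t + 1 = 2 * (a + b + c)
    · rw [h] at hw
      rw [if_pos hw]
      unfold leven
      split_ifs <;> omega
    · rw [h] at hw
      rw [if_neg hw]
      unfold leven
      split_ifs <;> omega

theorem f_se (t : ℕ) (ht : t < 2 * (a + b + c)) (he : t % 2 = 0) :
    flab a b c (fpart a b c t) false = flab a b c ((t + 1) % (2 * (a + b + c))) false := by
  have hp := fpart_par ha ha2 hb hc t ht
  rw [Nat.mod_eq_of_lt (by omega : t + 1 < 2 * (a + b + c)), flab_odd_f (by omega),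
    flab_odd_f (by omega)]
  rcases fpart_cases ha ha2 hb hc t ht with ⟨h1, h⟩ | ⟨h1, h2, h⟩ | ⟨h1, h2, h⟩ | ⟨h1, h2, h⟩ |
    ⟨h1, h2, h⟩ | ⟨h1, h⟩ <;>
  · rw [h]
    rw [h] at hp
    unfold lodd
    split_ifs <;> omega

theorem f_ne (t : ℕ) (ht : t < 2 * (a + b + c)) (he : t % 2 = 0) :
    flab a b c ((t + 1) % (2 * (a + b + c))) true =
      flab a b c ((fpart a b c t + 1) % (2 * (a + b + c))) false := by
  have hp := fpart_par ha ha2 hb hc t ht
  rw [Nat.mod_eq_of_lt (by omega : t + 1 < 2 * (a + b + c)), flab_odd_t (by omega),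
    wrap (fpart_lt ha ha2 hb hc t ht), flab_even_f (by split_ifs <;> omega)]
  rcases fpart_cases ha ha2 hb hc t ht with ⟨h1, h⟩ | ⟨h1, h2, h⟩ | ⟨h1, h2, h⟩ | ⟨h1, h2, h⟩ |
    ⟨h1, h2, h⟩ | ⟨h1, h⟩ <;> rw [h]
  · rw [if_neg (by omega), lm1 (by omega) (by omega), lm5 (by omega) (by omega)]; omega
  · rw [if_neg (by omega)]
    have e1 : lmix a b c (t + 1) = a + b + c + 1 := by
      by_cases h3 : t + 1 = a + b
      · exact lm4 hb h3
      · exact lm2 (by omega) (by omega) (by omega) (by omega)
    have e2 : lmix a b c (2 * (a + b) - 1 + a - t + 1) = a + b + c + 1 := by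
      by_cases h3 : t = a
      · exact lm8 hb (by omega)
      · exact lm7 (by omega) (by omega) (by omega) (by omega)
    rw [e1, e2]
  · rw [if_neg (by omega)]
    by_cases h3 : t + 1 = a + b + a
    · rw [lm6 (by omega) (by omega) (by omega) (by omega),
        lm3 (by omega) (by omega) (by omega) (by omega)]
    · rw [lm5 (by omega) (by omega), lm1 (by omega) (by omega)]; omega
  · rw [if_neg (by omega), lm6 (by omega) (by omega) (by omega) (by omega),
      lm3 (by omega) (by omega) (by omega) (by omega)]
  · by_cases h3 : t + 1 = 2 * (a + b) + c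
    · rw [if_pos (by omega), lm10 hb (by omega) h3, lm0]
    · rw [if_neg (by omega), lm9 (by omega) (by omega), lm11 (by omega)]; omega
  · rw [if_neg (by omega), lm11 (by omega), lm9 (by omega) (by omega)]; omega

theorem f_surj (k : ℕ) (hk : k < a + b + c + 2) :
    ∃ p s, p < 2 * (a + b + c) ∧ flab a b c p s = k := by
  have par : ∀ p : ℕ, p % 2 = 0 ∨ p % 2 = 1 := fun p => by omega
  by_cases h1 : k < a - 1
  · -- bigons of the block `X`
    have e : lmix a b c (k + 1) = k := by
      rw [lm1 (by omega) (by omega)]; omega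
    rcases par (k + 1) with h | h
    · exact ⟨k + 1, false, by omega, by rw [flab_even_f h, e]⟩
    · exact ⟨k + 1, true, by omega, by rw [flab_odd_t h, e]⟩
  by_cases h2 : k < a + b - 2
  · -- bigons of the block `Y`
    rcases par (k + 2) with h | h
    · refine ⟨k + 2, true, by omega, ?_⟩
      rw [flab_even_t h]; unfold leven
      rw [if_neg (by omega), if_pos (by omega)]; omega
    · refine ⟨k + 2, false, by omega, ?_⟩
      rw [flab_odd_f h]; unfold lodd
      rw [if_neg (by omega), if_pos (by omega)]; omega
  by_cases h3 : k < a + b + c - 3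
  · -- bigons of the block `Z`
    have e : lmix a b c (k + (a + b) + 3) = k := by
      rw [lm9 (by omega) (by omega)]; omega
    rcases par (k + (a + b) + 3) with h | h
    · exact ⟨k + (a + b) + 3, false, by omega, by rw [flab_even_f h, e]⟩
    · exact ⟨k + (a + b) + 3, true, by omega, by rw [flab_odd_t h, e]⟩
  by_cases h4 : k = a + b + c - 3
  · refine ⟨2 * (a + b) + 1, false, by omega, ?_⟩
    rw [flab_odd_f (by omega)]; unfold lodd
    rw [if_neg (by omega), if_neg (by omega), if_neg (by omega), if_neg (by omega)]; omega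
  by_cases h5 : k = a + b + c - 2
  · refine ⟨a + b, false, by omega, ?_⟩
    rw [flab_odd_f (by omega)]; unfold lodd
    rw [if_neg (by omega), if_neg (by omega), if_pos (by omega)]; omega
  by_cases h6 : k = a + b + c - 1
  · refine ⟨a, false, by omega, ?_⟩
    rw [flab_even_f (by omega), lm3 (by omega) (by omega) (by omega) (by omega)]; omega
  by_cases h7 : k = a + b + c
  · refine ⟨0, true, by omega, ?_⟩
    rw [flab_even_t (by omega)]; unfold leven
    rw [if_pos (by omega)]; omega
  · refine ⟨0, false, by omega, ?_⟩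
    rw [flab_even_f (by omega), lm0]; omega

/-- the code of the family -/
def fcode : Code (a + b + c) where
  pos := by omega
  part := fpart a b c
  lab := flab a b c
  lt := fpart_lt ha ha2 hb hc
  inv := fpart_inv ha ha2 hb hc
  par := fpart_par ha ha2 hb hc
  lab_lt := flab_lt ha ha2 hb hc
  ne := f_ne ha ha2 hb hc
  nw := f_nw ha ha2 hb hc
  sw := f_sw ha ha2 hb hc
  se := f_se ha ha2 hb hc
  surj := f_surj ha ha2 hb hc

end family

end Pool.Agent.H86.VR.Fam
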