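import Pool.Agent.H86.VR.Flat

namespace Pool.Agent.H86.VR.V2

open Finset Pool.Agent.Results.MP_6e410e_gt.Willerton
open Pool.Agent.H86.VR.Fl
open scoped Classical

section base

variable {C : Type} {next : C × Bool → C × Bool}

/-- the order of the two passages of `a` seen from the base `x` -/
noncomputable def epx (next : C × Bool → C × Bool) (x : C × Bool) (a : C) : ℤ :=
  if (a, true) = x ∨ before next x (a, true) (a, false) then 1 else -1

theorem epx_num [Finite C] {N : ℕ} {pos : C × Bool → ℕ} (hn : Num next N pos)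
    (h : ∀ x y : C × Bool, ∃ k : ℕ, next^[k] x = y) (x : C × Bool) (a : C) :
    epx next x a = epk (fun c => pos (c, true)) (fun c => pos (c, false)) (pos x) a := by
  have hTF : pos (a, true) ≠ pos (a, false) := fun e => by simpa using hn.inj e
  by_cases h1 : (a, true) = x
  · unfold epx
    rw [if_pos (Or.inl h1)]
    unfold epk eps
    rw [← h1]
    simp only
    split_ifs <;> omega
  · by_cases h2 : (a, false) = x
    · unfold epx
      rw [if_neg]
      · unfold epk eps
        rw [← h2]
        simp only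
        split_ifs <;> omega
      · rintro (h3 | ⟨k, -, hk⟩)
        · exact h1 h3
        · exact hk 0 (Nat.zero_le _) h2.symm
    · unfold epx
      have p1 : pos x ≠ pos (a, true) := fun e => h1 (hn.inj e).symm
      have p2 : pos x ≠ pos (a, false) := fun e => h2 (hn.inj e).symm
      rw [before_iff_nc hn h (Ne.symm h1) (Ne.symm h2) (by simp)]
      unfold epk eps nc
      simp only [h1, false_or]
      split_ifs <;> omega

theorem dc_num [Finite C] {N : ℕ} {pos : C × Bool → ℕ} (hn : Num next N pos)
    (h : ∀ x y : C × Bool, ∃ k : ℕ, next^[k] x = y) (a b : C) :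
    dc (fun c => pos (c, true)) (fun c => pos (c, false)) a b = dd next a b := by
  by_cases hab : a = b
  · subst hab; rw [dc_self, dd_self]
  · rw [dd_ne hab, chi_nc hn h (by simpa using Ne.symm hab), chi_nc hn h (by simpa using Ne.symm hab)]
    rfl

theorem ok_num {N : ℕ} {pos : C × Bool → ℕ} (hn : Num next N pos) (A : Finset C) :
    Ok (fun c => pos (c, true)) (fun c => pos (c, false)) A := by
  refine ⟨fun a _ b _ e => ?_, fun a _ b _ e => ?_, fun a _ b _ e => ?_⟩
  · have := hn.inj e; simp at this
  · have := hn.inj e; simpa using this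
  · have := hn.inj e; simpa using this

theorem flat_num [Fintype C] [Nonempty C] {N : ℕ} {pos : C × Bool → ℕ} (hn : Num next N pos)
    (h : ∀ x y : C × Bool, ∃ k : ℕ, next^[k] x = y)
    (hp : Nat.card (Region next) = Nat.card C + 2) :
    Flat (fun c => pos (c, true)) (fun c => pos (c, false)) (univ : Finset C) := by
  refine ⟨ok_num hn _, fun p _ => ?_, fun p _ r _ hpr => ?_⟩
  · rw [← index_rel h hp p]
    exact Finset.sum_congr rfl fun c _ => dc_num hn h p c
  · rw [dc_num hn h p r, ← pair_rel h hp hpr]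
    have e : ∀ c : C, (Fl.ch (fun c => pos (c, true)) (fun c => pos (c, false)) p (pos (c, true)) *
        Fl.ch (fun c => pos (c, true)) (fun c => pos (c, false)) r (pos (c, false)) -
        Fl.ch (fun c => pos (c, true)) (fun c => pos (c, false)) p (pos (c, false)) *
        Fl.ch (fun c => pos (c, true)) (fun c => pos (c, false)) r (pos (c, true))) =
        if c ∈ (univ.erase p).erase r then (chi next p (c, true) * chi next r (c, false) -
      chi next p (c, false) * chi next r (c, true)) else 0 := by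
      intro c
      by_cases hcp : c = p
      · subst hcp
        rw [if_neg (by simp), ch_Tself (T := fun c => pos (c, true)) (F := fun c => pos (c, false)),
          ch_Fself (T := fun c => pos (c, true)) (F := fun c => pos (c, false))]
        ring
      · by_cases hcr : c = r
        · subst hcr
          rw [if_neg (by simp), ch_Tself (T := fun c => pos (c, true)) (F := fun c => pos (c, false)),
            ch_Fself (T := fun c => pos (c, true)) (F := fun c => pos (c, false))]
          ring
        · rw [if_pos (by simp [hcp, hcr]), chi_nc (m := p) (z := (c, true)) hn h (by simpa using hcp),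
            chi_nc (m := p) (z := (c, false)) hn h (by simpa using hcp),
            chi_nc (m := r) (z := (c, true)) hn h (by simpa using hcr),
            chi_nc (m := r) (z := (c, false)) hn h (by simpa using hcr)]
          rfl
    rw [Finset.sum_congr rfl fun c _ => e c, Finset.sum_ite_mem, Finset.univ_inter]

end base

/-- the quadratic sum for the base `x` -/
noncomputable def inv8x (D : KnotDiagram) (x : D.C × Bool) : ℤ :=
  ∑ a : D.C, ∑ b : D.C, dd D.next a b ^ 2 *
    (sg (D.sign a) * sg (D.sign b) - epx D.next x a * epx D.next x b)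

/-- eight times the invariant -/
noncomputable def inv8 (D : KnotDiagram) : ℤ :=
  if h : Nonempty D.C then inv8x D (h.some, true) else 0

theorem inv8x_num (D : KnotDiagram) {N : ℕ} {pos : D.C × Bool → ℕ} (hn : Num D.next N pos)
    (x : D.C × Bool) : inv8x D x =
    ∑ a : D.C, ∑ b : D.C, dd D.next a b ^ 2 * (sg (D.sign a) * sg (D.sign b)) -
      Bq (fun c => pos (c, true)) (fun c => pos (c, false)) (univ : Finset D.C) := by
  have : Nonempty D.C := ⟨x.1⟩
  rw [← Bk_all (flat_num hn D.one_component (D.planar this)) (pos x), ← Finset.sum_sub_distrib]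
  unfold inv8x
  refine Finset.sum_congr rfl fun a _ => ?_
  rw [← Finset.sum_sub_distrib]
  refine Finset.sum_congr rfl fun b _ => ?_
  rw [epx_num hn D.one_component, epx_num hn D.one_component, dc_num hn D.one_component]
  ring

theorem inv8x_indep (D : KnotDiagram) (x y : D.C × Bool) : inv8x D x = inv8x D y := by
  obtain ⟨N, pos, hn, -⟩ := exists_num D.one_component x
  rw [inv8x_num D hn, inv8x_num D hn]

theorem inv8_eq (D : KnotDiagram) (x : D.C × Bool) : inv8 D = inv8x D x := by
  unfold inv8
  rw [dif_pos ⟨x.1⟩]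
  exact inv8x_indep D _ _

theorem inv8_empty (D : KnotDiagram) (h : IsEmpty D.C) : inv8 D = 0 := by
  unfold inv8
  rw [dif_neg (not_nonempty_iff.2 h)]

/-! ### The first two moves -/

theorem erase_epx {C C' : Type} {f : C × Bool → C × Bool} {g : C' × Bool → C' × Bool}
    (ι : C → C') (hι : Function.Injective ι) (S : Set C') (hS : Set.range ι = Sᶜ)
    (hx : ∀ x : C × Bool, ∃ k : ℕ, g^[k + 1] (ι x.1, x.2) = (ι (f x).1, (f x).2) ∧
      ∀ j < k, (g^[j + 1] (ι x.1, x.2)).1 ∈ S)
    (h1 : ∀ x y : C × Bool, ∃ k : ℕ, f^[k] x = y) (x : C × Bool) (a : C) :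
    epx g (ι x.1, x.2) (ι a) = epx f x a := by
  unfold epx
  congr 1
  apply propext
  by_cases hT : (a, true) = x
  · subst hT; simp
  · by_cases hF : (a, false) = x
    · subst hF
      constructor
      · rintro (h2 | ⟨k, -, hk⟩)
        · simp at h2
        · exact absurd rfl (hk 0 (Nat.zero_le _))
      · rintro (h2 | ⟨k, -, hk⟩)
        · simp at h2
        · exact absurd rfl (hk 0 (Nat.zero_le _))
    · have hT' : (ι a, true) ≠ (ι x.1, x.2) := by
        intro e
        apply hT
        obtain ⟨e1, e2⟩ := Prod.mk.inj e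
        exact Prod.ext (hι e1) e2
      have := erase_before (f := f) (g := g) ι hι S hS hx h1 (x := x) (y := (a, true))
        (z := (a, false)) (by simp) (Ne.symm hF) (Ne.symm hT)
      simp only [hT, hT', false_or]
      exact this

/-- a quadratic sum -/
def quad {C : Type} [Fintype C] (D : C → C → ℤ) (ε η : C → ℤ) : ℤ :=
  ∑ a, ∑ b, D a b ^ 2 * (ε a * ε b - η a * η b)

theorem quad_reindex {C C' : Type} [Fintype C] [Fintype C'] (e : C ≃ C') (D : C' → C' → ℤ)
    (ε η : C' → ℤ) : quad D ε η =
      quad (fun a b => D (e a) (e b)) (fun a => ε (e a)) (fun a => η (e a)) := by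
  unfold quad
  rw [← e.sum_comp]
  refine Finset.sum_congr rfl fun a _ => ?_
  rw [← e.sum_comp]

theorem sum2_split {α β : Type} [Fintype α] [Fintype β] (F : α ⊕ β → α ⊕ β → ℤ) :
    ∑ x, ∑ y, F x y =
      ∑ a : α, ∑ b : α, F (Sum.inl a) (Sum.inl b) +
      ∑ a : α, ∑ s : β, (F (Sum.inl a) (Sum.inr s) + F (Sum.inr s) (Sum.inl a)) +
      ∑ s : β, ∑ t : β, F (Sum.inr s) (Sum.inr t) := by
  have e1 : ∑ s : β, ∑ a : α, F (Sum.inr s) (Sum.inl a) = ∑ a : α, ∑ s : β, F (Sum.inr s) (Sum.inl a) :=
    Finset.sum_comm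
  simp only [Fintype.sum_sum_type, Finset.sum_add_distrib]
  rw [e1]
  ring

theorem quad_kink {C : Type} [Fintype C] (D : C ⊕ Unit → C ⊕ Unit → ℤ) (ε η : C ⊕ Unit → ℤ)
    (h1 : ∀ x, D x (Sum.inr ()) = 0) (h2 : ∀ x, D (Sum.inr ()) x = 0) :
    quad D ε η = quad (fun a b => D (Sum.inl a) (Sum.inl b)) (fun a => ε (Sum.inl a))
      (fun a => η (Sum.inl a)) := by
  unfold quad
  rw [sum2_split]
  simp [h1, h2]

theorem quad_twin {C : Type} [Fintype C] (D : C ⊕ Bool → C ⊕ Bool → ℤ) (ε η : C ⊕ Bool → ℤ)
    (h1 : ∀ a, D (Sum.inr false) (Sum.inl a) = - D (Sum.inr true) (Sum.inl a))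
    (h2 : ∀ a, D (Sum.inl a) (Sum.inr false) = - D (Sum.inl a) (Sum.inr true))
    (h7 : ∀ s, D (Sum.inr s) (Sum.inr s) = 0)
    (h8 : ε (Sum.inr false) = - ε (Sum.inr true)) (h9 : η (Sum.inr false) = - η (Sum.inr true))
    (h10 : ε (Sum.inr true) ^ 2 = 1) (h11 : η (Sum.inr true) ^ 2 = 1) :
    quad D ε η = quad (fun a b => D (Sum.inl a) (Sum.inl b)) (fun a => ε (Sum.inl a))
      (fun a => η (Sum.inl a)) := by
  unfold quad
  rw [sum2_split]
  have e1 : ∀ a : C, ∑ s : Bool, (D (Sum.inl a) (Sum.inr s) ^ 2 * (ε (Sum.inl a) * ε (Sum.inr s) -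
      η (Sum.inl a) * η (Sum.inr s)) + D (Sum.inr s) (Sum.inl a) ^ 2 *
      (ε (Sum.inr s) * ε (Sum.inl a) - η (Sum.inr s) * η (Sum.inl a))) = 0 := by
    intro a
    rw [Fintype.sum_bool, h1, h2, h8, h9]
    ring
  have e2 : ∑ s : Bool, ∑ t : Bool, D (Sum.inr s) (Sum.inr t) ^ 2 *
      (ε (Sum.inr s) * ε (Sum.inr t) - η (Sum.inr s) * η (Sum.inr t)) = 0 := by
    simp only [Fintype.sum_bool, h7, h8, h9]
    linear_combination (-(D (Sum.inr true) (Sum.inr false) ^ 2) -
      D (Sum.inr false) (Sum.inr true) ^ 2) * (h10 - h11)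
  rw [Finset.sum_eq_zero fun a _ => e1 a, e2]
  ring

theorem inv8x_quad (D : KnotDiagram) (x : D.C × Bool) :
    inv8x D x = quad (dd D.next) (fun c => sg (D.sign c)) (epx D.next x) := rfl

theorem inv8_relabel (D' D : KnotDiagram) (h : Erases D' D ∅) : inv8 D' = inv8 D := by
  obtain ⟨ι, hι, hr, hs, hx⟩ := h
  have hbij : Function.Bijective ι := ⟨hι, by
    intro c
    have : c ∈ Set.range ι := by rw [hr]; simp
    exact this⟩
  rcases isEmpty_or_nonempty D.C with he | ⟨⟨c0⟩⟩
  · have he' : IsEmpty D'.C := ⟨fun c => he.false (hbij.2 c).choose⟩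
    rw [inv8_empty _ he, inv8_empty _ he']
  · rw [inv8_eq D (c0, true), inv8_eq D' (ι c0, true), inv8x_quad, inv8x_quad,
      quad_reindex (Equiv.ofBijective ι hbij)]
    congr 1
    · funext a b
      exact erase_dd ι hι ∅ hr hx D.one_component a b
    · funext a
      exact congrArg sg (hs a)
    · funext a
      exact erase_epx ι hι ∅ hr hx D.one_component (c0, true) a

theorem inv8_r1 (D' D : KnotDiagram) (p : D'.C) (b : Bool) (hp : D'.next (p, b) = (p, !b))
    (h : Erases D' D {p}) : inv8 D' = inv8 D := by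
  obtain ⟨ι, hι, hr, hs, hx⟩ := h
  have hne : ∀ c, ι c ≠ p := by
    intro c e
    have : ι c ∈ ({p} : Set D'.C)ᶜ := by rw [← hr]; exact ⟨c, rfl⟩
    exact this e
  let F : D.C ⊕ Unit → D'.C := Sum.elim ι (fun _ => p)
  have hbij : Function.Bijective F := by
    constructor
    · rintro (a | a) (b | b) hab
      · exact congrArg Sum.inl (hι hab)
      · exact absurd hab (hne a)
      · exact absurd hab.symm (hne b)
      · rfl
    · intro c
      by_cases hc : c = p
      · exact ⟨Sum.inr (), hc.symm⟩
      · have : c ∈ Set.range ι := by rw [hr]; exact hc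
        obtain ⟨a, ha⟩ := this
        exact ⟨Sum.inl a, ha⟩
  have k1 := dd_kink D'.one_component hp
  have k2 : ∀ x, dd D'.next x p = 0 := fun x => by
    rw [dd_antisymm D'.one_component, k1, neg_zero]
  rcases isEmpty_or_nonempty D.C with he | ⟨⟨c0⟩⟩
  · rw [inv8_empty _ he, inv8_eq D' (p, true), inv8x_quad,
      quad_reindex (Equiv.ofBijective F hbij), quad_kink _ _ _ (fun x => k2 _) (fun x => k1 _)]
    simp [quad]
  · rw [inv8_eq D (c0, true), inv8_eq D' (ι c0, true), inv8x_quad, inv8x_quad,
      quad_reindex (Equiv.ofBijective F hbij), quad_kink _ _ _ (fun x => k2 _) (fun x => k1 _)]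
    congr 1
    · funext a b
      exact erase_dd ι hι {p} hr hx D.one_component a b
    · funext a
      exact congrArg sg (hs a)
    · funext a
      exact erase_epx ι hι {p} hr hx D.one_component (c0, true) a

theorem eps_twin {D' : KnotDiagram} {N : ℕ} {pos : D'.C × Bool → ℕ} (hn : Num D'.next N pos)
    {p q : D'.C} {b : Bool} (h1 : D'.next (p, b) = (q, !b))
    (h2 : D'.next (p, !b) = (q, b) ∨ D'.next (q, b) = (p, !b))
    (hp : ∀ s, pos (p, s) ≠ 0) (hq : ∀ s, pos (q, s) ≠ 0) (hpq : p ≠ q) :
    eps (fun c => pos (c, true)) (fun c => pos (c, false)) q =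
      - eps (fun c => pos (c, true)) (fun c => pos (c, false)) p := by
  have s1 := hn.step (p, b)
  rw [h1] at s1
  have s2 : pos (q, b) = pos (p, !b) + 1 ∨ pos (p, !b) = pos (q, b) + 1 := by
    rcases h2 with h2 | h2
    · have := hn.step (p, !b)
      rw [h2] at this
      have := hq b
      omega
    · have := hn.step (q, b)
      rw [h2] at this
      have := hp (!b)
      omega
  have q0 := hq (!b)
  have ne1 : pos (p, true) ≠ pos (p, false) := fun e => by simpa using hn.inj e
  have ne2 : pos (q, true) ≠ pos (q, false) := fun e => by simpa using hn.inj e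
  have ne3 : ∀ s t, pos (p, s) ≠ pos (q, t) := fun s t e => hpq (Prod.mk.inj (hn.inj e)).1
  have n1 := ne3 true true
  have n2 := ne3 true false
  have n3 := ne3 false true
  have n4 := ne3 false false
  simp only [eps]
  cases b with
  | true =>
    simp only [Bool.not_true] at s1 s2 q0
    split_ifs <;> omega
  | false =>
    simp only [Bool.not_false] at s1 s2 q0
    split_ifs <;> omega

theorem inv8_r2 (D' D : KnotDiagram) (p q : D'.C) (b : Bool) (hpq : p ≠ q)
    (hsg : D'.sign p ≠ D'.sign q) (h1 : D'.next (p, b) = (q, !b))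
    (h2 : D'.next (p, !b) = (q, b) ∨ D'.next (q, b) = (p, !b))
    (h : Erases D' D {p, q}) : inv8 D' = inv8 D := by
  obtain ⟨ι, hι, hr, hs, hx⟩ := h
  have hne : ∀ c, ι c ≠ p ∧ ι c ≠ q := by
    intro c
    have : ι c ∈ ({p, q} : Set D'.C)ᶜ := by rw [← hr]; exact ⟨c, rfl⟩
    simpa [not_or] using this
  let F : D.C ⊕ Bool → D'.C := Sum.elim ι (fun s => if s then p else q)
  have hbij : Function.Bijective F := by
    constructor
    · rintro (a | a) (b | b) hab
      · exact congrArg Sum.inl (hι hab)
      · cases b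
        · exact absurd hab (hne a).2
        · exact absurd hab (hne a).1
      · cases a
        · exact absurd hab.symm (hne b).2
        · exact absurd hab.symm (hne b).1
      · cases a <;> cases b
        · rfl
        · exact absurd hab hpq.symm
        · exact absurd hab hpq
        · rfl
    · intro c
      by_cases hc : c = p
      · exact ⟨Sum.inr true, hc.symm⟩
      · by_cases hc' : c = q
        · exact ⟨Sum.inr false, hc'.symm⟩
        · have : c ∈ Set.range ι := by rw [hr]; simp [hc, hc']
          obtain ⟨a, ha⟩ := this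
          exact ⟨Sum.inl a, ha⟩
  have tw := dd_twin D'.one_component h1 h2
  have as := dd_antisymm D'.one_component
  have sgp : sg (D'.sign q) = - sg (D'.sign p) := by
    revert hsg
    cases D'.sign p <;> cases D'.sign q <;> simp [sg]
  have t1 : ∀ a, dd D'.next q (ι a) = - dd D'.next p (ι a) := by
    intro a
    rw [as q, tw (ι a) (hne a).1 (hne a).2, as (ι a) p]; ring
  have t2 : ∀ a, dd D'.next (ι a) q = - dd D'.next (ι a) p :=
    fun a => tw (ι a) (hne a).1 (hne a).2
  rcases isEmpty_or_nonempty D.C with he | ⟨⟨c0⟩⟩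
  · -- the two crossings do not meet
    have hN : Nonempty D'.C := ⟨p⟩
    have hrow := index_rel D'.one_component (D'.planar hN) p
    rw [← (Equiv.ofBijective F hbij).sum_comp, Fintype.sum_sum_type, Fintype.sum_bool] at hrow
    have hpq0 : dd D'.next p q = 0 := by
      simp only [Finset.univ_eq_empty, Finset.sum_empty, zero_add] at hrow
      change dd D'.next p p + dd D'.next p q = 0 at hrow
      rw [dd_self] at hrow
      linarith
    rw [inv8_empty _ he, inv8_eq D' (p, true), inv8x_quad,
      quad_reindex (Equiv.ofBijective F hbij)]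
    unfold quad
    refine Finset.sum_eq_zero fun a _ => Finset.sum_eq_zero fun b _ => ?_
    have : dd D'.next (F a) (F b) = 0 := by
      rcases a with a | a
      · exact (he.false a).elim
      · rcases b with b | b
        · exact (he.false b).elim
        · cases a <;> cases b
          · exact dd_self _
          · change dd D'.next q p = 0
            rw [as, hpq0, neg_zero]
          · exact hpq0
          · exact dd_self _
    change dd D'.next (F a) (F b) ^ 2 * _ = 0
    rw [this]; ring
  · obtain ⟨N, pos, hn, h0⟩ := exists_num D'.one_component (ι c0, true)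
    have hpz : ∀ c, c ≠ ι c0 → ∀ s, pos (c, s) ≠ 0 := by
      intro c hc s e
      rw [← h0] at e
      exact hc (Prod.mk.inj (hn.inj e)).1
    have hε : epx D'.next (ι c0, true) q = - epx D'.next (ι c0, true) p := by
      rw [epx_num hn D'.one_component, epx_num hn D'.one_component, h0, epk_zero, epk_zero]
      exact eps_twin hn h1 h2 (hpz p (hne c0).1.symm) (hpz q (hne c0).2.symm) hpq
    have hsq : ∀ c, epx D'.next (ι c0, true) c ^ 2 = 1 := by
      intro c
      unfold epx
      split_ifs <;> norm_num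
    rw [inv8_eq D (c0, true), inv8_eq D' (ι c0, true), inv8x_quad, inv8x_quad,
      quad_reindex (Equiv.ofBijective F hbij)]
    refine (quad_twin (C := D.C) (fun a b => dd D'.next (F a) (F b))
      (fun a => sg (D'.sign (F a))) (fun a => epx D'.next (ι c0, true) (F a))
      t1 t2 (fun s => dd_self _) sgp hε (by
        change sg (D'.sign p) ^ 2 = 1
        cases D'.sign p <;> rfl) (hsq _)).trans ?_
    congr 1
    · funext a b
      exact erase_dd ι hι {p, q} hr hx D.one_component a b
    · funext a
      exact congrArg sg (hs a)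
    · funext a
      exact erase_epx ι hι {p, q} hr hx D.one_component (c0, true) a

/-! ### The third move -/

def ev2 (k a b c : Bool) : Fin 3 → ℤ
  | 0 => sg a
  | 1 => sg b
  | 2 => sg k * sg c

theorem km_quad : ∀ k w a b c : Bool,
    (∑ i : Fin 3, ∑ j : Fin 3, (Km (sg k) (sg w) (ev a b c) i j) ^ 2 *
      (ev a b c i * ev a b c j - ev2 k a b c i * ev2 k a b c j)) =
    (∑ i : Fin 3, ∑ j : Fin 3, (Km (sg k) (- sg w) (ev a b c) i j) ^ 2 *
      (ev a b c i * ev a b c j - ev2 k a b c i * ev2 k a b c j)) := by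
  simp only [Fin.sum_univ_three]
  decide +kernel

theorem quad_r3 {C : Type} [Fintype C] (D D' : C ⊕ Fin 3 → C ⊕ Fin 3 → ℤ) (ε η : C ⊕ Fin 3 → ℤ)
    (k w a b c : Bool)
    (hε : ∀ i, ε (Sum.inr i) = ev a b c i) (hη : ∀ i, η (Sum.inr i) = ev2 k a b c i)
    (hll : ∀ e f, D (Sum.inl e) (Sum.inl f) = D' (Sum.inl e) (Sum.inl f))
    (hK : ∀ i j, D (Sum.inr i) (Sum.inr j) = Km (sg k) (sg w) (ev a b c) i j)
    (hK' : ∀ i j, D' (Sum.inr i) (Sum.inr j) = Km (sg k) (-sg w) (ev a b c) i j)
    (hy : ∀ e i, D (Sum.inl e) (Sum.inr i) = D' (Sum.inl e) (Sum.inr i))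
    (hy2 : ∀ e i, D (Sum.inr i) (Sum.inl e) = D' (Sum.inr i) (Sum.inl e)) :
    quad D ε η = quad D' ε η := by
  unfold quad
  rw [sum2_split, sum2_split]
  simp only [hll, hy, hy2, hK, hK', hε, hη]
  rw [km_quad k w a b c]

theorem inv8_r3 (D D' : KnotDiagram) (p q r : D.C) (w : Bool) (e : D.C ≃ D'.C)
    (ht : STri D p q r w) (hs : ∀ c, D'.sign (e c) = D.sign c)
    (hx : ∀ x, D'.next (Prod.map e id (slide D.sign p q r x)) =
        Prod.map e id (slide D.sign p q r (D.next x))) : inv8 D = inv8 D' := by
  obtain ⟨N, pos, hn, hpos⟩ := tri_num D ht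
  obtain ⟨pq, pr, qr, -, -, -⟩ := ht
  have hss := fun x => slide_slide (s := D.sign) pq pr qr x
  -- positions in the second diagram
  let pos' : D'.C × Bool → ℕ := fun y => pos (slide D.sign p q r (Prod.map e.symm id y))
  have hpos' : ∀ x, pos' (Prod.map e id x) = pos (slide D.sign p q r x) := by
    intro x
    change pos (slide D.sign p q r (Prod.map e.symm id (Prod.map e id x))) = _
    congr 2
    obtain ⟨c, b⟩ := x
    simp
  have hn' : Num D'.next N pos' := by
    refine ⟨fun y => hn.lt _, ?_, ?_⟩
    · intro y1 y2 hy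
      have h3 := hn.inj hy
      have h4 := congrArg (slide D.sign p q r) h3
      rw [hss, hss] at h4
      obtain ⟨c1, b1⟩ := y1
      obtain ⟨c2, b2⟩ := y2
      simpa using h4
    · intro y
      obtain ⟨x, rfl⟩ : ∃ x, y = Prod.map e id (slide D.sign p q r x) := by
        refine ⟨slide D.sign p q r (Prod.map e.symm id y), ?_⟩
        rw [hss]
        obtain ⟨c, b⟩ := y
        simp
      rw [hx, hpos', hpos', hss, hss]
      exact hn.step x
  have q1 : pos' (e p, D'.sign (e p)) = pos (q, D.sign q) := by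
    rw [hs]; exact (hpos' (p, D.sign p)).trans (by rw [slide_1])
  have q2 : pos' (e q, D'.sign (e q)) = pos (p, D.sign p) := by
    rw [hs]; exact (hpos' (q, D.sign q)).trans (by rw [slide_2 pq])
  have q3 : pos' (e p, !D'.sign (e p)) = pos (r, D.sign r) := by
    rw [hs]; exact (hpos' (p, !D.sign p)).trans (by rw [slide_3 pq])
  have q4 : pos' (e r, D'.sign (e r)) = pos (p, !D.sign p) := by
    rw [hs]; exact (hpos' (r, D.sign r)).trans (by rw [slide_4 pr qr])
  have q5 : pos' (e q, !D'.sign (e q)) = pos (r, !D.sign r) := by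
    rw [hs]; exact (hpos' (q, !D.sign q)).trans (by rw [slide_5 pq qr])
  have q6 : pos' (e r, !D'.sign (e r)) = pos (q, !D.sign q) := by
    rw [hs]; exact (hpos' (r, !D.sign r)).trans (by rw [slide_6 pr qr])
  have hout : ∀ (c : D.C) (b : Bool), c ≠ p → c ≠ q → c ≠ r → pos' (e c, b) = pos (c, b) := by
    intro c b hp hq hr
    exact (hpos' (c, b)).trans (by rw [slide_out hp hq hr])
  have ho : ∀ z : D.C × Bool, z.1 ≠ p → z.1 ≠ q → z.1 ≠ r →
      OutPos (pos (p, D.sign p)) (pos (q, D.sign q)) (pos (p, !D.sign p)) (pos (r, D.sign r))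
        (pos (q, !D.sign q)) (pos (r, !D.sign r)) (pos z) :=
    fun z hp hq hr => tri_outPos hn hpos hp hq hr
  -- the splitting of the crossings
  let F : {c : D.C // c ≠ p ∧ c ≠ q ∧ c ≠ r} ⊕ Fin 3 → D.C := Sum.elim Subtype.val ![p, q, r]
  have hbij : Function.Bijective F := by
    constructor
    · rintro (⟨a, a1, a2, a3⟩ | i) (⟨b, b1, b2, b3⟩ | j) hab
      · simp only [F, Sum.elim_inl] at hab
        subst hab; rfl
      · simp only [F, Sum.elim_inl, Sum.elim_inr] at hab
        fin_cases j <;> simp at hab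
        · exact absurd hab a1
        · exact absurd hab a2
        · exact absurd hab a3
      · simp only [F, Sum.elim_inl, Sum.elim_inr] at hab
        fin_cases i <;> simp at hab
        · exact absurd hab.symm b1
        · exact absurd hab.symm b2
        · exact absurd hab.symm b3
      · simp only [F, Sum.elim_inr] at hab
        fin_cases i <;> fin_cases j <;> simp at hab ⊢
        · exact pq hab
        · exact pr hab
        · exact pq hab.symm
        · exact qr hab
        · exact pr hab.symm
        · exact qr hab.symm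
    · intro c
      by_cases hp : c = p
      · exact ⟨Sum.inr 0, hp.symm⟩
      · by_cases hq : c = q
        · exact ⟨Sum.inr 1, hq.symm⟩
        · by_cases hr : c = r
          · exact ⟨Sum.inr 2, hr.symm⟩
          · exact ⟨Sum.inl ⟨c, hp, hq, hr⟩, rfl⟩
  set A1 := pos (p, D.sign p) with hA1
  set B1 := pos (q, D.sign q) with hB1
  set A2 := pos (p, !D.sign p) with hA2
  set C2 := pos (r, D.sign r) with hC2
  set B3 := pos (q, !D.sign q) with hB3
  set C3 := pos (r, !D.sign r) with hC3
  have h1 := D.one_component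
  have h1' := D'.one_component
  have flip : TriPos (!w) ((!w) == (D'.sign (e q) == D'.sign (e r)))
      ((!w) == (D'.sign (e p) == D'.sign (e r))) B1 A1 C2 A2 C3 B3 := by
    rw [hs, hs, hs, flip_m, flip_m]; exact hpos.flip
  have : Nonempty D.C := ⟨p⟩
  -- the base
  let x0 : D.C × Bool := if w then (p, D.sign p) else (q, D.sign q)
  have hx0 : pos x0 = 0 := by
    change pos (if w = true then (p, D.sign p) else (q, D.sign q)) = 0
    rcases hpos.top with ⟨a, b, -⟩ | ⟨a, b, -⟩
    · rw [if_pos a]; exact b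
    · rw [if_neg (by simp [a])]; exact b
  let x0' : D'.C × Bool := Prod.map e id (slide D.sign p q r x0)
  have hx0' : pos' x0' = 0 := by
    change pos' (Prod.map e id (slide D.sign p q r x0)) = 0
    rw [hpos', hss, hx0]
  rw [inv8_eq D x0, inv8_eq D' x0', inv8x_quad, inv8x_quad]
  rw [quad_reindex e, quad_reindex (Equiv.ofBijective F hbij),
    quad_reindex (Equiv.ofBijective F hbij) (fun a b => dd D'.next (e a) (e b))]
  have hsg : (fun a => sg (D'.sign (e (Equiv.ofBijective F hbij a)))) =
      (fun a => sg (D.sign (Equiv.ofBijective F hbij a))) := by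
    funext a; rw [hs]
  rw [hsg]
  -- the signs seen from the base
  have eD : ∀ a, epx D.next x0 a = eps (fun c => pos (c, true)) (fun c => pos (c, false)) a := by
    intro a
    rw [epx_num hn h1, hx0, epk_zero]
  have eD' : ∀ a, epx D'.next x0' a =
      eps (fun c => pos' (c, true)) (fun c => pos' (c, false)) a := by
    intro a
    rw [epx_num hn' h1', hx0', epk_zero]
  have hpT : ∀ (P : D.C × Bool → ℕ) (c : D.C) (s : Bool), P (c, s) < P (c, !s) →
      eps (fun c => P (c, true)) (fun c => P (c, false)) c = sg s := by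
    intro P c s hlt
    simp only [eps, sg]
    cases s with
    | true => simp only [Bool.not_true] at hlt; simp [hlt]
    | false =>
      simp only [Bool.not_false] at hlt
      rw [if_neg (by omega)]; simp
  have hpT' : ∀ (P : D'.C × Bool → ℕ) (c : D'.C) (s : Bool), P (c, s) < P (c, !s) →
      eps (fun c => P (c, true)) (fun c => P (c, false)) c = sg s := by
    intro P c s hlt
    simp only [eps, sg]
    cases s with
    | true => simp only [Bool.not_true] at hlt; simp [hlt]
    | false =>
      simp only [Bool.not_false] at hlt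
      rw [if_neg (by omega)]; simp
  have htp := hpos
  obtain ⟨ht1, ht2, ht3, ht4, ht5, ht6, ht7, n1, n2, n3, n4⟩ := htp
  have eP : epx D.next x0 p = sg (D.sign p) := by
    rw [eD]
    apply hpT pos p (D.sign p)
    rw [← hA1, ← hA2]; omega
  have eQ : epx D.next x0 q = sg (D.sign q) := by
    rw [eD]
    apply hpT pos q (D.sign q)
    rw [← hB1, ← hB3]; omega
  have eR : epx D.next x0 r = sg (decide (A2 < B3)) * sg (D.sign r) := by
    rw [eD]
    by_cases hk : A2 < B3
    · rw [hpT pos r (D.sign r) (by rw [← hC2, ← hC3]; omega),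
        show sg (decide (A2 < B3)) = 1 by simp [hk, sg]]
      ring
    · rw [hpT pos r (!D.sign r) (by rw [Bool.not_not, ← hC2, ← hC3]; omega), sg_not,
        show sg (decide (A2 < B3)) = -1 by simp [hk, sg]]
      ring
  have eP' : epx D'.next x0' (e p) = sg (D.sign p) := by
    rw [eD', ← hs p]
    apply hpT' pos' (e p) (D'.sign (e p))
    rw [q1, q3]; omega
  have eQ' : epx D'.next x0' (e q) = sg (D.sign q) := by
    rw [eD', ← hs q]
    apply hpT' pos' (e q) (D'.sign (e q))
    rw [q2, q5]; omega
  have eR' : epx D'.next x0' (e r) = sg (decide (A2 < B3)) * sg (D.sign r) := by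
    rw [eD', ← hs r]
    by_cases hk : A2 < B3
    · rw [hpT' pos' (e r) (D'.sign (e r)) (by rw [q4, q6]; omega),
        show sg (decide (A2 < B3)) = 1 by simp [hk, sg]]
      ring
    · rw [hpT' pos' (e r) (!D'.sign (e r)) (by rw [Bool.not_not, q4, q6]; omega), sg_not,
        show sg (decide (A2 < B3)) = -1 by simp [hk, sg]]
      ring
  have hη : (fun a => epx D'.next x0' (e (Equiv.ofBijective F hbij a))) =
      (fun a => epx D.next x0 (Equiv.ofBijective F hbij a)) := by
    funext a
    change epx D'.next x0' (e (F a)) = epx D.next x0 (F a)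
    rcases a with ⟨a, a1, a2, a3⟩ | i
    · change epx D'.next x0' (e a) = epx D.next x0 a
      rw [eD, eD']
      simp only [eps, hout a true a1 a2 a3, hout a false a1 a2 a3]
    · fin_cases i
      · exact eP'.trans eP.symm
      · exact eQ'.trans eQ.symm
      · exact eR'.trans eR.symm
  rw [hη]
  have hrow : ∀ (x : {c : D.C // c ≠ p ∧ c ≠ q ∧ c ≠ r}) (i : Fin 3),
      dd D.next x.1 (F (Sum.inr i)) = yv (ev (D.sign p) (D.sign q) (D.sign r))
        (bz (decide (nc (pos (x.1, false)) A1 (pos (x.1, true)))))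
        (bz (decide (nc (pos (x.1, false)) A2 (pos (x.1, true)))))
        (bz (decide (nc (pos (x.1, false)) B3 (pos (x.1, true))))) i := by
    rintro ⟨x, xp, xq, xr⟩ i
    have hTF : pos (x, true) ≠ pos (x, false) := fun e' => by simpa using hn.inj e'
    exact tri_rows hn h1 xp xq xr D.sign w _ _ A1 B1 A2 C2 B3 C3 _ _ rfl rfl rfl rfl rfl rfl rfl rfl
      hpos (ho (x, true) xp xq xr) (ho (x, false) xp xq xr) hTF (fun i => F (Sum.inr i)) rfl rfl rfl i
  have hrow' : ∀ (x : {c : D.C // c ≠ p ∧ c ≠ q ∧ c ≠ r}) (i : Fin 3),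
      dd D'.next (e x.1) (e (F (Sum.inr i))) = yv (ev (D.sign p) (D.sign q) (D.sign r))
        (bz (decide (nc (pos (x.1, false)) A1 (pos (x.1, true)))))
        (bz (decide (nc (pos (x.1, false)) A2 (pos (x.1, true)))))
        (bz (decide (nc (pos (x.1, false)) B3 (pos (x.1, true))))) i := by
    rintro ⟨x, xp, xq, xr⟩ i
    have hTF : pos (x, true) ≠ pos (x, false) := fun e' => by simpa using hn.inj e'
    have oT := ho (x, true) xp xq xr
    have oF := ho (x, false) xp xq xr
    have oT' : OutPos B1 A1 C2 A2 C3 B3 (pos (x, true)) :=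
      ⟨oT.t0, oT.t2, oT.t1, oT.t4, oT.t3⟩
    have oF' : OutPos B1 A1 C2 A2 C3 B3 (pos (x, false)) :=
      ⟨oF.t0, oF.t2, oF.t1, oF.t4, oF.t3⟩
    have := tri_rows hn' h1' (e.injective.ne xp) (e.injective.ne xq) (e.injective.ne xr)
      D'.sign (!w) _ _ B1 A1 C2 A2 C3 B3 _ _ q1 q2 q3 q4 q5 q6 (hout x true xp xq xr)
      (hout x false xp xq xr)
      flip oT' oF' hTF (fun i => e (F (Sum.inr i))) rfl rfl rfl i
    rw [hs, hs, hs] at this
    obtain ⟨a1, a2, a3⟩ := nc_adj hpos oT oF
    rw [a1, a2, a3] at this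
    exact this
  refine quad_r3 (C := {c : D.C // c ≠ p ∧ c ≠ q ∧ c ≠ r}) _ _ _ _ (decide (A2 < B3)) w
    (D.sign p) (D.sign q) (D.sign r)
    ?_ ?_ ?_ ?_ ?_ ?_ ?_
  · intro i
    fin_cases i <;> rfl
  · intro i
    fin_cases i
    · exact eP
    · exact eQ
    · exact eR
  · rintro ⟨x, xp, xq, xr⟩ ⟨y, yp, yq, yr⟩
    change dd D.next x y = dd D'.next (e x) (e y)
    by_cases hxy : x = y
    · subst hxy; rw [dd_self, dd_self]
    · rw [dd_ne hxy, dd_ne (e.injective.ne hxy),
        chi_nc hn h1 (show ((y, false) : D.C × Bool).1 ≠ x from Ne.symm hxy),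
        chi_nc hn h1 (show ((y, true) : D.C × Bool).1 ≠ x from Ne.symm hxy),
        chi_nc hn' h1' (show ((e y, false) : D'.C × Bool).1 ≠ e x from e.injective.ne (Ne.symm hxy)),
        chi_nc hn' h1' (show ((e y, true) : D'.C × Bool).1 ≠ e x from e.injective.ne (Ne.symm hxy)),
        hout x true xp xq xr, hout x false xp xq xr, hout y true yp yq yr, hout y false yp yq yr]
  · intro i j
    exact tri_matrix hn h1 pq pr qr D.sign w A1 B1 A2 C2 B3 C3 rfl rfl rfl rfl rfl rfl hpos
      (fun i => F (Sum.inr i)) rfl rfl rfl i j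
  · intro i j
    have := tri_matrix hn' h1' (e.injective.ne pq) (e.injective.ne pr) (e.injective.ne qr) D'.sign
      (!w) B1 A1 C2 A2 C3 B3 q1 q2 q3 q4 q5 q6 flip (fun i => e (F (Sum.inr i))) rfl rfl rfl i j
    rw [hs, hs, hs, sg_not, hpos.flip_k] at this
    exact this
  · intro x i
    exact (hrow x i).trans (hrow' x i).symm
  · intro x i
    change dd D.next (F (Sum.inr i)) x.1 = dd D'.next (e (F (Sum.inr i))) (e x.1)
    rw [dd_antisymm h1, dd_antisymm h1' (e (F (Sum.inr i))), hrow, hrow']

theorem inv8_move (D D' : KnotDiagram) (h : Move D D') : inv8 D = inv8 D' := by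
  cases h with
  | relabel h => exact inv8_relabel _ _ h
  | r1 p b h1 h => exact inv8_r1 _ _ p b h1 h
  | r2 p q b hpq hsg h1 h2 h => exact inv8_r2 _ _ p q b hpq hsg h1 h2 h
  | r3 p q r e ht hs hx =>
    obtain ⟨w, hw⟩ := ht.order
    exact inv8_r3 _ _ p q r w e hw hs hx

/-! ### Finite type, mirror images and the trefoil -/

/-- the invariant of degree two -/
noncomputable def v2 (D : KnotDiagram) : ℝ := (inv8 D : ℝ) / 8

theorem v2_move (D D' : KnotDiagram) (h : Move D D') : v2 D = v2 D' := by
  unfold v2; rw [inv8_move D D' h]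

theorem v2_empty (D : KnotDiagram) (h : IsEmpty D.C) : v2 D = 0 := by
  unfold v2; rw [inv8_empty D h]; simp

theorem v2_mirror (D : KnotDiagram) : v2 D.mirror = v2 D := by
  have h2 : inv8 D.mirror = inv8 D := by
    rcases isEmpty_or_nonempty D.C with he | ⟨⟨c0⟩⟩
    · rw [inv8_empty D he, inv8_empty D.mirror he]
    · rw [inv8_eq D (c0, true), inv8_eq D.mirror (c0, true)]
      change ∑ a : D.C, ∑ b : D.C, dd D.next a b ^ 2 *
        (sg (!D.sign a) * sg (!D.sign b) - epx D.next (c0, true) a * epx D.next (c0, true) b) = _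
      unfold inv8x
      refine Finset.sum_congr rfl fun a _ => Finset.sum_congr rfl fun b _ => ?_
      simp only [sg_not]
      ring
  unfold v2
  rw [h2]

theorem exists_avoid2 {α : Type} (A : Finset α) (hA : A.card = 3) (a b : α) :
    ∃ x ∈ A, x ≠ a ∧ x ≠ b := by
  by_contra hcon
  push Not at hcon
  have hsub : A ⊆ {a, b} := by
    intro x hx
    simp only [Finset.mem_insert, Finset.mem_singleton]
    by_cases h1 : x = a
    · exact Or.inl h1
    · exact Or.inr (hcon x hx h1)
  have h1 := Finset.card_le_card hsub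
  have h2 : ({a, b} : Finset α).card ≤ 2 := Finset.card_le_two
  omega

theorem v2_degree (D : KnotDiagram) (A : Finset D.C) (hA : A.card = 3) :
    singularValue v2 D A = 0 := by
  have hne : Nonempty D.C := by
    obtain ⟨x, hx⟩ := Finset.card_pos.1 (by omega : 0 < A.card)
    exact ⟨x⟩
  obtain ⟨c0⟩ := hne
  have hval : ∀ T : Finset D.C, v2 (D.resolve A T) = ∑ a : D.C, ∑ b : D.C,
      (((dd D.next a b ^ 2 * (sg (if a ∈ A then decide (a ∉ T) else D.sign a) *
        sg (if b ∈ A then decide (b ∉ T) else D.sign b) -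
        epx D.next (c0, true) a * epx D.next (c0, true) b) : ℤ) : ℝ) / 8) := by
    intro T
    have h1 : inv8 (D.resolve A T) = ∑ a : D.C, ∑ b : D.C,
      (dd D.next a b ^ 2 * (sg (if a ∈ A then decide (a ∉ T) else D.sign a) *
        sg (if b ∈ A then decide (b ∉ T) else D.sign b) -
        epx D.next (c0, true) a * epx D.next (c0, true) b)) :=
      inv8_eq (D.resolve A T) (c0, true)
    unfold v2
    rw [h1]
    push_cast
    simp only [Finset.sum_div]
  unfold singularValue
  simp only [hval]
  simp only [Finset.mul_sum]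
  rw [Finset.sum_comm]
  refine Finset.sum_eq_zero fun a _ => ?_
  rw [Finset.sum_comm]
  refine Finset.sum_eq_zero fun b _ => ?_
  obtain ⟨x, hxA, xa, xb⟩ := exists_avoid2 A hA a b
  refine alt_zero A _ x hxA ?_
  intro T hT
  have key : ∀ y : D.C, x ≠ y → (sg (if y ∈ A then decide (y ∉ insert x T) else D.sign y)) =
      sg (if y ∈ A then decide (y ∉ T) else D.sign y) := by
    intro y hy
    congr 2
    simp [hy.symm]
  beta_reduce
  rw [key a xa, key b xb]

theorem v2_trefoil : v2 rightTrefoil = 1 := by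
  have e : ∀ a : Fin 3, epx trefNext ((0 : Fin 3), true) a = ![1, -1, 1] a := by
    intro a
    have h1 := epx_num tref_num tref_one ((0 : Fin 3), true) a
    rw [h1]
    change epk _ _ 0 a = _
    rw [epk_zero]
    fin_cases a <;> simp [eps, trefPos]
  have e0 : epx trefNext ((0 : Fin 3), true) 0 = 1 := e 0
  have e1 : epx trefNext ((0 : Fin 3), true) 1 = -1 := e 1
  have e2 : epx trefNext ((0 : Fin 3), true) 2 = 1 := e 2
  have h1 : inv8 rightTrefoil = ∑ a : Fin 3, ∑ b : Fin 3,
      (dd trefNext a b ^ 2 * (sg true * sg true -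
        epx trefNext ((0 : Fin 3), true) a * epx trefNext ((0 : Fin 3), true) b)) := by
    rw [inv8_eq rightTrefoil ((0 : Fin 3), true)]
    unfold inv8x
    refine @Fintype.sum_equiv rightTrefoil.C (Fin 3) ℤ _ _ _ (Equiv.refl (Fin 3)) _ _
      (fun a => ?_)
    exact @Fintype.sum_equiv rightTrefoil.C (Fin 3) ℤ _ _ _ (Equiv.refl (Fin 3)) _ _
      (fun b => rfl)
  have h2 : inv8 rightTrefoil = 8 := by
    rw [h1]
    simp only [Fin.sum_univ_three, dd_self, tref_dd 0 1 (by decide), tref_dd 0 2 (by decide),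
      tref_dd 1 0 (by decide), tref_dd 1 2 (by decide), tref_dd 2 0 (by decide),
      tref_dd 2 1 (by decide), e0, e1, e2, sg, if_true]
    norm_num
  unfold v2
  rw [h2]
  norm_num

/-- the distance of eight times the invariant from the quadratic sum -/
theorem inv8_near (D : KnotDiagram) :
    |(inv8 D : ℝ) - ∑ a : D.C, ∑ b : D.C, ((dd D.next a b ^ 2 * (sg (D.sign a) * sg (D.sign b)) : ℤ) : ℝ)| ≤
      2 * ((Nat.card D.C : ℝ) * √(Nat.card D.C : ℝ)) := by
  rcases isEmpty_or_nonempty D.C with he | ⟨⟨c0⟩⟩
  · rw [inv8_empty D he]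
    simp
  · have hne : Nonempty D.C := ⟨c0⟩
    obtain ⟨N, pos, hn, -⟩ := exists_num D.one_component (c0, true)
    have h1 := Bq_bound _ _ _ (univ : Finset D.C) rfl
      (flat_num hn D.one_component (D.planar ⟨c0⟩))
    rw [Finset.card_univ, ← Nat.card_eq_fintype_card] at h1
    rw [inv8_eq D (c0, true), inv8x_num D hn]
    refine le_trans (le_of_eq ?_) h1
    rw [← abs_neg]
    congr 1
    push_cast
    ring

/-- the distance of forty-eight times the cubic invariant from the cubic sum -/
theorem inv48_near (D : KnotDiagram) :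
    |(inv48 D : ℝ) - ∑ a : D.C, ∑ b : D.C, ∑ c : D.C,
      ((2 * fT (dd D.next) (fun c => sg (D.sign c)) a b c +
        3 * ((1 - dd D.next b c ^ 2) * sg (D.sign a) *
          (dd D.next a b ^ 2 * dd D.next a c ^ 2 * (sg (D.sign b) * sg (D.sign c)))) : ℤ) : ℝ)| ≤
      18 * ((Nat.card D.C : ℝ) ^ 2 * √(Nat.card D.C : ℝ)) := by
  rcases isEmpty_or_nonempty D.C with he | ⟨⟨c0⟩⟩
  · unfold inv48 Pool.Agent.Results.MP_6e410e_gt.Willerton.val
    simp
  · have hne : Nonempty D.C := ⟨c0⟩
    obtain ⟨N, pos, hn, -⟩ := exists_num D.one_component (c0, true)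
    have hflat := flat_num hn D.one_component (D.planar ⟨c0⟩)
    have e : (inv48 D : ℤ) = ∑ a : D.C, ∑ b : D.C, ∑ c : D.C,
      (2 * fT (dd D.next) (fun c => sg (D.sign c)) a b c +
        3 * ((1 - dd D.next b c ^ 2) * sg (D.sign a) *
          (dd D.next a b ^ 2 * dd D.next a c ^ 2 * (sg (D.sign b) * sg (D.sign c))))) -
      3 * ∑ m : D.C, sg (D.sign m) *
        Sq (fun c => pos (c, true)) (fun c => pos (c, false)) (univ : Finset D.C) m := by
      have e1 : ∀ m : D.C, sg (D.sign m) *
          Sq (fun c => pos (c, true)) (fun c => pos (c, false)) (univ : Finset D.C) m =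
          ∑ b : D.C, ∑ c : D.C, - ((1 - dd D.next b c ^ 2) * sg (D.sign m) *
            (dd D.next m b * dd D.next m c)) := by
        intro m
        have hrow := index_rel D.one_component (D.planar ⟨c0⟩) m
        have z : ∑ b : D.C, ∑ c : D.C, sg (D.sign m) * (dd D.next m b * dd D.next m c) = 0 := by
          simp only [← Finset.mul_sum]
          rw [hrow]
          simp
        unfold Sq
        rw [Finset.mul_sum]
        simp only [Finset.mul_sum]
        rw [← sub_zero (∑ b : D.C, _), ← z, ← Finset.sum_sub_distrib]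
        refine Finset.sum_congr rfl fun b _ => ?_
        rw [← Finset.sum_sub_distrib]
        refine Finset.sum_congr rfl fun c _ => ?_
        rw [dc_num hn D.one_component, dc_num hn D.one_component, dc_num hn D.one_component]
        ring
      simp only [e1, Finset.mul_sum]
      unfold inv48 Pool.Agent.Results.MP_6e410e_gt.Willerton.val
      rw [← Finset.sum_sub_distrib]
      refine Finset.sum_congr rfl fun a _ => ?_
      rw [← Finset.sum_sub_distrib]
      refine Finset.sum_congr rfl fun b _ => ?_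
      rw [← Finset.sum_sub_distrib]
      refine Finset.sum_congr rfl fun c _ => ?_
      unfold fQ
      ring
    rw [e]
    push_cast
    rw [sub_sub_cancel_left, abs_neg]
    have hS : ∀ m : D.C, |((sg (D.sign m) : ℤ) : ℝ) *
        ((Sq (fun c => pos (c, true)) (fun c => pos (c, false)) (univ : Finset D.C) m : ℤ) : ℝ)| ≤
        6 * ((Nat.card D.C : ℝ) * √(Nat.card D.C : ℝ)) := by
      intro m
      have h1 := Sq_bound hflat (Finset.mem_univ m)
      rw [Finset.card_univ, ← Nat.card_eq_fintype_card] at h1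
      rw [abs_mul]
      have : |((sg (D.sign m) : ℤ) : ℝ)| = 1 := by
        cases D.sign m <;> simp [sg]
      rw [this, one_mul]
      exact h1
    rw [abs_mul, abs_of_pos (by norm_num : (0 : ℝ) < 3)]
    have h2 : |∑ m : D.C, ((sg (D.sign m) : ℤ) : ℝ) *
        ((Sq (fun c => pos (c, true)) (fun c => pos (c, false)) (univ : Finset D.C) m : ℤ) : ℝ)| ≤
        ∑ m : D.C, 6 * ((Nat.card D.C : ℝ) * √(Nat.card D.C : ℝ)) :=
      (Finset.abs_sum_le_sum_abs _ _).trans (Finset.sum_le_sum fun m _ => hS m)
    rw [Finset.sum_const, Finset.card_univ, ← Nat.card_eq_fintype_card, nsmul_eq_mul] at h2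
    refine (mul_le_mul_of_nonneg_left h2 (by norm_num)).trans (le_of_eq ?_)
    ring

end Pool.Agent.H86.VR.V2
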