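import Pool.Agent.H86.VR.Graph
import Pool.Agent.H86.VR.V2

namespace Pool.Agent.H86.VR.Link

open Finset Pool.Agent.Results.MP_6e410e_gt.Willerton
open Pool.Agent.H86.VR.Graph Pool.Agent.H86.VR.V2
open scoped Classical

/-- the complement of the crossing graph of the chords -/
noncomputable def JJ (D : KnotDiagram) (a b : D.C) : ℝ := 1 - (dd D.next a b : ℝ) ^ 2

/-- the signs as real numbers -/
noncomputable def ee (D : KnotDiagram) (a : D.C) : ℝ := (sg (D.sign a) : ℝ)

theorem ee_pm (D : KnotDiagram) (a : D.C) : ee D a = 1 ∨ ee D a = -1 := by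
  unfold ee
  cases D.sign a
  · right; simp [sg]
  · left; simp [sg]

theorem JJ_symm (D : KnotDiagram) (a b : D.C) : JJ D a b = JJ D b a := by
  unfold JJ
  rw [dd_antisymm D.one_component a b]
  push_cast
  ring

theorem JJ_zo (D : KnotDiagram) (a : D.C) : zo (JJ D a) := by
  intro b
  unfold JJ
  rcases dd_cases (next := D.next) a b with h | h | h <;> rw [h] <;> norm_num

section algebra

variable {V : Type} [Fintype V]

theorem s1_sq (e : V → ℝ) : (s1 e) ^ 2 = ∑ a, ∑ b, e a * e b := by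
  unfold s1
  rw [pow_two, Finset.sum_mul_sum]

theorem s1_cube (e : V → ℝ) : (s1 e) ^ 3 = ∑ a, ∑ b, ∑ c, e a * e b * e c := by
  have : (s1 e) ^ 3 = s1 e * (s1 e) ^ 2 := by ring
  rw [this, s1_sq]
  unfold s1
  rw [Finset.sum_mul]
  refine Finset.sum_congr rfl fun a _ => ?_
  rw [Finset.mul_sum]
  refine Finset.sum_congr rfl fun b _ => ?_
  rw [Finset.mul_sum]
  refine Finset.sum_congr rfl fun c _ => ?_
  ring

theorem s1_s2 (J : V → V → ℝ) (e : V → ℝ) :
    s1 e * s2 J e e = ∑ a, ∑ b, ∑ c, e a * e b * e c * J b c := by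
  unfold s1 s2
  rw [Finset.sum_mul]
  refine Finset.sum_congr rfl fun a _ => ?_
  rw [Finset.mul_sum]
  refine Finset.sum_congr rfl fun b _ => ?_
  rw [Finset.mul_sum]
  refine Finset.sum_congr rfl fun c _ => ?_
  ring

theorem rot1 (g : V → V → V → ℝ) : ∑ a, ∑ b, ∑ c, g b c a = ∑ a, ∑ b, ∑ c, g a b c := by
  rw [Finset.sum_comm]
  exact Finset.sum_congr rfl fun b _ => Finset.sum_comm

theorem rot2 (g : V → V → V → ℝ) : ∑ a, ∑ b, ∑ c, g c a b = ∑ a, ∑ b, ∑ c, g a b c := by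
  have : ∑ a, ∑ b, ∑ c, g c a b = ∑ a, ∑ c, ∑ b, g c a b :=
    Finset.sum_congr rfl fun a _ => Finset.sum_comm
  rw [this, Finset.sum_comm]

/-- The cubic sum in two forms (`K = 1 - J`). -/
theorem cubic_forms (J : V → V → ℝ) (hs : ∀ a b, J a b = J b a) (e : V → ℝ) :
    ∑ a, ∑ b, ∑ c, (2 * ((1 - J a b) * (1 - J b c) * (1 - J c a) * (e a * e b * e c)) +
      3 * (J b c * e a * ((1 - J a b) * (1 - J a c) * (e b * e c)))) =
    2 * (s1 e) ^ 3 - 3 * s1 e * s2 J e e + s3 J e e e := by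
  have h1 : 2 * (s1 e) ^ 3 - 3 * s1 e * s2 J e e + s3 J e e e =
      ∑ a, ∑ b, ∑ c, (2 * (e a * e b * e c) - 3 * (e a * e b * e c * J b c) +
        e a * e b * e c * (J a b * J b c * J c a)) := by
    have e1 : 3 * s1 e * s2 J e e = 3 * (s1 e * s2 J e e) := by ring
    rw [e1, s1_cube, s1_s2]
    unfold s3
    simp only [Finset.mul_sum, ← Finset.sum_sub_distrib, ← Finset.sum_add_distrib]
  rw [h1]
  rw [← sub_eq_zero]
  simp only [← Finset.sum_sub_distrib]
  have e2 : ∀ a b c : V, (2 * ((1 - J a b) * (1 - J b c) * (1 - J c a) * (e a * e b * e c)) +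
      3 * (J b c * e a * ((1 - J a b) * (1 - J a c) * (e b * e c)))) -
      (2 * (e a * e b * e c) - 3 * (e a * e b * e c * J b c) +
        e a * e b * e c * (J a b * J b c * J c a)) =
      4 * (e a * e b * e c * J b c) - 2 * (e b * e c * e a * J c a) - 2 * (e c * e a * e b * J a b)
      + (2 * (e a * e b * e c * (J a b * J c a)) - (e b * e c * e a * (J b c * J a b))
        - (e c * e a * e b * (J c a * J b c))) := by
    intro a b c
    rw [hs a c]; ring
  simp only [e2, Finset.sum_add_distrib, Finset.sum_sub_distrib, ← Finset.mul_sum]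
  have e3 : ∑ a, ∑ b, ∑ c, e b * e c * e a * (J b c * J a b) =
      ∑ a, ∑ b, ∑ c, e a * e b * e c * (J a b * J c a) :=
    rot1 (fun a b c => e a * e b * e c * (J a b * J c a))
  have e4 : ∑ a, ∑ b, ∑ c, e c * e a * e b * (J c a * J b c) =
      ∑ a, ∑ b, ∑ c, e a * e b * e c * (J a b * J c a) :=
    rot2 (fun a b c => e a * e b * e c * (J a b * J c a))
  have e5 : ∑ a, ∑ b, ∑ c, e b * e c * e a * J c a = ∑ a, ∑ b, ∑ c, e a * e b * e c * J b c :=
    rot1 (fun a b c => e a * e b * e c * J b c)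
  have e6 : ∑ a, ∑ b, ∑ c, e c * e a * e b * J a b = ∑ a, ∑ b, ∑ c, e a * e b * e c * J b c :=
    rot2 (fun a b c => e a * e b * e c * J b c)
  rw [e3, e4, e5, e6]
  ring

end algebra

/-- eight times `v2` is near to the quadratic sum -/
theorem v2_near (D : KnotDiagram) :
    |8 * v2 D - ((s1 (ee D)) ^ 2 - s2 (JJ D) (ee D) (ee D))| ≤
      2 * ((Nat.card D.C : ℝ) * √(Nat.card D.C : ℝ)) := by
  have h := inv8_near D
  have e1 : (s1 (ee D)) ^ 2 - s2 (JJ D) (ee D) (ee D) =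
      ∑ a : D.C, ∑ b : D.C, ((dd D.next a b ^ 2 * (sg (D.sign a) * sg (D.sign b)) : ℤ) : ℝ) := by
    rw [s1_sq]
    unfold s2
    rw [← Finset.sum_sub_distrib]
    refine Finset.sum_congr rfl fun a _ => ?_
    rw [← Finset.sum_sub_distrib]
    refine Finset.sum_congr rfl fun b _ => ?_
    unfold JJ ee
    push_cast
    ring
  rw [e1]
  unfold v2
  rw [mul_div_cancel₀ _ (by norm_num : (8 : ℝ) ≠ 0)]
  exact h

/-- forty-eight times `v3` is near to the cubic sum -/
theorem v3_near (D : KnotDiagram) :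
    |48 * v3 D - (2 * (s1 (ee D)) ^ 3 - 3 * s1 (ee D) * s2 (JJ D) (ee D) (ee D) +
      s3 (JJ D) (ee D) (ee D) (ee D))| ≤
      18 * ((Nat.card D.C : ℝ) ^ 2 * √(Nat.card D.C : ℝ)) := by
  have h := inv48_near D
  rw [← cubic_forms (JJ D) (JJ_symm D) (ee D)]
  have e1 : ∀ a b c : D.C, (2 * ((1 - JJ D a b) * (1 - JJ D b c) * (1 - JJ D c a) *
      (ee D a * ee D b * ee D c)) +
      3 * (JJ D b c * ee D a * ((1 - JJ D a b) * (1 - JJ D a c) * (ee D b * ee D c)))) =
      ((2 * fT (dd D.next) (fun c => sg (D.sign c)) a b c +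
        3 * ((1 - dd D.next b c ^ 2) * sg (D.sign a) *
          (dd D.next a b ^ 2 * dd D.next a c ^ 2 * (sg (D.sign b) * sg (D.sign c)))) : ℤ) : ℝ) := by
    intro a b c
    unfold JJ ee fT
    push_cast
    ring
  simp only [e1]
  unfold v3
  rw [mul_div_cancel₀ _ (by norm_num : (48 : ℝ) ≠ 0)]
  exact h

end Pool.Agent.H86.VR.Link
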