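import Pool.Agent.H86.VR.Fam
import Pool.Agent.H86.VR.Link

namespace Pool.Agent.H86.VR.FamVal

open Finset Pool.Agent.Results.MP_6e410e_gt.Willerton
open Pool.Agent.H86.VR.Graph Pool.Agent.H86.VR.V2 Pool.Agent.H86.VR.Link Pool.Agent.H86.VR.Fam
open Pool.Agent.H86.VR.Fl (ch dc)
open scoped Classical

section close

variable {V : Type} [Fintype V] {J K : V → V → ℝ} {e : V → ℝ}

theorem s2_close (he : ∀ a, e a = 1 ∨ e a = -1) (hJ : ∀ a b, |J a b| ≤ 1) (hK : ∀ a b, |K a b| ≤ 1)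
    (h : ∀ a b, a ≠ b → J a b = K a b) :
    |s2 J e e - s2 K e e| ≤ 2 * (Fintype.card V : ℝ) := by
  unfold s2
  rw [← Finset.sum_sub_distrib]
  have h1 : ∀ a : V, |(∑ b, e a * e b * J a b) - ∑ b, e a * e b * K a b| ≤ 2 := by
    intro a
    rw [← Finset.sum_sub_distrib]
    have h2 : ∀ b : V, e a * e b * J a b - e a * e b * K a b =
        if a = b then e a * e b * J a b - e a * e b * K a b else 0 := by
      intro b
      split_ifs with hab
      · rfl
      · rw [h a b hab, sub_self]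
    rw [Finset.sum_congr rfl fun b _ => h2 b, Finset.sum_ite_eq, if_pos (Finset.mem_univ _)]
    have h3 : e a * e a = 1 := by rcases he a with h | h <;> rw [h] <;> norm_num
    rw [h3, one_mul, one_mul]
    have := hJ a a
    have := hK a a
    rw [abs_le] at *
    constructor <;> linarith [this.1, this.2, (abs_le.1 (hJ a a)).1, (abs_le.1 (hJ a a)).2]
  refine (Finset.abs_sum_le_sum_abs _ _).trans ((Finset.sum_le_sum fun a _ => h1 a).trans ?_)
  rw [Finset.sum_const, Finset.card_univ, nsmul_eq_mul]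
  linarith

theorem s3_close (he : ∀ a, e a = 1 ∨ e a = -1) (hJ : ∀ a b, |J a b| ≤ 1) (hK : ∀ a b, |K a b| ≤ 1)
    (h : ∀ a b, a ≠ b → J a b = K a b) :
    |s3 J e e e - s3 K e e e| ≤ 6 * (Fintype.card V : ℝ) ^ 2 := by
  unfold s3
  have key : ∀ a b c : V, |e a * e b * e c * (J a b * J b c * J c a) -
      e a * e b * e c * (K a b * K b c * K c a)| ≤
      2 * ((if a = b then 1 else 0) + (if b = c then 1 else 0) + (if c = a then 1 else 0)) := by
    intro a b c
    by_cases hd : a ≠ b ∧ b ≠ c ∧ c ≠ a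
    · obtain ⟨h1, h2, h3⟩ := hd
      rw [h a b h1, h b c h2, h c a h3, sub_self, abs_zero]
      simp [h1, h2, h3]
    · have h1 : (1 : ℝ) ≤ (if a = b then 1 else 0) + (if b = c then 1 else 0) +
          (if c = a then 1 else 0) := by
        by_cases x : a = b
        · rw [if_pos x]
          have : (0 : ℝ) ≤ (if b = c then 1 else 0) + (if c = a then 1 else 0) := by
            split_ifs <;> norm_num
          linarith
        · by_cases y : b = c
          · rw [if_pos y]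
            have : (0 : ℝ) ≤ (if a = b then 1 else 0) + (if c = a then 1 else 0) := by
              split_ifs <;> norm_num
            linarith
          · have z : c = a := by
              by_contra z
              exact hd ⟨x, y, z⟩
            rw [if_pos z]
            have : (0 : ℝ) ≤ (if a = b then 1 else 0) + (if b = c then 1 else 0) := by
              split_ifs <;> norm_num
            linarith
      have h2 : |e a * e b * e c| = 1 := by
        rcases he a with x | x <;> rcases he b with y | y <;> rcases he c with z | z <;>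
          rw [x, y, z] <;> norm_num
      have h3 : ∀ M : V → V → ℝ, (∀ a b, |M a b| ≤ 1) → |M a b * M b c * M c a| ≤ 1 := by
        intro M hM
        rw [abs_mul, abs_mul]
        have := mul_le_mul (mul_le_mul (hM a b) (hM b c) (abs_nonneg _) zero_le_one) (hM c a)
          (abs_nonneg _) (by norm_num)
        linarith
      rw [← mul_sub, abs_mul, h2, one_mul]
      have h4 := h3 J hJ
      have h5 := h3 K hK
      have h6 := abs_sub (J a b * J b c * J c a) (K a b * K b c * K c a)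
      linarith
  rw [← Finset.sum_sub_distrib]
  refine (Finset.abs_sum_le_sum_abs _ _).trans ?_
  have hbound : ∀ a : V, |(∑ b, ∑ c, e a * e b * e c * (J a b * J b c * J c a)) -
      ∑ b, ∑ c, e a * e b * e c * (K a b * K b c * K c a)| ≤
      ∑ b : V, ∑ c : V, 2 * ((if a = b then (1 : ℝ) else 0) + (if b = c then 1 else 0) +
        (if c = a then 1 else 0)) := by
    intro a
    rw [← Finset.sum_sub_distrib]
    refine (Finset.abs_sum_le_sum_abs _ _).trans (Finset.sum_le_sum fun b _ => ?_)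
    rw [← Finset.sum_sub_distrib]
    refine (Finset.abs_sum_le_sum_abs _ _).trans (Finset.sum_le_sum fun c _ => ?_)
    exact key a b c
  refine (Finset.sum_le_sum fun a _ => hbound a).trans (le_of_eq ?_)
  simp only [← Finset.mul_sum, Finset.sum_add_distrib, Finset.sum_const, Finset.card_univ,
    nsmul_eq_mul, Finset.sum_ite_eq, Finset.sum_ite_eq', Finset.mem_univ, if_true, mul_one]
  ring

end close

section kernel

variable {V : Type} [Fintype V] {x y z : V → ℝ}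

/-- the limit kernel of the family -/
def KK (x y z : V → ℝ) (a b : V) : ℝ :=
  y a * y b + x a * z b + z a * x b + y a * z b + z a * y b

/-- exactly one of the three indicators is one -/
def Part3 (x y z : V → ℝ) : Prop :=
  ∀ a, (x a = 1 ∧ y a = 0 ∧ z a = 0) ∨ (x a = 0 ∧ y a = 1 ∧ z a = 0) ∨ (x a = 0 ∧ y a = 0 ∧ z a = 1)

theorem s2_KK (h : Part3 x y z) :
    s2 (KK x y z) (x + y - z) (x + y - z) =
      (s1 y) ^ 2 - 2 * s1 x * s1 z - 2 * s1 y * s1 z := by
  have e : s2 (KK x y z) (x + y - z) (x + y - z) = ∑ a, ∑ b,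
      (y a * y b - x a * z b - z a * x b - y a * z b - z a * y b) := by
    unfold s2
    refine Finset.sum_congr rfl fun a _ => Finset.sum_congr rfl fun b _ => ?_
    simp only [Pi.add_apply, Pi.sub_apply, KK]
    rcases h a with ⟨h1, h2, h3⟩ | ⟨h1, h2, h3⟩ | ⟨h1, h2, h3⟩ <;>
    rcases h b with ⟨g1, g2, g3⟩ | ⟨g1, g2, g3⟩ | ⟨g1, g2, g3⟩ <;>
    rw [h1, h2, h3, g1, g2, g3] <;> norm_num
  rw [e]
  simp only [Finset.sum_sub_distrib, ← Finset.mul_sum, ← Finset.sum_mul]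
  unfold s1
  ring

theorem s3_KK (h : Part3 x y z) :
    s3 (KK x y z) (x + y - z) (x + y - z) (x + y - z) =
      (s1 y) ^ 3 - 3 * (s1 y) ^ 2 * s1 z := by
  have e : s3 (KK x y z) (x + y - z) (x + y - z) (x + y - z) = ∑ a, ∑ b, ∑ c,
      (y a * y b * y c - y a * y b * z c - y a * z b * y c - z a * y b * y c) := by
    unfold s3
    refine Finset.sum_congr rfl fun a _ => Finset.sum_congr rfl fun b _ =>
      Finset.sum_congr rfl fun c _ => ?_
    simp only [Pi.add_apply, Pi.sub_apply, KK]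
    rcases h a with ⟨h1, h2, h3⟩ | ⟨h1, h2, h3⟩ | ⟨h1, h2, h3⟩ <;>
    rcases h b with ⟨g1, g2, g3⟩ | ⟨g1, g2, g3⟩ | ⟨g1, g2, g3⟩ <;>
    rcases h c with ⟨k1, k2, k3⟩ | ⟨k1, k2, k3⟩ | ⟨k1, k2, k3⟩ <;>
    rw [h1, h2, h3, g1, g2, g3, k1, k2, k3] <;> norm_num
  rw [e]
  simp only [Finset.sum_sub_distrib, ← Finset.mul_sum, ← Finset.sum_mul]
  unfold s1
  ring

theorem KK_abs (h : Part3 x y z) (a b : V) : |KK x y z a b| ≤ 1 := by
  unfold KK
  rcases h a with ⟨h1, h2, h3⟩ | ⟨h1, h2, h3⟩ | ⟨h1, h2, h3⟩ <;>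
  rcases h b with ⟨g1, g2, g3⟩ | ⟨g1, g2, g3⟩ | ⟨g1, g2, g3⟩ <;>
  rw [h1, h2, h3, g1, g2, g3] <;> norm_num

end kernel

section value

variable {a b c : ℕ}

/-- the block of a crossing -/
def cl (a b : ℕ) (i : ℕ) : ℕ :=
  if 2 * i < a then 0 else if 2 * i < a + b then 1 else if 2 * i < a + b + a then 0
  else if 2 * i < 2 * (a + b) then 1 else 2

noncomputable def ind (a b k : ℕ) (i : ℕ) : ℝ := if cl a b i = k then 1 else 0

theorem cl_lt (i : ℕ) : cl a b i < 3 := by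
  unfold cl; split_ifs <;> omega

/-- counting even numbers -/
theorem cnt (n u v : ℕ) (hv : v ≤ 2 * n) :
    ∑ i : Fin n, (if u ≤ 2 * i.val ∧ 2 * i.val < v then (1 : ℝ) else 0) =
      (((v + 1) / 2 - (u + 1) / 2 : ℕ) : ℝ) := by
  rw [Fin.sum_univ_eq_sum_range (fun i => if u ≤ 2 * i ∧ 2 * i < v then (1 : ℝ) else 0) n,
    ← Finset.sum_filter, Finset.sum_const, nsmul_eq_mul, mul_one]
  congr 1
  rw [← Nat.card_Ico]
  congr 1
  ext i
  simp only [Finset.mem_filter, Finset.mem_range, Finset.mem_Ico]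
  omega

variable (ha : a % 2 = 0) (ha2 : 2 ≤ a) (hb : b % 2 = 1) (hc : c % 2 = 1)
include ha ha2 hb hc

theorem sum_x : ∑ i : Fin (a + b + c), ind a b 0 i.val = a := by
  have e : ∀ i : Fin (a + b + c), ind a b 0 i.val =
      (if 0 ≤ 2 * i.val ∧ 2 * i.val < a then (1 : ℝ) else 0) +
      (if a + b ≤ 2 * i.val ∧ 2 * i.val < a + b + a then (1 : ℝ) else 0) := by
    intro i
    unfold ind cl
    split_ifs <;> first | contradiction | omega | norm_num
  rw [Finset.sum_congr rfl fun i _ => e i, Finset.sum_add_distrib, cnt _ _ _ (by omega),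
    cnt _ _ _ (by omega), ← Nat.cast_add]
  congr 1
  omega

theorem sum_y : ∑ i : Fin (a + b + c), ind a b 1 i.val = b := by
  have e : ∀ i : Fin (a + b + c), ind a b 1 i.val =
      (if a ≤ 2 * i.val ∧ 2 * i.val < a + b then (1 : ℝ) else 0) +
      (if a + b + a ≤ 2 * i.val ∧ 2 * i.val < 2 * (a + b) then (1 : ℝ) else 0) := by
    intro i
    unfold ind cl
    split_ifs <;> first | contradiction | omega | norm_num
  rw [Finset.sum_congr rfl fun i _ => e i, Finset.sum_add_distrib, cnt _ _ _ (by omega),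
    cnt _ _ _ (by omega), ← Nat.cast_add]
  congr 1
  omega

theorem sum_z : ∑ i : Fin (a + b + c), ind a b 2 i.val = c := by
  have e : ∀ i : Fin (a + b + c), ind a b 2 i.val =
      (if 2 * (a + b) ≤ 2 * i.val ∧ 2 * i.val < 2 * (a + b + c) then (1 : ℝ) else 0) := by
    intro i
    have := i.isLt
    unfold ind cl
    split_ifs <;> first | contradiction | omega | norm_num
  rw [Finset.sum_congr rfl fun i _ => e i, cnt _ _ _ (by omega)]
  congr 1
  omega

theorem cases6 (i : ℕ) (hi : i < a + b + c) :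
    (2 * i < a ∧ fpart a b c (2 * i) = 2 * i + (a + b) ∧ cl a b i = 0) ∨
    (a ≤ 2 * i ∧ 2 * i < a + b ∧ fpart a b c (2 * i) = 2 * (a + b) - 1 + a - 2 * i ∧ cl a b i = 1) ∨
    (a + b ≤ 2 * i ∧ 2 * i < a + b + a ∧ fpart a b c (2 * i) = 2 * i - (a + b) ∧ cl a b i = 0) ∨
    (a + b + a ≤ 2 * i ∧ 2 * i < 2 * (a + b) ∧ fpart a b c (2 * i) = 2 * (a + b) - 1 + a - 2 * i ∧
      cl a b i = 1) ∨
    (2 * (a + b) ≤ 2 * i ∧ 2 * i < 2 * (a + b) + c ∧ fpart a b c (2 * i) = 2 * i + c ∧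
      cl a b i = 2) ∨
    (2 * (a + b) + c ≤ 2 * i ∧ fpart a b c (2 * i) = 2 * i - c ∧ cl a b i = 2) := by
  unfold cl
  rcases fpart_cases ha ha2 hb hc (2 * i) (by omega) with ⟨h1, h⟩ | ⟨h1, h2, h⟩ | ⟨h1, h2, h⟩ |
    ⟨h1, h2, h⟩ | ⟨h1, h2, h⟩ | ⟨h1, h⟩
  · left; exact ⟨h1, h, if_pos h1⟩
  · right; left
    refine ⟨h1, h2, h, ?_⟩
    rw [if_neg (by omega), if_pos h2]
  · right; right; left
    refine ⟨h1, h2, h, ?_⟩
    rw [if_neg (by omega), if_neg (by omega), if_pos h2]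
  · right; right; right; left
    refine ⟨h1, h2, h, ?_⟩
    rw [if_neg (by omega), if_neg (by omega), if_neg (by omega), if_pos h2]
  · right; right; right; right; left
    refine ⟨h1, h2, h, ?_⟩
    rw [if_neg (by omega), if_neg (by omega), if_neg (by omega), if_neg (by omega)]
  · right; right; right; right; right
    refine ⟨h1, h, ?_⟩
    rw [if_neg (by omega), if_neg (by omega), if_neg (by omega), if_neg (by omega)]

/-- which crossings are interlaced -/
theorem fam_cross (i j : ℕ) (hi : i < a + b + c) (hj : j < a + b + c) (hij : i ≠ j) :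
    (dc (fun k : ℕ => 2 * k) (fun k : ℕ => fpart a b c (2 * k)) i j = 0 ∧
      ¬ ((cl a b i = 0 ∧ cl a b j ≤ 1) ∨ (cl a b i = 1 ∧ cl a b j = 0) ∨
        (cl a b i = 2 ∧ cl a b j = 2))) ∨
    ((dc (fun k : ℕ => 2 * k) (fun k : ℕ => fpart a b c (2 * k)) i j = 1 ∨
      dc (fun k : ℕ => 2 * k) (fun k : ℕ => fpart a b c (2 * k)) i j = -1) ∧
      ((cl a b i = 0 ∧ cl a b j ≤ 1) ∨ (cl a b i = 1 ∧ cl a b j = 0) ∨
        (cl a b i = 2 ∧ cl a b j = 2))) := by
  unfold dc ch nc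
  simp only
  rcases cases6 ha ha2 hb hc i hi with ⟨h1, h, hk⟩ | ⟨h1, h2, h, hk⟩ | ⟨h1, h2, h, hk⟩ |
    ⟨h1, h2, h, hk⟩ | ⟨h1, h2, h, hk⟩ | ⟨h1, h, hk⟩ <;>
  rcases cases6 ha ha2 hb hc j hj with ⟨g1, g, gk⟩ | ⟨g1, g2, g, gk⟩ | ⟨g1, g2, g, gk⟩ |
    ⟨g1, g2, g, gk⟩ | ⟨g1, g2, g, gk⟩ | ⟨g1, g, gk⟩ <;>
  · simp only [h, g, hk, gk]
    split_ifs <;> first | (exfalso; omega) | norm_num

end value

section diagrams

variable {a b c : ℕ} (ha : a % 2 = 0) (ha2 : 2 ≤ a) (hb : b % 2 = 1) (hc : c % 2 = 1)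

/-- the diagram with the word `X Y X Y' Z Z` and negative crossings in the block `Z` -/
def fdiag : KnotDiagram := (fcode ha ha2 hb hc).diagram (fun i => decide (i.val < a + b))

theorem fdiag_card : Nat.card (fdiag ha ha2 hb hc).C = a + b + c := by
  change Nat.card (Fin (a + b + c)) = _
  simp

theorem ind_part3 : Part3 (fun i : Fin (a + b + c) => ind a b 0 i.val)
    (fun i : Fin (a + b + c) => ind a b 1 i.val) (fun i : Fin (a + b + c) => ind a b 2 i.val) := by
  intro i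
  have := cl_lt (a := a) (b := b) i.val
  unfold ind
  simp only
  have h3 : cl a b i.val = 0 ∨ cl a b i.val = 1 ∨ cl a b i.val = 2 := by omega
  rcases h3 with h | h | h <;> rw [h] <;> norm_num

theorem fdiag_ee (i : Fin (a + b + c)) : ee (fdiag ha ha2 hb hc) i =
    ((fun i : Fin (a + b + c) => ind a b 0 i.val) + (fun i : Fin (a + b + c) => ind a b 1 i.val) -
      (fun i : Fin (a + b + c) => ind a b 2 i.val)) i := by
  change ((sg (decide (i.val < a + b)) : ℤ) : ℝ) = _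
  simp only [Pi.add_apply, Pi.sub_apply]
  unfold ind cl sg
  by_cases h : i.val < a + b
  · simp only [h, decide_true, if_true]
    split_ifs <;> first | contradiction | omega | norm_num
  · simp only [h, decide_false]
    split_ifs <;> first | contradiction | omega | norm_num

theorem fdiag_JJ (i j : Fin (a + b + c)) (hij : i ≠ j) : JJ (fdiag ha ha2 hb hc) i j =
    KK (fun i : Fin (a + b + c) => ind a b 0 i.val) (fun i : Fin (a + b + c) => ind a b 1 i.val)
      (fun i : Fin (a + b + c) => ind a b 2 i.val) i j := by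
  have hn := (fcode ha ha2 hb hc).num
  have h1 := (fcode ha ha2 hb hc).one
  have hdc := dc_num hn h1 i j
  have e : dc (fun c_1 => (fcode ha ha2 hb hc).place (c_1, true))
      (fun c_1 => (fcode ha ha2 hb hc).place (c_1, false)) i j =
      dc (fun k : ℕ => 2 * k) (fun k : ℕ => fpart a b c (2 * k)) i.val j.val := by
    unfold dc ch
    simp [Code.place, fcode]
  rw [e] at hdc
  have hij' : i.val ≠ j.val := fun h => hij (Fin.ext h)
  have hcr := fam_cross ha ha2 hb hc i.val j.val i.isLt j.isLt hij'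
  rw [hdc] at hcr
  change 1 - ((dd (fcode ha ha2 hb hc).next i j : ℤ) : ℝ) ^ 2 = _
  have hi := cl_lt (a := a) (b := b) i.val
  have hj := cl_lt (a := a) (b := b) j.val
  have hi3 : cl a b i.val = 0 ∨ cl a b i.val = 1 ∨ cl a b i.val = 2 := by omega
  have hj3 : cl a b j.val = 0 ∨ cl a b j.val = 1 ∨ cl a b j.val = 2 := by omega
  unfold KK ind
  simp only
  rcases hi3 with x | x | x <;> rcases hj3 with y | y | y <;> rw [x, y] at hcr ⊢ <;>
  rcases hcr with ⟨h, h'⟩ | ⟨h | h, h'⟩ <;> first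
    | (exfalso; omega)
    | (rw [h]; norm_num)

theorem sg_abs_le (D : KnotDiagram) (a b : D.C) : |JJ D a b| ≤ 1 := by
  obtain ⟨h1, h2⟩ := JJ_zo D a b
  rw [abs_le]; constructor <;> linarith

theorem fdiag_s1 (g : Fin (a + b + c) → ℝ) :
    s1 (V := (fdiag ha ha2 hb hc).C) g = ∑ i : Fin (a + b + c), g i :=
  @Fintype.sum_equiv (fdiag ha ha2 hb hc).C (Fin (a + b + c)) ℝ _ _ _ (Equiv.refl _) _ _
    (fun _ => rfl)

/-- the data of the family -/
theorem fdiag_data : ∃ x y z : (fdiag ha ha2 hb hc).C → ℝ, Part3 x y z ∧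
    s1 x = a ∧ s1 y = b ∧ s1 z = c ∧ ee (fdiag ha ha2 hb hc) = x + y - z ∧
    ∀ i j, i ≠ j → JJ (fdiag ha ha2 hb hc) i j = KK x y z i j :=
  ⟨fun i : Fin (a + b + c) => ind a b 0 i.val, fun i : Fin (a + b + c) => ind a b 1 i.val,
    fun i : Fin (a + b + c) => ind a b 2 i.val, ind_part3,
    (fdiag_s1 ha ha2 hb hc _).trans (sum_x ha ha2 hb hc),
    (fdiag_s1 ha ha2 hb hc _).trans (sum_y ha ha2 hb hc),
    (fdiag_s1 ha ha2 hb hc _).trans (sum_z ha ha2 hb hc),
    funext fun i => fdiag_ee ha ha2 hb hc i, fun i j hij => fdiag_JJ ha ha2 hb hc i j hij⟩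

/-- the value of the invariant of degree two on the family -/
theorem fdiag_v2 : |8 * v2 (fdiag ha ha2 hb hc) - (((a : ℝ) + b) ^ 2 - b ^ 2 + c ^ 2)| ≤
    4 * (((a + b + c : ℕ) : ℝ) * √((a + b + c : ℕ) : ℝ)) := by
  have h1 := v2_near (fdiag ha ha2 hb hc)
  obtain ⟨x, y, z, hp, hx, hy, hz, he, hJ⟩ := fdiag_data ha ha2 hb hc
  have hcl := s2_close (J := JJ (fdiag ha ha2 hb hc)) (K := KK x y z)
    (e := ee (fdiag ha ha2 hb hc)) (ee_pm _) (sg_abs_le _) (KK_abs hp) hJ
  have hs1 : s1 (ee (fdiag ha ha2 hb hc)) = a + b - c := by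
    rw [he]
    have : s1 (x + y - z) = s1 x + s1 y - s1 z := by
      simp [s1, Finset.sum_add_distrib, Finset.sum_sub_distrib]
    rw [this, hx, hy, hz]
  have hK : s2 (KK x y z) (ee (fdiag ha ha2 hb hc)) (ee (fdiag ha ha2 hb hc)) =
      (b : ℝ) ^ 2 - 2 * a * c - 2 * b * c := by
    rw [he, s2_KK hp, hx, hy, hz]
  rw [hK, ← Nat.card_eq_fintype_card, fdiag_card] at hcl
  rw [hs1, fdiag_card] at h1
  have hn : (1 : ℝ) ≤ ((a + b + c : ℕ) : ℝ) := by
    have : 1 ≤ a + b + c := by omega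
    exact_mod_cast this
  have hsq : 1 ≤ √((a + b + c : ℕ) : ℝ) := Real.one_le_sqrt.2 hn
  have hnn : ((a + b + c : ℕ) : ℝ) ≤ ((a + b + c : ℕ) : ℝ) * √((a + b + c : ℕ) : ℝ) :=
    le_mul_of_one_le_right (by linarith) hsq
  rw [abs_le] at *
  constructor <;> nlinarith [h1.1, h1.2, hcl.1, hcl.2]

/-- the value of the invariant of degree three on the family -/
theorem fdiag_v3 : |48 * v3 (fdiag ha ha2 hb hc) -
      (2 * ((a : ℝ) + b) ^ 3 - 3 * ((a : ℝ) + b) * b ^ 2 + b ^ 3 - 2 * c ^ 3)| ≤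
    30 * (((a + b + c : ℕ) : ℝ) ^ 2 * √((a + b + c : ℕ) : ℝ)) := by
  have h1 := v3_near (fdiag ha ha2 hb hc)
  obtain ⟨x, y, z, hp, hx, hy, hz, he, hJ⟩ := fdiag_data ha ha2 hb hc
  have hcl := s2_close (J := JJ (fdiag ha ha2 hb hc)) (K := KK x y z)
    (e := ee (fdiag ha ha2 hb hc)) (ee_pm _) (sg_abs_le _) (KK_abs hp) hJ
  have hc3 := s3_close (J := JJ (fdiag ha ha2 hb hc)) (K := KK x y z)
    (e := ee (fdiag ha ha2 hb hc)) (ee_pm _) (sg_abs_le _) (KK_abs hp) hJ
  have hs1 : s1 (ee (fdiag ha ha2 hb hc)) = a + b - c := by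
    rw [he]
    have : s1 (x + y - z) = s1 x + s1 y - s1 z := by
      simp [s1, Finset.sum_add_distrib, Finset.sum_sub_distrib]
    rw [this, hx, hy, hz]
  have hK : s2 (KK x y z) (ee (fdiag ha ha2 hb hc)) (ee (fdiag ha ha2 hb hc)) =
      (b : ℝ) ^ 2 - 2 * a * c - 2 * b * c := by
    rw [he, s2_KK hp, hx, hy, hz]
  have hK3 : s3 (KK x y z) (ee (fdiag ha ha2 hb hc)) (ee (fdiag ha ha2 hb hc))
      (ee (fdiag ha ha2 hb hc)) = (b : ℝ) ^ 3 - 3 * b ^ 2 * c := by
    rw [he, s3_KK hp, hy, hz]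
  rw [hK, ← Nat.card_eq_fintype_card, fdiag_card] at hcl
  rw [hK3, ← Nat.card_eq_fintype_card, fdiag_card] at hc3
  rw [hs1, fdiag_card] at h1
  have hn : (1 : ℝ) ≤ ((a + b + c : ℕ) : ℝ) := by
    have : 1 ≤ a + b + c := by omega
    exact_mod_cast this
  have hsq : 1 ≤ √((a + b + c : ℕ) : ℝ) := Real.one_le_sqrt.2 hn
  set n : ℝ := ((a + b + c : ℕ) : ℝ) with hnd
  have hnn : n ^ 2 ≤ n ^ 2 * √n := le_mul_of_one_le_right (by positivity) hsq
  have hE : |(a : ℝ) + b - c| ≤ n := by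
    have h2 : n = (a : ℝ) + b + c := by rw [hnd]; push_cast; ring
    have ha0 : (0 : ℝ) ≤ a := Nat.cast_nonneg a
    have hb0 : (0 : ℝ) ≤ b := Nat.cast_nonneg b
    have hc0 : (0 : ℝ) ≤ c := Nat.cast_nonneg c
    rw [h2, abs_le]
    constructor <;> linarith
  set Q := s2 (JJ (fdiag ha ha2 hb hc)) (ee (fdiag ha ha2 hb hc)) (ee (fdiag ha ha2 hb hc))
  set T := s3 (JJ (fdiag ha ha2 hb hc)) (ee (fdiag ha ha2 hb hc)) (ee (fdiag ha ha2 hb hc))
    (ee (fdiag ha ha2 hb hc))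
  have hEQ : |3 * ((a : ℝ) + b - c) * (Q - ((b : ℝ) ^ 2 - 2 * a * c - 2 * b * c))| ≤ 6 * n ^ 2 := by
    rw [abs_mul, abs_mul, abs_of_pos (by norm_num : (0 : ℝ) < 3)]
    have := mul_le_mul hE hcl (abs_nonneg _) (by linarith)
    nlinarith
  have e : 48 * v3 (fdiag ha ha2 hb hc) -
      (2 * ((a : ℝ) + b) ^ 3 - 3 * ((a : ℝ) + b) * b ^ 2 + b ^ 3 - 2 * c ^ 3) =
      (48 * v3 (fdiag ha ha2 hb hc) - (2 * ((a : ℝ) + b - c) ^ 3 -
        3 * ((a : ℝ) + b - c) * Q + T)) -
      3 * ((a : ℝ) + b - c) * (Q - ((b : ℝ) ^ 2 - 2 * a * c - 2 * b * c)) +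
      (T - ((b : ℝ) ^ 3 - 3 * b ^ 2 * c)) := by ring
  rw [e]
  rw [abs_le] at *
  constructor <;> linarith [h1.1, h1.2, hEQ.1, hEQ.2, hc3.1, hc3.2]

end diagrams

end Pool.Agent.H86.VR.FamVal
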