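import Pool.Graph.R_pool_sql_team_668148b0.Results.MP_6e410e_gt.Willerton

namespace Pool.Agent.H86.VR.Fl

open Finset Pool.Agent.Results.MP_6e410e_gt.Willerton
open scoped Classical

section basic

variable {C : Type} (T F : C → ℕ)

/-- indicator of the arc from `T m` to `F m` -/
noncomputable def ch (m : C) (z : ℕ) : ℤ := if nc (T m) z (F m) then 1 else 0

/-- interlacement number -/
noncomputable def dc (a b : C) : ℤ := ch T F a (F b) - ch T F a (T b)

/-- all ends of the chords in `A` are different -/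
structure Ok (A : Finset C) : Prop where
  tf : ∀ a ∈ A, ∀ b ∈ A, T a ≠ F b
  tt : ∀ a ∈ A, ∀ b ∈ A, T a = T b → a = b
  ff : ∀ a ∈ A, ∀ b ∈ A, F a = F b → a = b

/-- the index relations and the pair relations -/
structure Flat (A : Finset C) : Prop where
  ok : Ok T F A
  row : ∀ p ∈ A, ∑ c ∈ A, dc T F p c = 0
  pair : ∀ p ∈ A, ∀ r ∈ A, p ≠ r →
    ∑ c ∈ A, (ch T F p (T c) * ch T F r (F c) - ch T F p (F c) * ch T F r (T c)) = dc T F p r

/-- the order of the two ends -/
noncomputable def eps (a : C) : ℤ := if T a < F a then 1 else -1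

noncomputable def Bq (A : Finset C) : ℤ := ∑ a ∈ A, ∑ b ∈ A, dc T F a b ^ 2 * (eps T F a * eps T F b)

variable {T F}

theorem Ok.mono {A B : Finset C} (h : Ok T F A) (hB : B ⊆ A) : Ok T F B :=
  ⟨fun a ha b hb => h.tf a (hB ha) b (hB hb), fun a ha b hb => h.tt a (hB ha) b (hB hb),
    fun a ha b hb => h.ff a (hB ha) b (hB hb)⟩

theorem Ok.anti {A : Finset C} (h : Ok T F A) {a b : C} (ha : a ∈ A) (hb : b ∈ A) :
    dc T F a b = - dc T F b a := by
  by_cases hab : a = b
  · subst hab
    have : dc T F a a = 0 := by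
      unfold dc ch
      have := h.tf a ha a ha
      rw [if_neg, if_neg]
      · rfl
      · unfold nc; omega
      · unfold nc; omega
    rw [this, neg_zero]
  · have h1 := h.tf a ha a ha
    have h2 := h.tf b hb b hb
    have h3 := h.tf a ha b hb
    have h4 := h.tf b hb a ha
    have h5 : T a ≠ T b := fun e => hab (h.tt a ha b hb e)
    have h6 : F a ≠ F b := fun e => hab (h.ff a ha b hb e)
    unfold dc ch nc
    split_ifs <;> omega

theorem dc_self (a : C) : dc T F a a = 0 := by
  unfold dc ch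
  rw [if_neg, if_neg]
  · rfl
  · unfold nc; omega
  · unfold nc; omega

theorem ch_01 (m : C) (z : ℕ) : ch T F m z = 0 ∨ ch T F m z = 1 := by
  unfold ch; split_ifs <;> simp

theorem dc_cases (a b : C) : dc T F a b = 0 ∨ dc T F a b = 1 ∨ dc T F a b = -1 := by
  unfold dc
  rcases ch_01 (T := T) (F := F) a (F b) with h1 | h1 <;>
  rcases ch_01 (T := T) (F := F) a (T b) with h2 | h2 <;> simp [h1, h2]

theorem eps_pm (a : C) : eps T F a = 1 ∨ eps T F a = -1 := by
  unfold eps; split_ifs <;> simp

end basic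

/-! ### Rotation -/
section rot

variable {C : Type} {T F : C → ℕ}

/-- the order of the two ends seen from the place `κ` -/
noncomputable def epk (T F : C → ℕ) (κ : ℕ) (a : C) : ℤ :=
  eps T F a * (if T a < κ then -1 else 1) * (if F a < κ then -1 else 1)

theorem epk_zero (a : C) : epk T F 0 a = eps T F a := by simp [epk]

theorem epk_T {A : Finset C} (h : Ok T F A) {a b : C} (ha : a ∈ A) (hb : b ∈ A) :
    dc T F a b ^ 2 * epk T F (T a) b = - dc T F a b := by
  by_cases hab : a = b
  · subst hab; simp [dc_self]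
  · have h1 := h.tf a ha a ha
    have h2 := h.tf b hb b hb
    have h3 := h.tf a ha b hb
    have h4 := h.tf b hb a ha
    have h5 : T a ≠ T b := fun e => hab (h.tt a ha b hb e)
    have h6 : F a ≠ F b := fun e => hab (h.ff a ha b hb e)
    unfold epk eps dc ch nc
    split_ifs <;> omega

theorem epk_F {A : Finset C} (h : Ok T F A) {a b : C} (ha : a ∈ A) (hb : b ∈ A) :
    dc T F a b ^ 2 * epk T F (F a) b = dc T F a b := by
  by_cases hab : a = b
  · subst hab; simp [dc_self]
  · have h1 := h.tf a ha a ha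
    have h2 := h.tf b hb b hb
    have h3 := h.tf a ha b hb
    have h4 := h.tf b hb a ha
    have h5 : T a ≠ T b := fun e => hab (h.tt a ha b hb e)
    have h6 : F a ≠ F b := fun e => hab (h.ff a ha b hb e)
    unfold epk eps dc ch nc
    split_ifs <;> omega

theorem Bk_step {A : Finset C} (h : Flat T F A) (κ : ℕ) :
    ∑ a ∈ A, ∑ b ∈ A, dc T F a b ^ 2 * (epk T F (κ + 1) a * epk T F (κ + 1) b) =
    ∑ a ∈ A, ∑ b ∈ A, dc T F a b ^ 2 * (epk T F κ a * epk T F κ b) := by
  by_cases hex : ∃ p ∈ A, T p = κ ∨ F p = κ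
  · obtain ⟨p, hp, hpk⟩ := hex
    -- only the sign of `p` changes
    have hoth : ∀ a ∈ A, epk T F (κ + 1) a = epk T F κ a - (if a = p then 2 * epk T F κ p else 0) := by
      intro a ha
      by_cases hap : a = p
      · subst hap
        rw [if_pos rfl]
        have h1 := h.ok.tf a ha a ha
        unfold epk
        rcases hpk with hpk | hpk
        · have e1 : (if T a < κ + 1 then (-1 : ℤ) else 1) = -1 := if_pos (by omega)
          have e2 : (if T a < κ then (-1 : ℤ) else 1) = 1 := if_neg (by omega)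
          have e3 : (if F a < κ + 1 then (-1 : ℤ) else 1) = if F a < κ then -1 else 1 := by
            congr 1; apply propext; omega
          rw [e1, e2, e3]; ring
        · have e1 : (if F a < κ + 1 then (-1 : ℤ) else 1) = -1 := if_pos (by omega)
          have e2 : (if F a < κ then (-1 : ℤ) else 1) = 1 := if_neg (by omega)
          have e3 : (if T a < κ + 1 then (-1 : ℤ) else 1) = if T a < κ then -1 else 1 := by
            congr 1; apply propext; omega
          rw [e1, e2, e3]; ring
      · rw [if_neg hap, sub_zero]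
        have h3 := h.ok.tf a ha p hp
        have h4 := h.ok.tf p hp a ha
        have h5 : T a ≠ T p := fun e => hap (h.ok.tt a ha p hp e)
        have h6 : F a ≠ F p := fun e => hap (h.ok.ff a ha p hp e)
        unfold epk
        have e1 : (if T a < κ + 1 then (-1 : ℤ) else 1) = if T a < κ then -1 else 1 := by
          congr 1; apply propext; omega
        have e3 : (if F a < κ + 1 then (-1 : ℤ) else 1) = if F a < κ then -1 else 1 := by
          congr 1; apply propext; omega
        rw [e1, e3]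
    have hzero : ∑ b ∈ A, dc T F p b ^ 2 * epk T F κ b = 0 := by
      rcases hpk with hpk | hpk
      · rw [← hpk, Finset.sum_congr rfl fun b hb => epk_T h.ok hp hb, Finset.sum_neg_distrib,
          h.row p hp, neg_zero]
      · rw [← hpk, Finset.sum_congr rfl fun b hb => epk_F h.ok hp hb, h.row p hp]
    have hzero' : ∑ a ∈ A, dc T F a p ^ 2 * epk T F κ a = 0 := by
      rw [← hzero]
      refine Finset.sum_congr rfl fun b hb => ?_
      rw [h.ok.anti hb hp, neg_sq]
    have e : ∀ a ∈ A, ∀ b ∈ A, dc T F a b ^ 2 * (epk T F (κ + 1) a * epk T F (κ + 1) b) =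
        dc T F a b ^ 2 * (epk T F κ a * epk T F κ b)
        - (if a = p then 2 * epk T F κ p * (dc T F p b ^ 2 * epk T F κ b) else 0)
        - (if b = p then 2 * epk T F κ p * (dc T F a p ^ 2 * epk T F κ a) else 0) := by
      intro a ha b hb
      rw [hoth a ha, hoth b hb]
      by_cases hap : a = p
      · by_cases hbp : b = p
        · subst hap; subst hbp; simp [dc_self]
        · subst hap; simp only [if_true, if_neg hbp, sub_zero]; ring
      · by_cases hbp : b = p
        · subst hbp; simp only [if_true, if_neg hap, sub_zero]; ring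
        · simp only [if_neg hap, if_neg hbp, sub_zero]
    rw [Finset.sum_congr rfl fun a ha => Finset.sum_congr rfl fun b hb => e a ha b hb]
    simp only [Finset.sum_sub_distrib]
    have s1 : ∑ a ∈ A, ∑ b ∈ A, (if a = p then 2 * epk T F κ p * (dc T F p b ^ 2 * epk T F κ b) else 0) = 0 := by
      refine Finset.sum_eq_zero fun a _ => ?_
      by_cases hap : a = p
      · simp only [hap, if_true, ← Finset.mul_sum]
        rw [hzero, mul_zero]
      · simp [hap]
    have s2 : ∑ a ∈ A, ∑ b ∈ A, (if b = p then 2 * epk T F κ p * (dc T F a p ^ 2 * epk T F κ a) else 0) = 0 := by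
      rw [Finset.sum_comm]
      refine Finset.sum_eq_zero fun b _ => ?_
      by_cases hbp : b = p
      · simp only [hbp, if_true, ← Finset.mul_sum]
        rw [hzero', mul_zero]
      · simp [hbp]
    rw [s1, s2, sub_zero, sub_zero]
  · push Not at hex
    refine Finset.sum_congr rfl fun a ha => Finset.sum_congr rfl fun b hb => ?_
    have e : ∀ a ∈ A, epk T F (κ + 1) a = epk T F κ a := by
      intro a ha
      have h1 := hex a ha
      unfold epk
      have e1 : (if T a < κ + 1 then (-1 : ℤ) else 1) = if T a < κ then -1 else 1 := by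
        congr 1; apply propext; omega
      have e3 : (if F a < κ + 1 then (-1 : ℤ) else 1) = if F a < κ then -1 else 1 := by
        congr 1; apply propext; omega
      rw [e1, e3]
    rw [e a ha, e b hb]

theorem Bk_all {A : Finset C} (h : Flat T F A) (κ : ℕ) :
    ∑ a ∈ A, ∑ b ∈ A, dc T F a b ^ 2 * (epk T F κ a * epk T F κ b) = Bq T F A := by
  induction κ with
  | zero => simp only [epk_zero]; rfl
  | succ κ ih => rw [Bk_step h, ih]

end rot

/-! ### Splitting at a chord -/
section split

variable {C : Type} {T F : C → ℕ}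

/-- chords inside of the arc from `T m` to `F m` -/
noncomputable def inn (T F : C → ℕ) (A : Finset C) (m : C) : Finset C :=
  A.filter (fun c => ch T F m (T c) = 1 ∧ ch T F m (F c) = 1)
/-- chords outside of the arc from `T m` to `F m` -/
noncomputable def out (T F : C → ℕ) (A : Finset C) (m : C) : Finset C :=
  A.filter (fun c => c ≠ m ∧ ch T F m (T c) = 0 ∧ ch T F m (F c) = 0)
/-- chords that meet the chord `m` -/
noncomputable def nbr (T F : C → ℕ) (A : Finset C) (m : C) : Finset C :=
  A.filter (fun c => dc T F m c = 1 ∨ dc T F m c = -1)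

theorem inn_sub (A : Finset C) (m : C) : inn T F A m ⊆ A := Finset.filter_subset _ _
theorem out_sub (A : Finset C) (m : C) : out T F A m ⊆ A := Finset.filter_subset _ _
theorem nbr_sub (A : Finset C) (m : C) : nbr T F A m ⊆ A := Finset.filter_subset _ _

theorem sum_split {A : Finset C} {m : C} (hm : m ∈ A) (g : C → ℤ) :
    ∑ c ∈ A, g c = ∑ c ∈ inn T F A m, g c + ∑ c ∈ out T F A m, g c + ∑ c ∈ nbr T F A m, g c
      + g m := by
  have e : g m = ∑ c ∈ A, if c = m then g c else 0 := by
    rw [Finset.sum_ite_eq' A m g, if_pos hm]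
  unfold inn out nbr
  rw [Finset.sum_filter, Finset.sum_filter, Finset.sum_filter, e, ← Finset.sum_add_distrib,
    ← Finset.sum_add_distrib, ← Finset.sum_add_distrib]
  refine Finset.sum_congr rfl fun c _ => ?_
  by_cases hcm : c = m
  · subst hcm
    have h1 : ch T F c (T c) = 0 := by
      unfold ch nc; rw [if_neg]; omega
    simp [h1, dc_self]
  · unfold dc
    rcases ch_01 (T := T) (F := F) m (T c) with h1 | h1 <;>
    rcases ch_01 (T := T) (F := F) m (F c) with h2 | h2 <;> simp [h1, h2, hcm]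

theorem nbr_cases {A : Finset C} {m c : C} (hc : c ∈ nbr T F A m) :
    (dc T F m c = 1 ∧ ch T F m (F c) = 1 ∧ ch T F m (T c) = 0) ∨
    (dc T F m c = -1 ∧ ch T F m (F c) = 0 ∧ ch T F m (T c) = 1) := by
  have h := (Finset.mem_filter.1 hc).2
  unfold dc at h ⊢
  rcases ch_01 (T := T) (F := F) m (T c) with h1 | h1 <;>
    rcases ch_01 (T := T) (F := F) m (F c) with h2 | h2 <;> rw [h1, h2] at h ⊢ <;> omega

theorem ch_one {m : C} {z : ℕ} : ch T F m z = 1 ↔ nc (T m) z (F m) := by
  unfold ch; split_ifs with h <;> simp [h]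
theorem ch_zero {m : C} {z : ℕ} : ch T F m z = 0 ↔ ¬ nc (T m) z (F m) := by
  unfold ch; split_ifs with h <;> simp [h]

theorem const_out {A : Finset C} (hA : Ok T F A) {m b : C} (hm : m ∈ A)
    (hb : b ∈ out T F A m) {z : ℕ} (hz : z = F m ∨ ch T F m z = 1) :
    ch T F b z = ch T F b (T m) := by
  obtain ⟨hbA, hbm, h1, h2⟩ := Finset.mem_filter.1 hb
  have t1 := hA.tf b hbA b hbA
  have t2 := hA.tf m hm m hm
  have t3 := hA.tf b hbA m hm
  have t4 := hA.tf m hm b hbA
  have t5 : T b ≠ T m := fun e => hbm (hA.tt b hbA m hm e)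
  have t6 : F b ≠ F m := fun e => hbm (hA.ff b hbA m hm e)
  rw [ch_zero] at h1 h2
  rw [ch_one] at hz
  unfold ch
  congr 1
  apply propext
  unfold nc at *
  omega

theorem const_inn {A : Finset C} (hA : Ok T F A) {m b : C} (hm : m ∈ A)
    (hb : b ∈ inn T F A m) {z : ℕ} (hz : ch T F m z = 0) :
    ch T F b z = ch T F b (T m) := by
  obtain ⟨hbA, h1, h2⟩ := Finset.mem_filter.1 hb
  have t1 := hA.tf b hbA b hbA
  have t2 := hA.tf m hm m hm
  rw [ch_one] at h1 h2
  rw [ch_zero] at hz
  unfold ch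
  congr 1
  apply propext
  unfold nc at *
  omega

theorem ch_Fself (m : C) : ch T F m (F m) = 0 := by
  unfold ch nc; rw [if_neg]; omega
theorem ch_Tself (m : C) : ch T F m (T m) = 0 := by
  unfold ch nc; rw [if_neg]; omega

variable {A : Finset C} (h : Flat T F A) {m : C} (hm : m ∈ A)
include h hm

theorem sum_nbr : ∑ c ∈ nbr T F A m, dc T F m c = 0 := by
  have h1 := h.row m hm
  rw [sum_split (T := T) (F := F) hm, dc_self] at h1
  have h2 : ∑ c ∈ inn T F A m, dc T F m c = 0 := by
    refine Finset.sum_eq_zero fun c hc => ?_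
    obtain ⟨-, a1, a2⟩ := Finset.mem_filter.1 hc
    unfold dc; rw [a1, a2, sub_self]
  have h3 : ∑ c ∈ out T F A m, dc T F m c = 0 := by
    refine Finset.sum_eq_zero fun c hc => ?_
    obtain ⟨-, -, a1, a2⟩ := Finset.mem_filter.1 hc
    unfold dc; rw [a1, a2, sub_self]
  rw [h2, h3] at h1
  linarith

theorem out_m {b : C} (hb : b ∈ out T F A m) : dc T F b m = 0 := by
  unfold dc
  rw [const_out h.ok hm hb (Or.inl rfl), sub_self]

theorem inn_m {b : C} (hb : b ∈ inn T F A m) : dc T F b m = 0 := by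
  unfold dc
  rw [const_inn h.ok hm hb (ch_Fself m), sub_self]

theorem out_inn {b c : C} (hb : b ∈ out T F A m) (hc : c ∈ inn T F A m) : dc T F b c = 0 := by
  obtain ⟨-, a1, a2⟩ := Finset.mem_filter.1 hc
  unfold dc
  rw [const_out h.ok hm hb (Or.inr a2), const_out h.ok hm hb (Or.inr a1), sub_self]

theorem inn_out {b c : C} (hb : b ∈ inn T F A m) (hc : c ∈ out T F A m) : dc T F b c = 0 := by
  obtain ⟨-, -, a1, a2⟩ := Finset.mem_filter.1 hc
  unfold dc
  rw [const_inn h.ok hm hb a2, const_inn h.ok hm hb a1, sub_self]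

/-- row sums over the neighbours, outside -/
theorem out_nbr {b : C} (hb : b ∈ out T F A m) : ∑ c ∈ nbr T F A m, dc T F b c = 0 := by
  have hbA := out_sub A m hb
  have hbm : b ≠ m := (Finset.mem_filter.1 hb).2.1
  have h1 := h.pair b hbA m hm hbm
  rw [sum_split (T := T) (F := F) hm, out_m h hm hb] at h1
  have h2 : ∑ c ∈ inn T F A m, (ch T F b (T c) * ch T F m (F c) - ch T F b (F c) * ch T F m (T c)) = 0 := by
    refine Finset.sum_eq_zero fun c hc => ?_
    obtain ⟨-, a1, a2⟩ := Finset.mem_filter.1 hc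
    rw [const_out h.ok hm hb (Or.inr a2), const_out h.ok hm hb (Or.inr a1), a1, a2, sub_self]
  have h3 : ∑ c ∈ out T F A m, (ch T F b (T c) * ch T F m (F c) - ch T F b (F c) * ch T F m (T c)) = 0 := by
    refine Finset.sum_eq_zero fun c hc => ?_
    obtain ⟨-, -, a1, a2⟩ := Finset.mem_filter.1 hc
    rw [a1, a2]; ring
  have h4 : ∀ c ∈ nbr T F A m, (ch T F b (T c) * ch T F m (F c) - ch T F b (F c) * ch T F m (T c)) =
      ch T F b (T m) * dc T F m c - dc T F b c := by
    intro c hc
    rcases nbr_cases hc with ⟨a1, a2, a3⟩ | ⟨a1, a2, a3⟩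
    · rw [a1, a2, a3]
      unfold dc
      rw [const_out h.ok hm hb (Or.inr a2)]; ring
    · rw [a1, a2, a3]
      unfold dc
      rw [const_out h.ok hm hb (Or.inr a3)]; ring
  rw [h2, h3, Finset.sum_congr rfl h4, Finset.sum_sub_distrib, ← Finset.mul_sum, sum_nbr h hm,
    ch_Fself, ch_Tself] at h1
  linarith

theorem out_row {b : C} (hb : b ∈ out T F A m) : ∑ c ∈ out T F A m, dc T F b c = 0 := by
  have h1 := h.row b (out_sub A m hb)
  rw [sum_split (T := T) (F := F) hm, out_nbr h hm hb, out_m h hm hb,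
    Finset.sum_eq_zero fun c hc => out_inn h hm hb hc] at h1
  linarith

theorem inn_row {b : C} (hb : b ∈ inn T F A m) : ∑ c ∈ inn T F A m, dc T F b c = 0 := by
  have hbA := inn_sub A m hb
  have hbm : b ≠ m := by
    rintro rfl
    have := (Finset.mem_filter.1 hb).2.1
    rw [ch_Tself] at this
    simp at this
  have h1 := h.pair b hbA m hm hbm
  rw [sum_split (T := T) (F := F) hm, inn_m h hm hb] at h1
  have h2 : ∀ c ∈ inn T F A m, (ch T F b (T c) * ch T F m (F c) - ch T F b (F c) * ch T F m (T c)) =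
      - dc T F b c := by
    intro c hc
    obtain ⟨-, a1, a2⟩ := Finset.mem_filter.1 hc
    unfold dc
    rw [a1, a2]; ring
  have h3 : ∑ c ∈ out T F A m, (ch T F b (T c) * ch T F m (F c) - ch T F b (F c) * ch T F m (T c)) = 0 := by
    refine Finset.sum_eq_zero fun c hc => ?_
    obtain ⟨-, -, a1, a2⟩ := Finset.mem_filter.1 hc
    rw [a1, a2]; ring
  have h4 : ∀ c ∈ nbr T F A m, (ch T F b (T c) * ch T F m (F c) - ch T F b (F c) * ch T F m (T c)) =
      ch T F b (T m) * dc T F m c := by
    intro c hc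
    rcases nbr_cases hc with ⟨a1, a2, a3⟩ | ⟨a1, a2, a3⟩
    · rw [a1, a2, a3, const_inn h.ok hm hb a3]; ring
    · rw [a1, a2, a3, const_inn h.ok hm hb a2]; ring
  rw [Finset.sum_congr rfl h2, h3, Finset.sum_congr rfl h4, ← Finset.mul_sum, sum_nbr h hm,
    ch_Fself, ch_Tself, Finset.sum_neg_distrib] at h1
  linarith

theorem inn_nbr {b : C} (hb : b ∈ inn T F A m) : ∑ c ∈ nbr T F A m, dc T F b c = 0 := by
  have h1 := h.row b (inn_sub A m hb)
  rw [sum_split (T := T) (F := F) hm, inn_row h hm hb, inn_m h hm hb,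
    Finset.sum_eq_zero fun c hc => inn_out h hm hb hc] at h1
  linarith

theorem flat_out : Flat T F (out T F A m) := by
  refine ⟨h.ok.mono (out_sub A m), fun p hp => out_row h hm hp, fun p hp r hr hpr => ?_⟩
  have h1 := h.pair p (out_sub A m hp) r (out_sub A m hr) hpr
  rw [sum_split (T := T) (F := F) hm] at h1
  have h2 : ∑ c ∈ inn T F A m, (ch T F p (T c) * ch T F r (F c) - ch T F p (F c) * ch T F r (T c)) = 0 := by
    refine Finset.sum_eq_zero fun c hc => ?_
    obtain ⟨-, a1, a2⟩ := Finset.mem_filter.1 hc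
    rw [const_out h.ok hm hp (Or.inr a1), const_out h.ok hm hp (Or.inr a2),
      const_out h.ok hm hr (Or.inr a1), const_out h.ok hm hr (Or.inr a2), sub_self]
  have h4 : ∀ c ∈ nbr T F A m, (ch T F p (T c) * ch T F r (F c) - ch T F p (F c) * ch T F r (T c)) =
      ch T F p (T m) * dc T F r c - ch T F r (T m) * dc T F p c := by
    intro c hc
    rcases nbr_cases hc with ⟨a1, a2, a3⟩ | ⟨a1, a2, a3⟩
    · unfold dc
      rw [const_out h.ok hm hp (Or.inr a2), const_out h.ok hm hr (Or.inr a2)]; ring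
    · unfold dc
      rw [const_out h.ok hm hp (Or.inr a3), const_out h.ok hm hr (Or.inr a3)]; ring
  have h5 : ∑ c ∈ nbr T F A m, (ch T F p (T m) * dc T F r c - ch T F r (T m) * dc T F p c) = 0 := by
    rw [Finset.sum_sub_distrib, ← Finset.mul_sum, ← Finset.mul_sum,
      out_nbr h hm hp, out_nbr h hm hr]
    ring
  rw [h2, Finset.sum_congr rfl h4, h5, const_out h.ok hm hp (Or.inl rfl),
    const_out h.ok hm hr (Or.inl rfl)] at h1
  linarith

theorem flat_inn : Flat T F (inn T F A m) := by
  refine ⟨h.ok.mono (inn_sub A m), fun p hp => inn_row h hm hp, fun p hp r hr hpr => ?_⟩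
  have h1 := h.pair p (inn_sub A m hp) r (inn_sub A m hr) hpr
  rw [sum_split (T := T) (F := F) hm] at h1
  have h2 : ∑ c ∈ out T F A m, (ch T F p (T c) * ch T F r (F c) - ch T F p (F c) * ch T F r (T c)) = 0 := by
    refine Finset.sum_eq_zero fun c hc => ?_
    obtain ⟨-, -, a1, a2⟩ := Finset.mem_filter.1 hc
    rw [const_inn h.ok hm hp a1, const_inn h.ok hm hp a2,
      const_inn h.ok hm hr a1, const_inn h.ok hm hr a2, sub_self]
  have h4 : ∀ c ∈ nbr T F A m, (ch T F p (T c) * ch T F r (F c) - ch T F p (F c) * ch T F r (T c)) =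
      ch T F p (T m) * dc T F r c - ch T F r (T m) * dc T F p c := by
    intro c hc
    rcases nbr_cases hc with ⟨a1, a2, a3⟩ | ⟨a1, a2, a3⟩
    · unfold dc
      rw [const_inn h.ok hm hp a3, const_inn h.ok hm hr a3]; ring
    · unfold dc
      rw [const_inn h.ok hm hp a2, const_inn h.ok hm hr a2]; ring
  have h5 : ∑ c ∈ nbr T F A m, (ch T F p (T m) * dc T F r c - ch T F r (T m) * dc T F p c) = 0 := by
    rw [Finset.sum_sub_distrib, ← Finset.mul_sum, ← Finset.mul_sum,
      inn_nbr h hm hp, inn_nbr h hm hr]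
    ring
  rw [h2, Finset.sum_congr rfl h4, h5, const_inn h.ok hm hp (ch_Fself m),
    const_inn h.ok hm hr (ch_Fself m)] at h1
  linarith

end split

/-! ### The recursion -/
section recursion

variable {C : Type} {T F : C → ℕ}

/-- the quadratic sum over the neighbours -/
noncomputable def Sq (T F : C → ℕ) (A : Finset C) (m : C) : ℤ :=
  ∑ a ∈ A, ∑ c ∈ A, dc T F a c ^ 2 * (dc T F m a * dc T F m c)

theorem Sq_nbr {A : Finset C} {m : C} (hm : m ∈ A) : Sq T F A m =
    ∑ a ∈ nbr T F A m, ∑ c ∈ nbr T F A m, dc T F a c ^ 2 * (dc T F m a * dc T F m c) := by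
  have z1 : ∀ c ∈ inn T F A m, dc T F m c = 0 := by
    intro c hc
    obtain ⟨-, a1, a2⟩ := Finset.mem_filter.1 hc
    unfold dc; rw [a1, a2, sub_self]
  have z2 : ∀ c ∈ out T F A m, dc T F m c = 0 := by
    intro c hc
    obtain ⟨-, -, a1, a2⟩ := Finset.mem_filter.1 hc
    unfold dc; rw [a1, a2, sub_self]
  have key : ∀ a : C, ∑ c ∈ A, dc T F a c ^ 2 * (dc T F m a * dc T F m c) =
      ∑ c ∈ nbr T F A m, dc T F a c ^ 2 * (dc T F m a * dc T F m c) := by
    intro a
    have e1 : ∑ c ∈ inn T F A m, dc T F a c ^ 2 * (dc T F m a * dc T F m c) = 0 :=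
      Finset.sum_eq_zero fun c hc => by rw [z1 c hc]; ring
    have e2 : ∑ c ∈ out T F A m, dc T F a c ^ 2 * (dc T F m a * dc T F m c) = 0 :=
      Finset.sum_eq_zero fun c hc => by rw [z2 c hc]; ring
    rw [sum_split (T := T) (F := F) hm, e1, e2, dc_self]
    ring
  unfold Sq
  simp only [key]
  rw [sum_split (T := T) (F := F) hm]
  have y1 : ∀ a, dc T F m a = 0 →
      ∑ c ∈ nbr T F A m, dc T F a c ^ 2 * (dc T F m a * dc T F m c) = 0 := by
    intro a ha
    refine Finset.sum_eq_zero fun c _ => ?_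
    rw [ha]; ring
  rw [Finset.sum_eq_zero fun c hc => y1 c (z1 c hc), Finset.sum_eq_zero fun c hc => y1 c (z2 c hc),
    y1 m (dc_self m)]
  ring

theorem eps_out {A : Finset C} (hA : Ok T F A) {m b c : C} (hm : m ∈ A) (hb : b ∈ out T F A m)
    (hc : c ∈ nbr T F A m) :
    dc T F b c ^ 2 * (epk T F (T m) b * epk T F (T m) c) = dc T F b c := by
  obtain ⟨hbA, hbm, h1, h2⟩ := Finset.mem_filter.1 hb
  have hcA := nbr_sub A m hc
  have hcase := nbr_cases hc
  have hcm : c ≠ m := by
    rintro rfl
    rw [dc_self] at hcase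
    omega
  by_cases hbc : b = c
  · subst hbc; simp [dc_self]
  have t1 := hA.tf b hbA b hbA
  have t2 := hA.tf m hm m hm
  have t3 := hA.tf b hbA m hm
  have t4 := hA.tf m hm b hbA
  have t5 : T b ≠ T m := fun e => hbm (hA.tt b hbA m hm e)
  have t6 : F b ≠ F m := fun e => hbm (hA.ff b hbA m hm e)
  have t7 := hA.tf c hcA c hcA
  have t8 := hA.tf c hcA m hm
  have t9 := hA.tf m hm c hcA
  have t10 : T c ≠ T m := fun e => hcm (hA.tt c hcA m hm e)
  have t11 : F c ≠ F m := fun e => hcm (hA.ff c hcA m hm e)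
  have t12 := hA.tf b hbA c hcA
  have t13 := hA.tf c hcA b hbA
  have t14 : T b ≠ T c := fun e => hbc (hA.tt b hbA c hcA e)
  have t15 : F b ≠ F c := fun e => hbc (hA.ff b hbA c hcA e)
  rw [ch_zero] at h1 h2
  rw [ch_one, ch_zero, ch_zero, ch_one] at hcase
  replace hcase : (nc (T m) (F c) (F m) ∧ ¬ nc (T m) (T c) (F m)) ∨
      (¬ nc (T m) (F c) (F m) ∧ nc (T m) (T c) (F m)) := by tauto
  unfold epk eps dc ch nc at *
  split_ifs <;> omega

theorem eps_inn {A : Finset C} (hA : Ok T F A) {m b c : C} (hm : m ∈ A) (hb : b ∈ inn T F A m)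
    (hc : c ∈ nbr T F A m) :
    dc T F b c ^ 2 * (epk T F (T m) b * epk T F (T m) c) = - dc T F b c := by
  obtain ⟨hbA, h1, h2⟩ := Finset.mem_filter.1 hb
  have hcA := nbr_sub A m hc
  have hcase := nbr_cases hc
  have hcm : c ≠ m := by
    rintro rfl
    rw [dc_self] at hcase
    omega
  have hbm : b ≠ m := by
    rintro rfl
    rw [ch_Tself] at h1
    simp at h1
  by_cases hbc : b = c
  · subst hbc; simp [dc_self]
  have t1 := hA.tf b hbA b hbA
  have t2 := hA.tf m hm m hm
  have t3 := hA.tf b hbA m hm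
  have t4 := hA.tf m hm b hbA
  have t5 : T b ≠ T m := fun e => hbm (hA.tt b hbA m hm e)
  have t6 : F b ≠ F m := fun e => hbm (hA.ff b hbA m hm e)
  have t7 := hA.tf c hcA c hcA
  have t8 := hA.tf c hcA m hm
  have t9 := hA.tf m hm c hcA
  have t10 : T c ≠ T m := fun e => hcm (hA.tt c hcA m hm e)
  have t11 : F c ≠ F m := fun e => hcm (hA.ff c hcA m hm e)
  have t12 := hA.tf b hbA c hcA
  have t13 := hA.tf c hcA b hbA
  have t14 : T b ≠ T c := fun e => hbc (hA.tt b hbA c hcA e)
  have t15 : F b ≠ F c := fun e => hbc (hA.ff b hbA c hcA e)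
  rw [ch_one] at h1 h2
  rw [ch_one, ch_zero, ch_zero, ch_one] at hcase
  replace hcase : (nc (T m) (F c) (F m) ∧ ¬ nc (T m) (T c) (F m)) ∨
      (¬ nc (T m) (F c) (F m) ∧ nc (T m) (T c) (F m)) := by tauto
  unfold epk eps dc ch nc at *
  split_ifs <;> omega

theorem Bq_rec {A : Finset C} (h : Flat T F A) {m : C} (hm : m ∈ A) :
    Bq T F A = Bq T F (inn T F A m) + Bq T F (out T F A m) + Sq T F A m := by
  obtain ⟨E, hE⟩ : ∃ E : C → ℤ, E = epk T F (T m) := ⟨_, rfl⟩
  have b1 := Bk_all h (T m)
  have b2 := Bk_all (flat_inn h hm) (T m)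
  have b3 := Bk_all (flat_out h hm) (T m)
  rw [← hE] at b1 b2 b3
  have z1 : ∀ c ∈ inn T F A m, dc T F m c = 0 := by
    intro c hc
    obtain ⟨-, a1, a2⟩ := Finset.mem_filter.1 hc
    unfold dc; rw [a1, a2, sub_self]
  have z2 : ∀ c ∈ out T F A m, dc T F m c = 0 := by
    intro c hc
    obtain ⟨-, -, a1, a2⟩ := Finset.mem_filter.1 hc
    unfold dc; rw [a1, a2, sub_self]
  have sym : ∀ a ∈ A, ∀ b ∈ A, dc T F a b ^ 2 * (E a * E b) = dc T F b a ^ 2 * (E b * E a) := by
    intro a ha b hb
    rw [h.ok.anti ha hb]; ring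
  -- rows
  have rinn : ∀ a ∈ inn T F A m, ∑ b ∈ nbr T F A m, dc T F a b ^ 2 * (E a * E b) = 0 := by
    intro a ha
    have e : ∀ b ∈ nbr T F A m, dc T F a b ^ 2 * (E a * E b) = - dc T F a b := by
      intro b hb
      rw [hE]; exact eps_inn h.ok hm ha hb
    rw [Finset.sum_congr rfl e, Finset.sum_neg_distrib, inn_nbr h hm ha, neg_zero]
  have rout : ∀ a ∈ out T F A m, ∑ b ∈ nbr T F A m, dc T F a b ^ 2 * (E a * E b) = 0 := by
    intro a ha
    have e : ∀ b ∈ nbr T F A m, dc T F a b ^ 2 * (E a * E b) = dc T F a b := by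
      intro b hb
      rw [hE]; exact eps_out h.ok hm ha hb
    rw [Finset.sum_congr rfl e, out_nbr h hm ha]
  have rm : ∑ b ∈ nbr T F A m, dc T F m b ^ 2 * (E m * E b) = 0 := by
    have : ∀ b ∈ nbr T F A m, dc T F m b ^ 2 * (E m * E b) = - (E m * dc T F m b) := by
      intro b hb
      have := epk_T h.ok hm (nbr_sub A m hb)
      rw [← hE] at this
      calc dc T F m b ^ 2 * (E m * E b) = E m * (dc T F m b ^ 2 * E b) := by ring
        _ = _ := by rw [this]; ring
    rw [Finset.sum_congr rfl this, Finset.sum_neg_distrib, ← Finset.mul_sum, sum_nbr h hm]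
    ring
  have t1 : ∀ a ∈ inn T F A m, ∑ b ∈ A, dc T F a b ^ 2 * (E a * E b) =
      ∑ b ∈ inn T F A m, dc T F a b ^ 2 * (E a * E b) := by
    intro a ha
    have e : ∑ b ∈ out T F A m, dc T F a b ^ 2 * (E a * E b) = 0 :=
      Finset.sum_eq_zero fun b hb => by rw [inn_out h hm ha hb]; ring
    rw [sum_split (T := T) (F := F) hm, rinn a ha, inn_m h hm ha, e]
    ring
  have t2 : ∀ a ∈ out T F A m, ∑ b ∈ A, dc T F a b ^ 2 * (E a * E b) =
      ∑ b ∈ out T F A m, dc T F a b ^ 2 * (E a * E b) := by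
    intro a ha
    have e : ∑ b ∈ inn T F A m, dc T F a b ^ 2 * (E a * E b) = 0 :=
      Finset.sum_eq_zero fun b hb => by rw [out_inn h hm ha hb]; ring
    rw [sum_split (T := T) (F := F) hm, rout a ha, out_m h hm ha, e]
    ring
  have t3 : ∑ a ∈ nbr T F A m, ∑ b ∈ A, dc T F a b ^ 2 * (E a * E b) =
      ∑ a ∈ nbr T F A m, ∑ b ∈ nbr T F A m, dc T F a b ^ 2 * (E a * E b) := by
    have u1 : ∑ a ∈ nbr T F A m, ∑ b ∈ inn T F A m, dc T F a b ^ 2 * (E a * E b) = 0 := by
      rw [Finset.sum_comm]
      refine Finset.sum_eq_zero fun b hb => ?_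
      rw [Finset.sum_congr rfl fun a ha => sym a (nbr_sub A m ha) b (inn_sub A m hb)]
      exact rinn b hb
    have u2 : ∑ a ∈ nbr T F A m, ∑ b ∈ out T F A m, dc T F a b ^ 2 * (E a * E b) = 0 := by
      rw [Finset.sum_comm]
      refine Finset.sum_eq_zero fun b hb => ?_
      rw [Finset.sum_congr rfl fun a ha => sym a (nbr_sub A m ha) b (out_sub A m hb)]
      exact rout b hb
    have u3 : ∑ a ∈ nbr T F A m, dc T F a m ^ 2 * (E a * E m) = 0 := by
      rw [Finset.sum_congr rfl fun a ha => sym a (nbr_sub A m ha) m hm]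
      exact rm
    rw [Finset.sum_congr rfl fun a _ => sum_split (T := T) (F := F) hm _, Finset.sum_add_distrib,
      Finset.sum_add_distrib, Finset.sum_add_distrib, u1, u2, u3]
    ring
  have t4 : ∑ b ∈ A, dc T F m b ^ 2 * (E m * E b) = 0 := by
    have e1 : ∑ b ∈ inn T F A m, dc T F m b ^ 2 * (E m * E b) = 0 :=
      Finset.sum_eq_zero fun b hb => by rw [z1 b hb]; ring
    have e2 : ∑ b ∈ out T F A m, dc T F m b ^ 2 * (E m * E b) = 0 :=
      Finset.sum_eq_zero fun b hb => by rw [z2 b hb]; ring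
    rw [sum_split (T := T) (F := F) hm, rm, dc_self, e1, e2]
    ring
  have t5 : ∑ a ∈ nbr T F A m, ∑ b ∈ nbr T F A m, dc T F a b ^ 2 * (E a * E b) = Sq T F A m := by
    rw [Sq_nbr hm]
    refine Finset.sum_congr rfl fun a ha => Finset.sum_congr rfl fun b hb => ?_
    have e1 : ∀ c ∈ nbr T F A m, E c = - dc T F m c := by
      intro c hc
      have := epk_T h.ok hm (nbr_sub A m hc)
      rw [← hE] at this
      rcases nbr_cases hc with ⟨x, -, -⟩ | ⟨x, -, -⟩ <;> rw [x] at this ⊢ <;> linarith
    rw [e1 a ha, e1 b hb]; ring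
  rw [← b1, sum_split (T := T) (F := F) hm, Finset.sum_congr rfl t1, Finset.sum_congr rfl t2, t3, t4,
    t5, b2, b3]
  ring

theorem card_split {A : Finset C} {m : C} (hm : m ∈ A) :
    A.card = (inn T F A m).card + (out T F A m).card + (nbr T F A m).card + 1 := by
  have := sum_split (T := T) (F := F) hm (fun _ => (1 : ℤ))
  simp only [Finset.sum_const, nsmul_eq_mul, mul_one] at this
  exact_mod_cast this

end recursion

/-! ### Simple loops -/
section simple

theorem alternating {C : Type} (N O : Finset C) (o μ : C → ℕ) (σ V : C → ℤ)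
    (ho : ∀ a ∈ N, ∀ b ∈ N, o a = o b → a = b)
    (hσ : ∀ c ∈ N, σ c = 1 ∨ σ c = -1)
    (hW : ∀ p ∈ N, 2 * ∑ c ∈ N.filter (fun c => o p < o c), σ c = -1 - σ p)
    (hV : ∀ p ∈ N, ∀ r ∈ N, σ p = 1 → σ r = -1 → o p < o r →
      (∀ c ∈ N, ¬ (o p < o c ∧ o c < o r)) →
      |2 * (V p - V r) + 1| ≤ 1 + 2 * ((O.filter (fun c => o p < μ c ∧ μ c < o r)).card : ℤ)) :
    ∀ (n : ℕ) (U : Finset C), U.card = n → U ⊆ N → (∀ a ∈ N, ∀ b ∈ U, o b ≤ o a → a ∈ U) →
      ∑ c ∈ U, σ c = 0 →
      |∑ a ∈ U, (1 + 2 * (σ a * V a))| ≤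
        U.card + 2 * ((O.filter (fun c => ∃ p ∈ U, o p < μ c)).card : ℤ) := by
  intro n
  induction n using Nat.strong_induction_on with
  | _ n ih =>
  intro U hU hUN hsuf hsum
  rcases U.eq_empty_or_nonempty with he | hne
  · subst he; simp
  · obtain ⟨p, hp, hpmin⟩ := Finset.exists_min_image U o hne
    have hpN := hUN hp
    have hU1 : U.erase p = N.filter (fun c => o p < o c) := by
      ext c
      simp only [Finset.mem_erase, Finset.mem_filter]
      constructor
      · rintro ⟨h1, h2⟩
        exact ⟨hUN h2, lt_of_le_of_ne (hpmin c h2) fun e => h1 (ho c (hUN h2) p hpN e.symm)⟩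
      · rintro ⟨h1, h2⟩
        exact ⟨by rintro rfl; omega, hsuf c h1 p hp h2.le⟩
    have h1 := hW p hpN
    rw [← hU1] at h1
    have h2 := Finset.add_sum_erase U σ hp
    rw [hsum] at h2
    have hσp : σ p = 1 := by rcases hσ p hpN with h | h <;> omega
    have hne1 : (U.erase p).Nonempty := by
      by_contra hcon
      rw [Finset.not_nonempty_iff_eq_empty] at hcon
      rw [hcon] at h1
      simp at h1
      omega
    obtain ⟨r, hr, hrmin⟩ := Finset.exists_min_image (U.erase p) o hne1
    have hrU := Finset.mem_of_mem_erase hr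
    have hrp : r ≠ p := Finset.ne_of_mem_erase hr
    have hrN := hUN hrU
    have hpr : o p < o r := by
      have : r ∈ N.filter (fun c => o p < o c) := by rw [← hU1]; exact hr
      exact (Finset.mem_filter.1 this).2
    have hU2 : (U.erase p).erase r = N.filter (fun c => o r < o c) := by
      ext c
      simp only [Finset.mem_erase, Finset.mem_filter]
      constructor
      · rintro ⟨h1, h2, h3⟩
        exact ⟨hUN h3, lt_of_le_of_ne (hrmin c (Finset.mem_erase.2 ⟨h2, h3⟩))
          fun e => h1 (ho c (hUN h3) r hrN e.symm)⟩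
      · rintro ⟨h1, h2⟩
        exact ⟨by rintro rfl; omega, by rintro rfl; omega, hsuf c h1 r hrU h2.le⟩
    have h3 := hW r hrN
    rw [← hU2] at h3
    have h4 := Finset.add_sum_erase (U.erase p) σ hr
    have hσr : σ r = -1 := by rcases hσ r hrN with h | h <;> omega
    have hbetw : ∀ c ∈ N, ¬ (o p < o c ∧ o c < o r) := by
      rintro c hc ⟨a1, a2⟩
      have : c ∈ U.erase p := by rw [hU1]; exact Finset.mem_filter.2 ⟨hc, a1⟩
      have := hrmin c this
      omega
    have h5 := hV p hpN r hrN hσp hσr hpr hbetw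
    have hcard : ((U.erase p).erase r).card + 2 = U.card := by
      have a1 := Finset.card_erase_add_one hp
      have a2 := Finset.card_erase_add_one hr
      omega
    have h6 := ih _ (by omega) ((U.erase p).erase r) rfl
      (fun c hc => hUN (Finset.mem_of_mem_erase (Finset.mem_of_mem_erase hc)))
      (by
        intro a ha b hb hab
        rw [hU2] at hb ⊢
        have := (Finset.mem_filter.1 hb).2
        exact Finset.mem_filter.2 ⟨ha, by omega⟩)
      (by omega)
    have e1 := Finset.add_sum_erase U (fun a => 1 + 2 * (σ a * V a)) hp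
    have e2 := Finset.add_sum_erase (U.erase p) (fun a => 1 + 2 * (σ a * V a)) hr
    have e3 : ∑ a ∈ U, (1 + 2 * (σ a * V a)) = 
        (2 * (V p - V r) + 1) + 1 + ∑ a ∈ (U.erase p).erase r, (1 + 2 * (σ a * V a)) := by
      rw [← e1, ← e2, hσp, hσr]; ring
    have h7 : ((O.filter (fun c => ∃ q ∈ (U.erase p).erase r, o q < μ c)).card : ℤ) +
        ((O.filter (fun c => o p < μ c ∧ μ c < o r)).card : ℤ) ≤
        ((O.filter (fun c => ∃ q ∈ U, o q < μ c)).card : ℤ) := by
      rw [← Nat.cast_add, ← Finset.card_union_of_disjoint]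
      · exact_mod_cast Finset.card_le_card (by
          intro c hc
          rcases Finset.mem_union.1 hc with hc | hc
          · obtain ⟨a1, q, hq, a2⟩ := Finset.mem_filter.1 hc
            exact Finset.mem_filter.2 ⟨a1, q, Finset.mem_of_mem_erase (Finset.mem_of_mem_erase hq), a2⟩
          · obtain ⟨a1, a2, a3⟩ := Finset.mem_filter.1 hc
            exact Finset.mem_filter.2 ⟨a1, p, hp, a2⟩)
      · rw [Finset.disjoint_left]
        intro c hc hc'
        obtain ⟨-, q, hq, a2⟩ := Finset.mem_filter.1 hc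
        obtain ⟨-, a3, a4⟩ := Finset.mem_filter.1 hc'
        rw [hU2] at hq
        have := (Finset.mem_filter.1 hq).2
        omega
    have h8 : (((U.erase p).erase r).card : ℤ) + 2 = U.card := by exact_mod_cast hcard
    rw [e3]
    have h9 := abs_le.1 h5
    have h10 := abs_le.1 h6
    rw [abs_le]
    constructor <;> linarith [h9.1, h9.2, h10.1, h10.2]

end simple

section simple2

variable {C : Type} {T F : C → ℕ}

/-- the end of a neighbour outside of the arc -/
noncomputable def oo (T F : C → ℕ) (m c : C) : ℕ := if dc T F m c = 1 then T c else F c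
/-- the end of a neighbour inside of the arc -/
noncomputable def ii (T F : C → ℕ) (m c : C) : ℕ := if dc T F m c = 1 then F c else T c

/-- the chord `m` begins at the first place -/
structure Fst (T F : C → ℕ) (A : Finset C) (m : C) : Prop where
  t : ∀ c ∈ A, c ≠ m → T m < T c
  f : ∀ c ∈ A, T m < F c

variable {A : Finset C} {m : C} (h : Ok T F A) (hm : m ∈ A) (hf : Fst T F A m)
include h hm hf

theorem nbr_pos {c : C} (hc : c ∈ nbr T F A m) :
    (dc T F m c = 1 ∧ oo T F m c = T c ∧ ii T F m c = F c ∧ T m < F c ∧ F c < F m ∧ F m < T c) ∨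
    (dc T F m c = -1 ∧ oo T F m c = F c ∧ ii T F m c = T c ∧ T m < T c ∧ T c < F m ∧ F m < F c) := by
  have hcA := nbr_sub A m hc
  have hcase := nbr_cases hc
  have hcm : c ≠ m := by
    rintro rfl
    rw [dc_self] at hcase
    omega
  have f1 := hf.t c hcA hcm
  have f2 := hf.f c hcA
  have f3 := hf.f m hm
  have f4 := h.tf c hcA m hm
  have f5 : F c ≠ F m := fun e => hcm (h.ff c hcA m hm e)
  rw [ch_one, ch_zero, ch_zero, ch_one] at hcase
  unfold nc at hcase
  rcases hcase with ⟨a1, a2, a3⟩ | ⟨a1, a2, a3⟩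
  · left
    unfold oo ii
    rw [if_pos a1, if_pos a1]
    omega
  · right
    unfold oo ii
    rw [if_neg (by omega), if_neg (by omega)]
    omega

theorem out_pos {c : C} (hc : c ∈ out T F A m) : F m < T c ∧ F m < F c := by
  obtain ⟨hcA, hcm, h1, h2⟩ := Finset.mem_filter.1 hc
  have f1 := hf.t c hcA hcm
  have f2 := hf.f c hcA
  have f3 := hf.f m hm
  have f4 := h.tf c hcA m hm
  have f5 : F c ≠ F m := fun e => hcm (h.ff c hcA m hm e)
  rw [ch_zero] at h1 h2
  unfold nc at h1 h2
  omega

/-- two neighbours -/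
theorem nbr_cross {a c : C} (ha : a ∈ nbr T F A m) (hc : c ∈ nbr T F A m) (hac : a ≠ c) :
    (1 - dc T F a c ^ 2) = (if oo T F m a < oo T F m c ∧ ii T F m c < ii T F m a then 1 else 0) +
      (if oo T F m c < oo T F m a ∧ ii T F m a < ii T F m c then 1 else 0) := by
  have haA := nbr_sub A m ha
  have hcA := nbr_sub A m hc
  have t1 := h.tf a haA a haA
  have t2 := h.tf c hcA c hcA
  have t3 := h.tf a haA c hcA
  have t4 := h.tf c hcA a haA
  have t5 : T a ≠ T c := fun e => hac (h.tt a haA c hcA e)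
  have t6 : F a ≠ F c := fun e => hac (h.ff a haA c hcA e)
  rcases nbr_pos h hm hf ha with ⟨-, p1, p2, p3, p4, p5⟩ | ⟨-, p1, p2, p3, p4, p5⟩ <;>
  rcases nbr_pos h hm hf hc with ⟨-, q1, q2, q3, q4, q5⟩ | ⟨-, q1, q2, q3, q4, q5⟩ <;>
  · rw [p1, p2, q1, q2]
    unfold dc ch nc
    split_ifs <;> omega

theorem oo_inj : ∀ a ∈ nbr T F A m, ∀ b ∈ nbr T F A m, oo T F m a = oo T F m b → a = b := by
  intro a ha b hb hab
  have haA := nbr_sub A m ha
  have hbA := nbr_sub A m hb
  rcases nbr_pos h hm hf ha with ⟨-, p1, -⟩ | ⟨-, p1, -⟩ <;>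
  rcases nbr_pos h hm hf hb with ⟨-, q1, -⟩ | ⟨-, q1, -⟩ <;> rw [p1, q1] at hab
  · exact h.tt a haA b hbA hab
  · exact absurd hab (h.tf a haA b hbA)
  · exact absurd hab.symm (h.tf b hbA a haA)
  · exact h.ff a haA b hbA hab

/-- The function `V` of the alternating lemma. -/
theorem Sq_simple (hflat : Flat T F A) : Sq T F A m =
    - ∑ a ∈ nbr T F A m, (1 + 2 * (dc T F m a * ∑ c ∈ nbr T F A m,
      (if oo T F m a < oo T F m c ∧ ii T F m c < ii T F m a then dc T F m c else 0))) := by
  rw [Sq_nbr hm]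
  have e : ∀ a ∈ nbr T F A m, ∀ c ∈ nbr T F A m,
      dc T F a c ^ 2 * (dc T F m a * dc T F m c) = dc T F m a * dc T F m c
        - (if a = c then 1 else 0)
        - dc T F m a * (if oo T F m a < oo T F m c ∧ ii T F m c < ii T F m a then dc T F m c else 0)
        - dc T F m c * (if oo T F m c < oo T F m a ∧ ii T F m a < ii T F m c then dc T F m a else 0) := by
    intro a ha c hc
    by_cases hac : a = c
    · subst hac
      rw [dc_self, if_pos rfl, if_neg (by omega)]
      rcases nbr_cases ha with ⟨x, -, -⟩ | ⟨x, -, -⟩ <;> rw [x] <;> norm_num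
    · have h1 := nbr_cross h hm hf ha hc hac
      have h2 : dc T F a c ^ 2 = 1 -
        ((if oo T F m a < oo T F m c ∧ ii T F m c < ii T F m a then 1 else 0) +
        (if oo T F m c < oo T F m a ∧ ii T F m a < ii T F m c then 1 else 0)) := by linarith
      rw [h2, if_neg hac]
      split_ifs <;> ring
  rw [Finset.sum_congr rfl fun a ha => Finset.sum_congr rfl fun c hc => e a ha c hc]
  simp only [Finset.sum_sub_distrib, Finset.sum_add_distrib, ← Finset.mul_sum]
  have s0 : ∑ a ∈ nbr T F A m, ∑ c ∈ nbr T F A m, (if a = c then (1 : ℤ) else 0) =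
      ∑ a ∈ nbr T F A m, 1 := by
    refine Finset.sum_congr rfl fun a ha => ?_
    rw [Finset.sum_ite_eq, if_pos ha]
  have s1 : ∑ a ∈ nbr T F A m, ∑ c ∈ nbr T F A m, dc T F m c *
      (if oo T F m c < oo T F m a ∧ ii T F m a < ii T F m c then dc T F m a else 0) =
      ∑ a ∈ nbr T F A m, dc T F m a * ∑ c ∈ nbr T F A m,
        (if oo T F m a < oo T F m c ∧ ii T F m c < ii T F m a then dc T F m c else 0) := by
    rw [Finset.sum_comm]
    refine Finset.sum_congr rfl fun a _ => ?_
    rw [Finset.mul_sum]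
  rw [s0, s1, sum_nbr hflat hm]
  simp only [mul_zero, Finset.sum_const_zero]
  ring

end simple2

section simple3

variable {C : Type} {T F : C → ℕ} {A : Finset C} {m : C} (h : Flat T F A) (hm : m ∈ A)
  (hf : Fst T F A m)
include h hm hf

/-- along the rest of the curve the signs alternate -/
theorem simple_W (hin : inn T F A m = ∅) {p : C} (hp : p ∈ nbr T F A m) :
    2 * ∑ c ∈ (nbr T F A m).filter (fun c => oo T F m p < oo T F m c), dc T F m c =
      -1 - dc T F m p := by
  have hpA := nbr_sub A m hp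
  have hpm : p ≠ m := by
    rintro rfl
    have := nbr_cases hp
    rw [dc_self] at this
    omega
  have h1 := h.pair p hpA m hm hpm
  rw [sum_split (T := T) (F := F) hm, hin, Finset.sum_empty, h.ok.anti hpA hm] at h1
  have h3 : ∑ c ∈ out T F A m, (ch T F p (T c) * ch T F m (F c) - ch T F p (F c) * ch T F m (T c)) = 0 := by
    refine Finset.sum_eq_zero fun c hc => ?_
    obtain ⟨-, -, a1, a2⟩ := Finset.mem_filter.1 hc
    rw [a1, a2]; ring
  have hs := sum_nbr h hm
  rcases nbr_pos h.ok hm hf hp with ⟨p0, p1, p2, p3, p4, p5⟩ | ⟨p0, p1, p2, p3, p4, p5⟩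
  · have h4 : ∀ c ∈ nbr T F A m,
        (ch T F p (T c) * ch T F m (F c) - ch T F p (F c) * ch T F m (T c)) =
        if oo T F m p < oo T F m c then dc T F m c else 0 := by
      intro c hc
      have hcA := nbr_sub A m hc
      rcases nbr_cases hc with ⟨a1, a2, a3⟩ | ⟨a1, a2, a3⟩ <;>
      rcases nbr_pos h.ok hm hf hc with ⟨q0, q1, q2, q3, q4, q5⟩ | ⟨q0, q1, q2, q3, q4, q5⟩
      · rw [a1, a2, a3, p1, q1]
        unfold ch nc
        split_ifs <;> omega
      · omega
      · omega
      · rw [a1, a2, a3, p1, q1]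
        unfold ch nc
        split_ifs <;> omega
    rw [h3, Finset.sum_congr rfl h4, ← Finset.sum_filter, ch_Fself, ch_Tself, p0] at h1
    rw [p0]
    linarith
  · have h4 : ∀ c ∈ nbr T F A m,
        (ch T F p (T c) * ch T F m (F c) - ch T F p (F c) * ch T F m (T c)) =
        dc T F m c - (if oo T F m p < oo T F m c then dc T F m c else 0) -
          (if c = p then dc T F m p else 0) := by
      intro c hc
      have hcA := nbr_sub A m hc
      by_cases hcp : c = p
      · subst hcp
        rw [if_pos rfl, if_neg (by omega), ch_Tself, ch_Fself]; ring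
      · have t3 := h.ok.tf p hpA c hcA
        have t4 := h.ok.tf c hcA p hpA
        have t6 : F c ≠ F p := fun e => hcp (h.ok.ff c hcA p hpA e)
        rw [if_neg hcp]
        rcases nbr_cases hc with ⟨a1, a2, a3⟩ | ⟨a1, a2, a3⟩ <;>
        rcases nbr_pos h.ok hm hf hc with ⟨q0, q1, q2, q3, q4, q5⟩ | ⟨q0, q1, q2, q3, q4, q5⟩
        · rw [a1, a2, a3, p1, q1]
          unfold ch nc
          split_ifs <;> omega
        · omega
        · omega
        · rw [a1, a2, a3, p1, q1]
          unfold ch nc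
          split_ifs <;> omega
    have h5 : ∑ c ∈ nbr T F A m, (if c = p then dc T F m p else 0) = dc T F m p := by
      rw [Finset.sum_ite_eq', if_pos hp]
    rw [h3, Finset.sum_congr rfl h4, Finset.sum_sub_distrib, Finset.sum_sub_distrib, h5,
      ← Finset.sum_filter, hs, ch_Fself, ch_Tself, p0] at h1
    rw [p0]
    linarith

theorem simple_V (hin : inn T F A m = ∅) {p r : C} (hp : p ∈ nbr T F A m)
    (hr : r ∈ nbr T F A m) (sp : dc T F m p = 1) (sr : dc T F m r = -1)
    (hpr : oo T F m p < oo T F m r)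
    (hb : ∀ c ∈ nbr T F A m, ¬ (oo T F m p < oo T F m c ∧ oo T F m c < oo T F m r)) :
    |2 * ((∑ c ∈ nbr T F A m,
        (if oo T F m p < oo T F m c ∧ ii T F m c < ii T F m p then dc T F m c else 0)) -
      (∑ c ∈ nbr T F A m,
        (if oo T F m r < oo T F m c ∧ ii T F m c < ii T F m r then dc T F m c else 0))) + 1| ≤
      1 + 2 * (((out T F A m).filter (fun c => oo T F m p < min (T c) (F c) ∧
        min (T c) (F c) < oo T F m r)).card : ℤ) := by
  have hpA := nbr_sub A m hp
  have hrA := nbr_sub A m hr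
  have hpr' : p ≠ r := by rintro rfl; omega
  rcases nbr_pos h.ok hm hf hp with ⟨p0, p1, p2, p3, p4, p5⟩ | ⟨p0, -⟩
  swap
  · omega
  rcases nbr_pos h.ok hm hf hr with ⟨r0, -⟩ | ⟨r0, r1, r2, r3, r4, r5⟩
  · omega
  have t1 := h.ok.tf p hpA r hrA
  have t2 := h.ok.tf r hrA p hpA
  have t3 : T p ≠ T r := fun e => hpr' (h.ok.tt p hpA r hrA e)
  have t4 : F p ≠ F r := fun e => hpr' (h.ok.ff p hpA r hrA e)
  -- the relation
  have rel : ∑ c ∈ A, (ch T F p (F c) * (1 - ch T F r (T c)) - ch T F p (T c) * (1 - ch T F r (F c)))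
      = dc T F p r := by
    have h1 := h.pair p hpA r hrA hpr'
    have h2 := h.row p hpA
    rw [← h1, ← sub_eq_zero, ← Finset.sum_sub_distrib, ← h2]
    refine Finset.sum_congr rfl fun c _ => ?_
    unfold dc; ring
  rw [sum_split (T := T) (F := F) hm, hin, Finset.sum_empty] at rel
  have hm0 : (ch T F p (F m) * (1 - ch T F r (T m)) - ch T F p (T m) * (1 - ch T F r (F m))) = 0 := by
    unfold ch nc
    split_ifs <;> omega
  have hN : ∀ c ∈ nbr T F A m,
      (ch T F p (F c) * (1 - ch T F r (T c)) - ch T F p (T c) * (1 - ch T F r (F c))) =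
      (if oo T F m p < oo T F m c ∧ ii T F m c < ii T F m p then dc T F m c else 0) -
      (if oo T F m r < oo T F m c ∧ ii T F m c < ii T F m r then dc T F m c else 0) +
      (if c = r then dc T F p r + (if ii T F m r < ii T F m p then 1 else 0) else 0) := by
    intro c hc
    have hcA := nbr_sub A m hc
    by_cases hcp : c = p
    · subst hcp
      rw [if_neg hpr', ch_Tself, ch_Fself, if_neg (by omega), if_neg (by omega)]; ring
    · by_cases hcr : c = r
      · subst hcr
        rw [if_pos rfl, ch_Tself, ch_Fself, if_neg (show ¬ (oo T F m c < oo T F m c ∧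
          ii T F m c < ii T F m c) by omega), sr]
        unfold dc
        by_cases hi : ii T F m c < ii T F m p
        · rw [if_pos ⟨hpr, hi⟩, if_pos hi]; ring
        · rw [if_neg (fun x => hi x.2), if_neg hi]; ring
      · rw [if_neg hcr]
        have u1 := h.ok.tf p hpA c hcA
        have u2 := h.ok.tf c hcA p hpA
        have u3 := h.ok.tf r hrA c hcA
        have u4 := h.ok.tf c hcA r hrA
        have u5 : T c ≠ T p := fun e => hcp (h.ok.tt c hcA p hpA e)
        have u6 : F c ≠ F p := fun e => hcp (h.ok.ff c hcA p hpA e)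
        have u7 : T c ≠ T r := fun e => hcr (h.ok.tt c hcA r hrA e)
        have u8 : F c ≠ F r := fun e => hcr (h.ok.ff c hcA r hrA e)
        have hbc := hb c hc
        rcases nbr_pos h.ok hm hf hc with ⟨q0, q1, q2, q3, q4, q5⟩ | ⟨q0, q1, q2, q3, q4, q5⟩
        · rw [p1, r1, q1] at hbc
          rw [p1, r1, p2, r2, q0, q1, q2]
          unfold ch nc
          split_ifs <;> omega
        · rw [p1, r1, q1] at hbc
          rw [p1, r1, p2, r2, q0, q1, q2]
          unfold ch nc
          split_ifs <;> omega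
  have hO : |∑ c ∈ out T F A m,
      (ch T F p (F c) * (1 - ch T F r (T c)) - ch T F p (T c) * (1 - ch T F r (F c)))| ≤
      (((out T F A m).filter (fun c => oo T F m p < min (T c) (F c) ∧
        min (T c) (F c) < oo T F m r)).card : ℤ) := by
    refine (Finset.abs_sum_le_sum_abs _ _).trans ?_
    rw [Finset.card_filter]
    push_cast
    refine Finset.sum_le_sum fun c hc => ?_
    obtain ⟨c1, c2⟩ := out_pos h.ok hm hf hc
    have hcA := out_sub A m hc
    have hcp : c ≠ p := by
      rintro rfl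
      obtain ⟨-, -, a1, a2⟩ := Finset.mem_filter.1 hc
      unfold dc at sp
      rw [a1, a2] at sp
      norm_num at sp
    have hcr : c ≠ r := by
      rintro rfl
      obtain ⟨-, -, a1, a2⟩ := Finset.mem_filter.1 hc
      unfold dc at sr
      rw [a1, a2] at sr
      norm_num at sr
    have u1 := h.ok.tf p hpA c hcA
    have u2 := h.ok.tf c hcA p hpA
    have u3 := h.ok.tf r hrA c hcA
    have u4 := h.ok.tf c hcA r hrA
    have u5 : T c ≠ T p := fun e => hcp (h.ok.tt c hcA p hpA e)
    have u6 : F c ≠ F p := fun e => hcp (h.ok.ff c hcA p hpA e)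
    have u7 : T c ≠ T r := fun e => hcr (h.ok.tt c hcA r hrA e)
    have u8 : F c ≠ F r := fun e => hcr (h.ok.ff c hcA r hrA e)
    rw [p1, r1]
    rw [p1, r1] at hpr
    rcases le_total (T c) (F c) with hTF | hTF
    · rw [min_eq_left hTF]
      unfold ch nc
      split_ifs <;> first | omega | simp
    · rw [min_eq_right hTF]
      unfold ch nc
      split_ifs <;> first | omega | simp
  have hsum : ∑ c ∈ nbr T F A m, (if c = r then dc T F p r +
      (if ii T F m r < ii T F m p then 1 else 0) else 0) =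
      dc T F p r + (if ii T F m r < ii T F m p then 1 else 0) := by
    rw [Finset.sum_ite_eq', if_pos hr]
  have hN2 : ∑ c ∈ nbr T F A m,
      (ch T F p (F c) * (1 - ch T F r (T c)) - ch T F p (T c) * (1 - ch T F r (F c))) =
      (∑ c ∈ nbr T F A m,
        (if oo T F m p < oo T F m c ∧ ii T F m c < ii T F m p then dc T F m c else 0)) -
      (∑ c ∈ nbr T F A m,
        (if oo T F m r < oo T F m c ∧ ii T F m c < ii T F m r then dc T F m c else 0)) +
      (dc T F p r + (if ii T F m r < ii T F m p then 1 else 0)) := by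
    rw [Finset.sum_congr rfl hN, Finset.sum_add_distrib, Finset.sum_sub_distrib, hsum]
  rw [hm0, hN2] at rel
  have h01 : (if ii T F m r < ii T F m p then (1 : ℤ) else 0) = 0 ∨
      (if ii T F m r < ii T F m p then (1 : ℤ) else 0) = 1 := by split_ifs <;> simp
  rw [abs_le] at hO ⊢
  constructor <;> rcases h01 with h01 | h01 <;> rw [h01] at rel <;> linarith [hO.1, hO.2]

theorem simple_bound (hin : inn T F A m = ∅) :
    |Sq T F A m| ≤ (nbr T F A m).card + 2 * ((out T F A m).card : ℤ) := by
  rw [Sq_simple h.ok hm hf h, abs_neg]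
  have h1 := alternating (nbr T F A m) (out T F A m) (oo T F m) (fun c => min (T c) (F c))
    (dc T F m) (fun a => ∑ c ∈ nbr T F A m,
      (if oo T F m a < oo T F m c ∧ ii T F m c < ii T F m a then dc T F m c else 0))
    (oo_inj h.ok hm hf) (fun c hc => by
      rcases nbr_cases hc with ⟨x, -, -⟩ | ⟨x, -, -⟩
      · exact Or.inl x
      · exact Or.inr x)
    (fun p hp => simple_W h hm hf hin hp)
    (fun p hp r hr sp sr hpr hb => simple_V h hm hf hin hp hr sp sr hpr hb)
    _ (nbr T F A m) rfl (Finset.Subset.refl _) (fun a ha b hb hab => ha) (sum_nbr h hm)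
  refine h1.trans ?_
  have h2 : (((out T F A m).filter
      (fun c => ∃ p ∈ nbr T F A m, oo T F m p < min (T c) (F c))).card : ℤ) ≤
      ((out T F A m).card : ℤ) := by
    exact_mod_cast Finset.card_filter_le _ _
  linarith

end simple3

/-! ### Rotation and reversal of a chord diagram -/
section sym

variable {C : Type}

/-- rotation of the places -/
def rt (κ M z : ℕ) : ℕ := if z < κ then z + M else z

theorem rt_inj {κ M x y : ℕ} (hx : x < M) (hy : y < M) (h : rt κ M x = rt κ M y) : x = y := by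
  unfold rt at h
  split_ifs at h <;> omega

theorem rt_nc {κ M x y z : ℕ} (hx : x < M) (hy : y < M) (hz : z < M) :
    nc (rt κ M x) (rt κ M y) (rt κ M z) ↔ nc x y z := by
  unfold rt nc
  split_ifs <;> omega

theorem Flat.congr {T F T' F' : C → ℕ} {A : Finset C} (h : Flat T F A) (hok : Ok T' F' A)
    (hT : ∀ a ∈ A, ∀ b ∈ A, ch T' F' a (T' b) = ch T F a (T b))
    (hF : ∀ a ∈ A, ∀ b ∈ A, ch T' F' a (F' b) = ch T F a (F b)) : Flat T' F' A := by
  have hd : ∀ a ∈ A, ∀ b ∈ A, dc T' F' a b = dc T F a b := by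
    intro a ha b hb
    unfold dc; rw [hT a ha b hb, hF a ha b hb]
  refine ⟨hok, fun p hp => ?_, fun p hp r hr hpr => ?_⟩
  · rw [← h.row p hp]
    exact Finset.sum_congr rfl fun c hc => hd p hp c hc
  · rw [hd p hp r hr, ← h.pair p hp r hr hpr]
    refine Finset.sum_congr rfl fun c hc => ?_
    rw [hT p hp c hc, hT r hr c hc, hF p hp c hc, hF r hr c hc]

/-- the bound for a simple arc, all rotations -/
theorem simple_bound1 {T F : C → ℕ} {A : Finset C} (h : Flat T F A) {m : C} (hm : m ∈ A)
    (hin : inn T F A m = ∅) :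
    |Sq T F A m| ≤ (nbr T F A m).card + 2 * ((out T F A m).card : ℤ) := by
  obtain ⟨M, hMT, hMF⟩ : ∃ M, (∀ c ∈ A, T c < M) ∧ (∀ c ∈ A, F c < M) := by
    refine ⟨A.sup T + A.sup F + 1, fun c hc => ?_, fun c hc => ?_⟩
    · have := Finset.le_sup (f := T) hc; omega
    · have := Finset.le_sup (f := F) hc; omega
  obtain ⟨T', hT'⟩ : ∃ T' : C → ℕ, T' = fun c => rt (T m) M (T c) := ⟨_, rfl⟩
  obtain ⟨F', hF'⟩ : ∃ F' : C → ℕ, F' = fun c => rt (T m) M (F c) := ⟨_, rfl⟩
  have cT : ∀ a ∈ A, ∀ b ∈ A, ch T' F' a (T' b) = ch T F a (T b) := by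
    intro a ha b hb
    rw [hT', hF']
    unfold ch
    simp only
    congr 1
    exact propext (rt_nc (hMT a ha) (hMT b hb) (hMF a ha))
  have cF : ∀ a ∈ A, ∀ b ∈ A, ch T' F' a (F' b) = ch T F a (F b) := by
    intro a ha b hb
    rw [hT', hF']
    unfold ch
    simp only
    congr 1
    exact propext (rt_nc (hMT a ha) (hMF b hb) (hMF a ha))
  have hok : Ok T' F' A := by
    rw [hT', hF']
    refine ⟨fun a ha b hb e => ?_, fun a ha b hb e => ?_, fun a ha b hb e => ?_⟩
    · exact h.ok.tf a ha b hb (rt_inj (hMT a ha) (hMF b hb) e)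
    · exact h.ok.tt a ha b hb (rt_inj (hMT a ha) (hMT b hb) e)
    · exact h.ok.ff a ha b hb (rt_inj (hMF a ha) (hMF b hb) e)
  have hflat : Flat T' F' A := h.congr hok cT cF
  have hd : ∀ a ∈ A, ∀ b ∈ A, dc T' F' a b = dc T F a b := by
    intro a ha b hb
    unfold dc; rw [cT a ha b hb, cF a ha b hb]
  have hfst : Fst T' F' A m := by
    rw [hT', hF']
    refine ⟨fun c hc hcm => ?_, fun c hc => ?_⟩
    · have : T c ≠ T m := fun e => hcm (h.ok.tt c hc m hm e)
      have := hMT c hc
      have := hMT m hm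
      simp only [rt]
      split_ifs <;> omega
    · have := h.ok.tf m hm c hc
      have := hMF c hc
      have := hMT m hm
      simp only [rt]
      split_ifs <;> omega
  have ein : inn T' F' A m = inn T F A m := by
    unfold inn
    refine Finset.filter_congr fun c hc => ?_
    rw [cT m hm c hc, cF m hm c hc]
  have eout : out T' F' A m = out T F A m := by
    unfold out
    refine Finset.filter_congr fun c hc => ?_
    rw [cT m hm c hc, cF m hm c hc]
  have enbr : nbr T' F' A m = nbr T F A m := by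
    unfold nbr
    refine Finset.filter_congr fun c hc => ?_
    rw [hd m hm c hc]
  have eSq : Sq T' F' A m = Sq T F A m := by
    unfold Sq
    refine Finset.sum_congr rfl fun a ha => Finset.sum_congr rfl fun c hc => ?_
    rw [hd a ha c hc, hd m hm a ha, hd m hm c hc]
  have := simple_bound hflat hm hfst (by rw [ein]; exact hin)
  rwa [eout, enbr, eSq] at this

theorem flip_ch {T F : C → ℕ} {A : Finset C} (h : Ok T F A) {a : C} (ha : a ∈ A) {z : ℕ}
    (h1 : z ≠ T a) (h2 : z ≠ F a) : ch F T a z = 1 - ch T F a z := by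
  have := h.tf a ha a ha
  unfold ch nc
  split_ifs <;> omega

theorem flip_dc {T F : C → ℕ} {A : Finset C} (h : Ok T F A) {a b : C} (ha : a ∈ A) (hb : b ∈ A) :
    dc F T a b = dc T F a b := by
  by_cases hab : a = b
  · subst hab; rw [dc_self, dc_self]
  · have h1 := h.tf a ha b hb
    have h2 := h.tf b hb a ha
    have h3 : T b ≠ T a := fun e => hab (h.tt b hb a ha e).symm
    have h4 : F b ≠ F a := fun e => hab (h.ff b hb a ha e).symm
    unfold dc
    rw [flip_ch h ha h3 h2, flip_ch h ha h1.symm h4]; ring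

theorem flip_ok {T F : C → ℕ} {A : Finset C} (h : Ok T F A) : Ok F T A :=
  ⟨fun a ha b hb e => h.tf b hb a ha e.symm, h.ff, h.tt⟩

theorem flip_flat {T F : C → ℕ} {A : Finset C} (h : Flat T F A) : Flat F T A := by
  refine ⟨flip_ok h.ok, fun p hp => ?_, fun p hp r hr hpr => ?_⟩
  · rw [← h.row p hp]
    exact Finset.sum_congr rfl fun c hc => flip_dc h.ok hp hc
  · have e : ∀ c ∈ A, (ch F T p (F c) * ch F T r (T c) - ch F T p (T c) * ch F T r (F c)) =
        - dc T F p c + dc T F r c - (ch T F p (T c) * ch T F r (F c) - ch T F p (F c) * ch T F r (T c))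
        + (if c = p then dc T F p r else 0) + (if c = r then dc T F p r else 0) := by
      intro c hc
      by_cases hcp : c = p
      · subst hcp
        rw [if_pos rfl, if_neg hpr, dc_self, ch_Fself, ch_Tself, ch_Fself, ch_Tself,
          h.ok.anti hr hp]
        ring
      · by_cases hcr : c = r
        · subst hcr
          rw [if_pos rfl, if_neg hcp, dc_self, ch_Fself, ch_Tself, ch_Fself, ch_Tself]
          ring
        · rw [if_neg hcp, if_neg hcr]
          have h1 : T c ≠ T p := fun e => hcp (h.ok.tt c hc p hp e)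
          have h2 : F c ≠ F p := fun e => hcp (h.ok.ff c hc p hp e)
          have h3 : T c ≠ T r := fun e => hcr (h.ok.tt c hc r hr e)
          have h4 : F c ≠ F r := fun e => hcr (h.ok.ff c hc r hr e)
          have h5 := h.ok.tf c hc p hp
          have h6 := h.ok.tf c hc r hr
          have h7 := h.ok.tf p hp c hc
          have h8 := h.ok.tf r hr c hc
          rw [flip_ch h.ok hp h1 h5, flip_ch h.ok hp h7.symm h2, flip_ch h.ok hr h3 h6,
            flip_ch h.ok hr h8.symm h4]
          unfold dc; ring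
    rw [flip_dc h.ok hp hr, Finset.sum_congr rfl e, Finset.sum_add_distrib, Finset.sum_add_distrib,
      Finset.sum_ite_eq', if_pos hp, Finset.sum_ite_eq', if_pos hr]
    have e2 : ∑ c ∈ A, (- dc T F p c + dc T F r c - (ch T F p (T c) * ch T F r (F c) -
        ch T F p (F c) * ch T F r (T c))) = - dc T F p r := by
      rw [Finset.sum_sub_distrib, h.pair p hp r hr hpr, Finset.sum_add_distrib,
        Finset.sum_neg_distrib, h.row p hp, h.row r hr]
      ring
    rw [e2]; ring

theorem simple_bound2 {T F : C → ℕ} {A : Finset C} (h : Flat T F A) {m : C} (hm : m ∈ A)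
    (hout : out T F A m = ∅) :
    |Sq T F A m| ≤ (nbr T F A m).card + 2 * ((inn T F A m).card : ℤ) := by
  have hne : ∀ c ∈ A, c ≠ m → T c ≠ T m ∧ T c ≠ F m ∧ F c ≠ T m ∧ F c ≠ F m := by
    intro c hc hcm
    exact ⟨fun e => hcm (h.ok.tt c hc m hm e), h.ok.tf c hc m hm, (h.ok.tf m hm c hc).symm,
      fun e => hcm (h.ok.ff c hc m hm e)⟩
  have ein : inn F T A m = out T F A m := by
    unfold inn out
    refine Finset.filter_congr fun c hc => ?_
    by_cases hcm : c = m
    · subst hcm
      simp [ch_Fself, ch_Tself]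
    · obtain ⟨h1, h2, h3, h4⟩ := hne c hc hcm
      rw [flip_ch h.ok hm h1 h2, flip_ch h.ok hm h3 h4]
      constructor
      · rintro ⟨a, b⟩; exact ⟨hcm, by omega, by omega⟩
      · rintro ⟨-, a, b⟩; exact ⟨by omega, by omega⟩
  have eout : out F T A m = inn T F A m := by
    unfold inn out
    refine Finset.filter_congr fun c hc => ?_
    by_cases hcm : c = m
    · subst hcm
      simp [ch_Fself, ch_Tself]
    · obtain ⟨h1, h2, h3, h4⟩ := hne c hc hcm
      rw [flip_ch h.ok hm h1 h2, flip_ch h.ok hm h3 h4]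
      constructor
      · rintro ⟨-, a, b⟩; exact ⟨by omega, by omega⟩
      · rintro ⟨a, b⟩; exact ⟨hcm, by omega, by omega⟩
  have enbr : nbr F T A m = nbr T F A m := by
    unfold nbr
    refine Finset.filter_congr fun c hc => ?_
    rw [flip_dc h.ok hm hc]
  have eSq : Sq F T A m = Sq T F A m := by
    unfold Sq
    refine Finset.sum_congr rfl fun a ha => Finset.sum_congr rfl fun c hc => ?_
    rw [flip_dc h.ok ha hc, flip_dc h.ok hm ha, flip_dc h.ok hm hc]
  have := simple_bound1 (flip_flat h) hm (by rw [ein]; exact hout)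
  rwa [eout, enbr, eSq] at this

/-- there is a chord with a simple arc -/
theorem exists_simple {T F : C → ℕ} {A : Finset C} (h : Ok T F A) (hA : A.Nonempty) :
    ∃ m ∈ A, inn T F A m = ∅ ∨ out T F A m = ∅ := by
  obtain ⟨m, hm, hmin⟩ := Finset.exists_min_image A (fun c => (T c - F c) + (F c - T c)) hA
  refine ⟨m, hm, ?_⟩
  have h0 := h.tf m hm m hm
  rcases lt_or_gt_of_ne h0 with h1 | h1
  · left
    rw [Finset.eq_empty_iff_forall_notMem]
    intro c hc
    obtain ⟨hcA, a1, a2⟩ := Finset.mem_filter.1 hc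
    have := hmin c hcA
    rw [ch_one] at a1 a2
    unfold nc at a1 a2
    omega
  · right
    rw [Finset.eq_empty_iff_forall_notMem]
    intro c hc
    obtain ⟨hcA, hcm, a1, a2⟩ := Finset.mem_filter.1 hc
    have := hmin c hcA
    have t1 : T c ≠ T m := fun e => hcm (h.tt c hcA m hm e)
    have t2 : F c ≠ F m := fun e => hcm (h.ff c hcA m hm e)
    have t3 := h.tf c hcA m hm
    have t4 := h.tf m hm c hcA
    rw [ch_zero] at a1 a2
    unfold nc at a1 a2
    omega

theorem Sq_trivial {T F : C → ℕ} {A : Finset C} {m : C} (hm : m ∈ A) :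
    |Sq T F A m| ≤ ((nbr T F A m).card : ℤ) ^ 2 := by
  rw [Sq_nbr hm]
  refine (Finset.abs_sum_le_sum_abs _ _).trans ?_
  have : ∀ a ∈ nbr T F A m, |∑ c ∈ nbr T F A m, dc T F a c ^ 2 * (dc T F m a * dc T F m c)| ≤
      ((nbr T F A m).card : ℤ) := by
    intro a _
    refine (Finset.abs_sum_le_sum_abs _ _).trans ?_
    rw [← nsmul_one, ← Finset.sum_const]
    refine Finset.sum_le_sum fun c _ => ?_
    rcases dc_cases (T := T) (F := F) a c with h1 | h1 | h1 <;>
    rcases dc_cases (T := T) (F := F) m a with h2 | h2 | h2 <;>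
    rcases dc_cases (T := T) (F := F) m c with h3 | h3 | h3 <;> rw [h1, h2, h3] <;> norm_num
  refine (Finset.sum_le_sum this).trans ?_
  rw [Finset.sum_const, nsmul_eq_mul, pow_two]

theorem real_step (n ν k X S : ℝ) (hν : 0 ≤ ν) (hk : 0 ≤ k) (hn : n = 1 + ν + k)
    (hX : |X| ≤ 2 * (k * √k)) (h1 : |S| ≤ ν ^ 2) (h2 : |S| ≤ ν + 2 * k) :
    |X + S| ≤ 2 * (n * √n) := by
  have hs0 := Real.sqrt_nonneg k
  have ht0 := Real.sqrt_nonneg n
  have hs2 : √k * √k = k := Real.mul_self_sqrt hk
  have hn0 : 0 ≤ n := by linarith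
  have ht2 : √n * √n = n := Real.mul_self_sqrt hn0
  have hst : √k ≤ √n := Real.sqrt_le_sqrt (by linarith)
  have ht1 : 1 ≤ √n := by rw [Real.one_le_sqrt]; linarith
  set s := √k
  set t := √n
  have hXS := abs_add_le X S
  have e1 : n * t - k * s ≥ 3 / 2 * s * (1 + ν) := by
    have : n * t - k * s - 3 / 2 * s * (1 + ν) = (t - s) ^ 2 * (2 * t + s) / 2 := by
      have : 1 + ν = t * t - s * s := by rw [ht2, hs2, hn]; ring
      rw [this, ← ht2, ← hs2]; ring
    have h3 : 0 ≤ (t - s) ^ 2 * (2 * t + s) / 2 := by positivity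
    linarith
  have e2 : n * t - k * s ≥ ν := by
    have : n * t - k * s - t * (1 + ν) = k * (t - s) := by rw [hn]; ring
    have h3 : 0 ≤ k * (t - s) := mul_nonneg hk (by linarith)
    nlinarith
  rcases le_total ν (3 * s) with hc | hc
  · have : ν ^ 2 ≤ 3 * s * (1 + ν) := by nlinarith [mul_nonneg hν (sub_nonneg.2 hc)]
    linarith
  · have : 2 * k ≤ 3 / 2 * s * (1 + ν) := by
      rw [← hs2]
      nlinarith [mul_nonneg hs0 (sub_nonneg.2 hc)]
    linarith

/-- the bound for the quadratic sum of a planar chord diagram -/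
theorem Bq_bound : ∀ (n : ℕ) (T F : C → ℕ) (A : Finset C), A.card = n → Flat T F A →
    |(Bq T F A : ℝ)| ≤ 2 * ((n : ℝ) * √(n : ℝ)) := by
  intro n
  induction n using Nat.strong_induction_on with
  | _ n ih =>
  intro T F A hcard h
  rcases A.eq_empty_or_nonempty with he | hne
  · subst he
    simp only [Finset.card_empty] at hcard
    subst hcard
    simp [Bq]
  · obtain ⟨m, hm, hsim⟩ := exists_simple h.ok hne
    have hrec := Bq_rec h hm
    have hcs := card_split (T := T) (F := F) hm
    rw [hcard] at hcs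
    have ht : |((Sq T F A m : ℤ) : ℝ)| ≤ ((nbr T F A m).card : ℝ) ^ 2 := by
      have := Sq_trivial (T := T) (F := F) hm
      exact_mod_cast this
    rcases hsim with hin | hou
    · have hs := simple_bound1 h hm hin
      rw [hin] at hrec hcs
      have hB0 : Bq T F (∅ : Finset C) = 0 := by simp [Bq]
      rw [hB0, zero_add] at hrec
      rw [Finset.card_empty, zero_add] at hcs
      have hi := ih _ (by omega) T F (out T F A m) rfl (flat_out h hm)
      rw [hrec]
      push_cast
      refine real_step n (nbr T F A m).card (out T F A m).card _ _ (by positivity) (by positivity)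
        (by rw [hcs]; push_cast; ring) hi ht ?_
      exact_mod_cast hs
    · have hs := simple_bound2 h hm hou
      rw [hou] at hrec hcs
      have hB0 : Bq T F (∅ : Finset C) = 0 := by simp [Bq]
      rw [hB0, add_zero] at hrec
      rw [Finset.card_empty, add_zero] at hcs
      have hi := ih _ (by omega) T F (inn T F A m) rfl (flat_inn h hm)
      rw [hrec]
      push_cast
      refine real_step n (nbr T F A m).card (inn T F A m).card _ _ (by positivity) (by positivity)
        (by rw [hcs]; push_cast; ring) hi ht ?_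
      exact_mod_cast hs

/-- the bound for the quadratic sums of the neighbours -/
theorem Sq_bound {T F : C → ℕ} {A : Finset C} (h : Flat T F A) {m : C} (hm : m ∈ A) :
    |((Sq T F A m : ℤ) : ℝ)| ≤ 6 * ((A.card : ℝ) * √(A.card : ℝ)) := by
  have h1 := Bq_bound _ T F A rfl h
  have h2 := Bq_bound _ T F (inn T F A m) rfl (flat_inn h hm)
  have h3 := Bq_bound _ T F (out T F A m) rfl (flat_out h hm)
  have mono : ∀ B : Finset C, B ⊆ A → ((B.card : ℝ) * √(B.card : ℝ)) ≤ ((A.card : ℝ) * √(A.card : ℝ)) := by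
    intro B hB
    have : (B.card : ℝ) ≤ A.card := by exact_mod_cast Finset.card_le_card hB
    exact mul_le_mul this (Real.sqrt_le_sqrt this) (Real.sqrt_nonneg _) (by positivity)
  have m1 := mono _ (inn_sub (T := T) (F := F) A m)
  have m2 := mono _ (out_sub (T := T) (F := F) A m)
  have e : ((Sq T F A m : ℤ) : ℝ) = (Bq T F A : ℝ) - (Bq T F (inn T F A m) : ℝ) -
      (Bq T F (out T F A m) : ℝ) := by
    rw [Bq_rec h hm]; push_cast; ring
  rw [e]
  rw [abs_le] at *
  constructor <;> linarith [h1.1, h1.2, h2.1, h2.2, h3.1, h3.2]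

end sym

end Pool.Agent.H86.VR.Fl
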