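import Mathlib

namespace Pool.Agent.H86.VR.Graph


/-- polynomial inequality, case `r ≤ M` -/
theorem RA (r m : ℝ) (hm : 0 ≤ m) (hmr : 4 * m ≤ r) (hr : 2 * r ^ 2 ≤ 1) :
    0 ≤ 3 * r - 15 / 4 * r ^ 2 + m * (-3 + 9 / 4 * r) + 14 * m ^ 2 := by
  have hr0 : 0 ≤ r := by linarith
  have hr1 : r ≤ 5 / 7 := by nlinarith
  by_cases h : r ≤ 3 / 5
  · nlinarith
  · push Not at h
    nlinarith [sq_nonneg (m - (3 - 9/4*r)/28)]


theorem RW (t : ℝ) (h0 : 0 ≤ t) (h1 : t ≤ 13/5) :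
    0 ≤ (-3729/32 + 18 * t - 99/8 * t^2 + 15/2 * t^3 - 9/8 * t^4) +
      7071/10000 * (363/2 - 63/2 * t + 9 * t^2 - 3 * t^3) := by
  by_cases h : t ≤ 13/10
  · nlinarith [mul_nonneg h0 (sub_nonneg.2 h), mul_nonneg h0 h0, mul_nonneg (mul_nonneg h0 h0) h0,
      mul_nonneg (mul_nonneg h0 (sub_nonneg.2 h)) h0, mul_nonneg (mul_nonneg h0 (sub_nonneg.2 h)) (sub_nonneg.2 h),
      mul_nonneg (mul_nonneg (mul_nonneg h0 (sub_nonneg.2 h)) h0) h0]
  · push Not at h
    have h2 : 0 ≤ t - 13/10 := by linarith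
    have h3 : 0 ≤ 13/5 - t := by linarith
    nlinarith [mul_nonneg h2 h3, mul_nonneg (mul_nonneg h2 h3) h2, mul_nonneg (mul_nonneg h2 h3) h3,
      mul_nonneg (mul_nonneg h2 h3) (mul_nonneg h2 h3), mul_nonneg (mul_nonneg h2 h3) (mul_nonneg h2 h2),
      mul_nonneg (mul_nonneg h2 h3) (mul_nonneg h3 h3), sq_nonneg (t - 2)]

theorem RB (M t m : ℝ) (hM0 : 0 < M) (hM : 2 * M ^ 2 = 1) (h0 : 0 ≤ t) (h1 : t ≤ 4 - 2 * M) :
    0 ≤ (3 * M - 15/8) + (3/2 * M * t^2 + (3 - 15/2 * M) * t - 3 + 9/4 * M) * m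
      + (t^3/2 - 15/4 * t^2 + 9/4 * t + 14) * m^2 := by
  have hM1 : 7071/10000 ≤ M := by nlinarith
  have hM2 : M ≤ 70711/100000 := by nlinarith
  have ht : t ≤ 13/5 := by linarith
  have hA : 0 < 3 * M - 15/8 := by linarith
  have hV : 0 ≤ 363/2 - 63/2 * t + 9 * t^2 - 3 * t^3 := by
    nlinarith [mul_nonneg h0 (sub_nonneg.2 ht), mul_nonneg (mul_nonneg h0 h0) (sub_nonneg.2 ht)]
  have hd : (3/2 * M * t^2 + (3 - 15/2 * M) * t - 3 + 9/4 * M)^2 ≤
      4 * (3 * M - 15/8) * (t^3/2 - 15/4 * t^2 + 9/4 * t + 14) := by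
    have hW := RW t h0 ht
    have e : 4 * (3 * M - 15/8) * (t^3/2 - 15/4 * t^2 + 9/4 * t + 14) -
      (3/2 * M * t^2 + (3 - 15/2 * M) * t - 3 + 9/4 * M)^2 =
      (-3729/32 + 18 * t - 99/8 * t^2 + 15/2 * t^3 - 9/8 * t^4) +
      M * (363/2 - 63/2 * t + 9 * t^2 - 3 * t^3) := by
      have : M^2 = 1/2 := by linarith
      ring_nf
      rw [this]
      ring
    nlinarith [mul_nonneg (sub_nonneg.2 hM1) hV]
  set A := 3 * M - 15/8 with hAd
  set B := 3/2 * M * t^2 + (3 - 15/2 * M) * t - 3 + 9/4 * M with hB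
  set C := t^3/2 - 15/4 * t^2 + 9/4 * t + 14 with hC
  have h4 : 0 ≤ 4 * A * (A + B * m + C * m^2) := by
    have : 4 * A * (A + B * m + C * m^2) = (2*A + B*m)^2 + (4*A*C - B^2) * m^2 := by ring
    rw [this]
    have := mul_nonneg (sub_nonneg.2 hd) (sq_nonneg m)
    nlinarith [sq_nonneg (2*A+B*m)]
  by_contra hcon
  push Not at hcon
  nlinarith [mul_pos hA (neg_pos.2 hcon)]
theorem Rnorm (p m b w i σ : ℝ) (hm : 0 ≤ m) (hmp : m ≤ p) (hn : p + m = 1) (hb : 0 ≤ b)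
    (hbp : b ≤ p) (hw0 : 0 ≤ w) (hw : w ≤ m^2) (hi : 0 ≤ i) (hσ0 : 0 ≤ σ)
    (hσ : σ^2 = 2*p*m + b^2 + w + 2*i) (hq : 2*σ^2 ≤ 1) :
    b^3 + 15/4*m*b^2 + 9/4*m^2*b + 3*b*i + 3*w*(p+2*m) + 12*m*i - 4*m^3 ≤ σ^3 := by
  have hp : p = 1 - m := by linarith
  have hi' : i = (σ^2 - 2*p*m - b^2 - w)/2 := by linarith
  -- the key identity
  have key : σ^3 - (b^3 + 15/4*m*b^2 + 9/4*m^2*b + 3*b*i + 3*w*(p+2*m) + 12*m*i - 4*m^3) =
      (σ - (b+4*m))^2*(σ + (b+4*m)/2) +
      m * (3 * (b+4*m) - 15 / 4 * (b+4*m) ^ 2 + m * (-3 + 9 / 4 * (b+4*m)) + 14 * m ^ 2) +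
      (m^2 - w) * (3 * p - 3/2 * b) := by
    rw [hi', hp]; ring
  have h3 : 0 ≤ (m^2 - w) * (3 * p - 3/2 * b) := mul_nonneg (by linarith) (by linarith)
  suffices h : 0 ≤ (σ - (b+4*m))^2*(σ + (b+4*m)/2) +
      m * (3 * (b+4*m) - 15 / 4 * (b+4*m) ^ 2 + m * (-3 + 9 / 4 * (b+4*m)) + 14 * m ^ 2) by
    linarith
  set r := b + 4*m with hr
  have hr0 : 0 ≤ r := by positivity
  by_cases hc : 2 * r^2 ≤ 1
  · have h1 := RA r m hm (by linarith) hc
    have h2 : 0 ≤ (σ - r)^2*(σ + r/2) := by positivity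
    have h4 := mul_nonneg hm h1
    linarith
  · push Not at hc
    -- M = sqrt (1/2)
    obtain ⟨M, hM0, hM⟩ : ∃ M : ℝ, 0 < M ∧ 2 * M^2 = 1 := by
      refine ⟨Real.sqrt (1/2), by positivity, ?_⟩
      rw [Real.sq_sqrt (by norm_num)]; norm_num
    have hMr : M < r := by
      by_contra h; push Not at h
      have := mul_le_mul h h hr0 hM0.le
      linarith [pow_two r, pow_two M]
    have hσM : σ ≤ M := by
      by_contra h; push Not at h
      have := mul_lt_mul'' h h hM0.le hM0.le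
      linarith [pow_two σ, pow_two M]
    have hf : (M - r)^2*(M + r/2) ≤ (σ - r)^2*(σ + r/2) := by
      have e : (σ - r)^2*(σ + r/2) - (M - r)^2*(M + r/2) =
        (M - σ) * (3/2 * r * (σ + M) - (σ^2 + σ * M + M^2)) := by ring
      have h5 : 0 ≤ 3/2 * r * (σ + M) - (σ^2 + σ * M + M^2) := by
        have : 3/2 * M * (σ + M) ≤ 3/2 * r * (σ + M) := by
          apply mul_le_mul_of_nonneg_right _ (by linarith); linarith
        have q1 := mul_nonneg hσ0 (sub_nonneg.2 hσM)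
        have q2 := mul_nonneg hM0.le (sub_nonneg.2 hσM)
        have q3 : 3/2 * M * (σ + M) - (σ^2 + σ * M + M^2) = 
          σ * (M - σ) + 1/2 * (M * (M - σ)) := by ring
        linarith
      have := mul_nonneg (sub_nonneg.2 hσM) h5
      linarith
    have hm1 : 0 ≤ 1 - 2*m := by linarith
    have hbM : b ≤ M * (1 - 2*m) := by
      have h6 : b^2 ≤ (M * (1 - 2*m))^2 := by
        rw [mul_pow]
        have : M^2 = 1/2 := by linarith
        rw [this]
        rw [hp] at hσ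
        linarith [show (1 - 2*m)^2 = 1 - 4*m*(1-m) by ring]
      exact abs_le_of_sq_le_sq' h6 (mul_nonneg hM0.le hm1) |>.2
    have hd : r - M ≤ (4 - 2*M) * m := by rw [hr]; linarith
    have hmpos : 0 < m := by
      rcases hm.lt_or_eq with h | h
      · exact h
      · rw [← h] at hd; linarith
    have ht1 : (r - M)/m ≤ 4 - 2*M := by rw [div_le_iff₀ hmpos]; exact hd
    have ht0 : 0 ≤ (r - M)/m := by apply div_nonneg <;> linarith
    have hB := RB M ((r-M)/m) m hM0 hM ht0 ht1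
    have hB2 := mul_nonneg hm hB
    have e2 : m * ((3 * M - 15/8) + (3/2 * M * ((r-M)/m)^2 + (3 - 15/2 * M) * ((r-M)/m) - 3 + 9/4 * M) * m
      + (((r-M)/m)^3/2 - 15/4 * ((r-M)/m)^2 + 9/4 * ((r-M)/m) + 14) * m^2) =
      (M - r)^2*(M + r/2) +
      m * (3 * r - 15 / 4 * r ^ 2 + m * (-3 + 9 / 4 * r) + 14 * m ^ 2) + (2*M^2-1) * (15/8*m) := by
      field_simp
      ring
    rw [e2, hM] at hB2
    linarith

/-- the homogeneous form -/
theorem Rhom (p m b w i σ : ℝ) (hm : 0 ≤ m) (hmp : m ≤ p) (hb : 0 ≤ b)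
    (hbp : b ≤ p) (hw0 : 0 ≤ w) (hw : w ≤ m^2) (hi : 0 ≤ i) (hσ0 : 0 ≤ σ)
    (hσ : σ^2 = 2*p*m + b^2 + w + 2*i) (hq : 2*σ^2 ≤ (p+m)^2) :
    b^3 + 15/4*m*b^2 + 9/4*m^2*b + 3*b*i + 3*w*(p+2*m) + 12*m*i - 4*m^3 ≤ σ^3 := by
  rcases (add_nonneg (hm.trans hmp) hm).lt_or_eq with hn | hn
  · set n := p + m with hnd
    have hn' : n ≠ 0 := hn.ne'
    have h := Rnorm (p/n) (m/n) (b/n) (w/n^2) (i/n^2) (σ/n) (by positivity)
      (by gcongr) (by field_simp; linarith) (by positivity) (by gcongr) (by positivity)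
      (by rw [div_pow]; gcongr) (by positivity) (by positivity)
      (by field_simp; linarith) (by
        rw [div_pow, ← mul_div_assoc, div_le_one (by positivity)]; exact hq)
    have h2 := mul_le_mul_of_nonneg_left h (show 0 ≤ n^3 by positivity)
    have e1 : n^3 * ((b/n)^3 + 15/4*(m/n)*(b/n)^2 + 9/4*(m/n)^2*(b/n) + 3*(b/n)*(i/n^2) + 3*(w/n^2)*((p/n)+2*(m/n)) + 12*(m/n)*(i/n^2) - 4*(m/n)^3) =
      b^3 + 15/4*m*b^2 + 9/4*m^2*b + 3*b*i + 3*w*(p+2*m) + 12*m*i - 4*m^3 := by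
      field_simp
    have e2 : n^3 * (σ/n)^3 = σ^3 := by field_simp
    rw [e1, e2] at h2
    exact h2
  · have hm0 : m = 0 := by linarith
    have hp0 : p = 0 := by linarith
    have hb0 : b = 0 := by linarith
    have hw00 : w = 0 := by rw [hm0] at hw; nlinarith
    rw [hm0, hp0, hb0, hw00]
    have : 0 ≤ σ^3 := by positivity
    nlinarith

open Finset

section weights

variable {V : Type} [Fintype V] (J : V → V → ℝ)

/-- total weight -/
def s1 (x : V → ℝ) : ℝ := ∑ a, x a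
/-- weighted number of edges -/
def s2 (x y : V → ℝ) : ℝ := ∑ a, ∑ b, x a * y b * J a b
/-- weighted number of triangles -/
def s3 (x y z : V → ℝ) : ℝ := ∑ a, ∑ b, ∑ c, x a * y b * z c * (J a b * J b c * J c a)

theorem s1_sub (x y : V → ℝ) : s1 (x - y) = s1 x - s1 y := by
  simp [s1, Finset.sum_sub_distrib]
theorem s2_sub_left (x y z : V → ℝ) : s2 J (x - y) z = s2 J x z - s2 J y z := by
  simp only [s2, Pi.sub_apply, sub_mul, Finset.sum_sub_distrib]
theorem s2_add_left (x y z : V → ℝ) : s2 J (x + y) z = s2 J x z + s2 J y z := by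
  simp only [s2, Pi.add_apply, add_mul, Finset.sum_add_distrib]
theorem s3_sub_left (x y z w : V → ℝ) : s3 J (x - y) z w = s3 J x z w - s3 J y z w := by
  simp only [s3, Pi.sub_apply, sub_mul, Finset.sum_sub_distrib]
theorem s3_add_left (x y z w : V → ℝ) : s3 J (x + y) z w = s3 J x z w + s3 J y z w := by
  simp only [s3, Pi.add_apply, add_mul, Finset.sum_add_distrib]

variable (hs : ∀ a b, J a b = J b a)
include hs

theorem s2_comm (x y : V → ℝ) : s2 J x y = s2 J y x := by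
  unfold s2
  rw [Finset.sum_comm]
  refine Finset.sum_congr rfl fun a _ => Finset.sum_congr rfl fun b _ => ?_
  rw [hs b a]; ring

theorem s3_c12 (x y z : V → ℝ) : s3 J x y z = s3 J y x z := by
  unfold s3
  rw [Finset.sum_comm]
  refine Finset.sum_congr rfl fun a _ => Finset.sum_congr rfl fun b _ =>
    Finset.sum_congr rfl fun c _ => ?_
  rw [hs b a, hs a c, hs c b]; ring

theorem s3_c23 (x y z : V → ℝ) : s3 J x y z = s3 J x z y := by
  unfold s3
  refine Finset.sum_congr rfl fun a _ => ?_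
  rw [Finset.sum_comm]
  refine Finset.sum_congr rfl fun b _ =>
    Finset.sum_congr rfl fun c _ => ?_
  rw [hs a c, hs c b, hs b a]; ring

theorem s2_sq_add (x y : V → ℝ) : s2 J (x + y) (x + y) = s2 J x x + 2 * s2 J x y + s2 J y y := by
  rw [s2_add_left, s2_comm J hs x (x + y), s2_comm J hs y (x + y), s2_add_left, s2_add_left,
    s2_comm J hs y x]
  ring

theorem s2_sq_sub (x y : V → ℝ) : s2 J (x - y) (x - y) = s2 J x x - 2 * s2 J x y + s2 J y y := by
  rw [s2_sub_left, s2_comm J hs x (x - y), s2_comm J hs y (x - y), s2_sub_left, s2_sub_left,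
    s2_comm J hs y x]
  ring

theorem s3_cube_add (x y : V → ℝ) : s3 J (x + y) (x + y) (x + y) =
    s3 J x x x + 3 * s3 J x x y + 3 * s3 J x y y + s3 J y y y := by
  have h1 : ∀ a b : V → ℝ, s3 J a b (x + y) = s3 J a b x + s3 J a b y := by
    intro a b
    rw [s3_c23 J hs a b (x + y), s3_c12 J hs a (x + y) b, s3_add_left, s3_c12 J hs x a b,
      s3_c12 J hs y a b, s3_c23 J hs a x b, s3_c23 J hs a y b]
  have h2 : ∀ a b : V → ℝ, s3 J a (x + y) b = s3 J a x b + s3 J a y b := by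
    intro a b
    rw [s3_c12 J hs a (x + y) b, s3_add_left, s3_c12 J hs x a b, s3_c12 J hs y a b]
  rw [h1, h2, h2, s3_add_left, s3_add_left, s3_add_left, s3_add_left]
  rw [s3_c12 J hs y x x, s3_c23 J hs x y x, s3_c12 J hs y x y, s3_c23 J hs y y x,
    s3_c12 J hs y x y]
  ring

theorem s3_cube_sub (x y : V → ℝ) : s3 J (x - y) (x - y) (x - y) =
    s3 J x x x - 3 * s3 J x x y + 3 * s3 J x y y - s3 J y y y := by
  have h1 : ∀ a b : V → ℝ, s3 J a b (x - y) = s3 J a b x - s3 J a b y := by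
    intro a b
    rw [s3_c23 J hs a b (x - y), s3_c12 J hs a (x - y) b, s3_sub_left, s3_c12 J hs x a b,
      s3_c12 J hs y a b, s3_c23 J hs a x b, s3_c23 J hs a y b]
  have h2 : ∀ a b : V → ℝ, s3 J a (x - y) b = s3 J a x b - s3 J a y b := by
    intro a b
    rw [s3_c12 J hs a (x - y) b, s3_sub_left, s3_c12 J hs x a b, s3_c12 J hs y a b]
  rw [h1, h2, h2, s3_sub_left, s3_sub_left, s3_sub_left, s3_sub_left]
  rw [s3_c12 J hs y x x, s3_c23 J hs x y x, s3_c12 J hs y x y, s3_c23 J hs y y x,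
    s3_c12 J hs y x y]
  ring

end weights

section bounds

variable {V : Type} [Fintype V] {J : V → V → ℝ}

/-- a function with values in the unit interval -/
def zo {α : Type} (x : α → ℝ) : Prop := ∀ a, 0 ≤ x a ∧ x a ≤ 1

theorem zo_nonneg {α : Type} {x : α → ℝ} (h : zo x) (a : α) : 0 ≤ x a := (h a).1
theorem zo_le {α : Type} {x : α → ℝ} (h : zo x) (a : α) : x a ≤ 1 := (h a).2

theorem s1_nonneg {x : V → ℝ} (hx : zo x) : 0 ≤ s1 x :=
  Finset.sum_nonneg fun a _ => zo_nonneg hx a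

variable (hJ : ∀ a, zo (J a))
include hJ

theorem s2_nonneg {x y : V → ℝ} (hx : zo x) (hy : zo y) : 0 ≤ s2 J x y :=
  Finset.sum_nonneg fun a _ => Finset.sum_nonneg fun b _ =>
    mul_nonneg (mul_nonneg (zo_nonneg hx a) (zo_nonneg hy b)) (zo_nonneg (hJ a) b)

theorem s3_nonneg {x y z : V → ℝ} (hx : zo x) (hy : zo y) (hz : zo z) : 0 ≤ s3 J x y z :=
  Finset.sum_nonneg fun a _ => Finset.sum_nonneg fun b _ => Finset.sum_nonneg fun c _ =>
    mul_nonneg (mul_nonneg (mul_nonneg (zo_nonneg hx a) (zo_nonneg hy b)) (zo_nonneg hz c))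
      (mul_nonneg (mul_nonneg (zo_nonneg (hJ a) b) (zo_nonneg (hJ b) c)) (zo_nonneg (hJ c) a))

theorem s2_le {x y : V → ℝ} (hx : zo x) (hy : zo y) : s2 J x y ≤ s1 x * s1 y := by
  unfold s2 s1
  rw [Finset.sum_mul_sum]
  refine Finset.sum_le_sum fun a _ => Finset.sum_le_sum fun b _ => ?_
  exact mul_le_of_le_one_right (mul_nonneg (zo_nonneg hx a) (zo_nonneg hy b)) (zo_le (hJ a) b)

theorem s3_le {x y z : V → ℝ} (hx : zo x) (hy : zo y) (hz : zo z) :
    s3 J x y z ≤ s1 x * s2 J y z := by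
  unfold s3 s2 s1
  rw [Finset.sum_mul]
  refine Finset.sum_le_sum fun a _ => ?_
  rw [Finset.mul_sum]
  refine Finset.sum_le_sum fun b _ => ?_
  rw [Finset.mul_sum]
  refine Finset.sum_le_sum fun c _ => ?_
  have h1 := zo_nonneg hx a
  have h2 := zo_nonneg hy b
  have h3 := zo_nonneg hz c
  have e1 : x a * y b * z c * (J a b * J b c * J c a) = (x a * (y b * z c * J b c)) * (J a b * J c a) := by
    ring
  rw [e1]
  apply mul_le_of_le_one_right (by have := zo_nonneg (hJ b) c; positivity)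
  calc J a b * J c a ≤ 1 * 1 := mul_le_mul (zo_le (hJ a) b) (zo_le (hJ c) a) (zo_nonneg (hJ c) a) zero_le_one
    _ = 1 := one_mul 1

/-- the discrete Loomis–Whitney inequality -/
theorem loomis {x y z : V → ℝ} (hx : zo x) (hy : zo y) (hz : zo z) :
    (s3 J x y z) ^ 2 ≤ s2 J x y * s2 J y z * s2 J z x := by
  have e1 : s3 J x y z = ∑ u ∈ (univ : Finset V) ×ˢ (univ : Finset V),
      (√(x u.1 * y u.2) * J u.1 u.2) * (√(x u.1 * y u.2) * ∑ c, z c * (J u.2 c * J c u.1)) := by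
    rw [Finset.sum_product]
    unfold s3
    refine Finset.sum_congr rfl fun a _ => Finset.sum_congr rfl fun b _ => ?_
    simp only
    have h0 : √(x a * y b) * √(x a * y b) = x a * y b :=
      Real.mul_self_sqrt (mul_nonneg (zo_nonneg hx a) (zo_nonneg hy b))
    have : (√(x a * y b) * J a b) * (√(x a * y b) * ∑ c, z c * (J b c * J c a)) =
      (√(x a * y b) * √(x a * y b)) * (J a b * ∑ c, z c * (J b c * J c a)) := by ring
    rw [this, h0, Finset.mul_sum, Finset.mul_sum]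
    refine Finset.sum_congr rfl fun c _ => ?_
    ring
  rw [e1]
  refine (Finset.sum_mul_sq_le_sq_mul_sq _ _ _).trans ?_
  rw [mul_assoc]
  have f1 : ∑ u ∈ (univ : Finset V) ×ˢ (univ : Finset V), (√(x u.1 * y u.2) * J u.1 u.2) ^ 2 ≤
      s2 J x y := by
    rw [Finset.sum_product]
    unfold s2
    refine Finset.sum_le_sum fun a _ => Finset.sum_le_sum fun b _ => ?_
    simp only
    have hxy := mul_nonneg (zo_nonneg hx a) (zo_nonneg hy b)
    rw [mul_pow, Real.sq_sqrt hxy]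
    apply mul_le_mul_of_nonneg_left _ hxy
    nlinarith [zo_nonneg (hJ a) b, zo_le (hJ a) b]
  have f2 : ∑ u ∈ (univ : Finset V) ×ˢ (univ : Finset V),
      (√(x u.1 * y u.2) * ∑ c, z c * (J u.2 c * J c u.1)) ^ 2 ≤ s2 J y z * s2 J z x := by
    have f3 : s2 J y z * s2 J z x = ∑ u ∈ (univ : Finset V) ×ˢ (univ : Finset V),
        (y u.2 * ∑ c, z c * J u.2 c) * (x u.1 * ∑ c, z c * J c u.1) := by
      rw [Finset.sum_product_right]
      have g1 : s2 J y z = ∑ b, y b * ∑ c, z c * J b c := by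
        unfold s2
        refine Finset.sum_congr rfl fun a _ => ?_
        rw [Finset.mul_sum]
        refine Finset.sum_congr rfl fun b _ => ?_
        ring
      have g2 : s2 J z x = ∑ a, x a * ∑ c, z c * J c a := by
        unfold s2
        rw [Finset.sum_comm]
        refine Finset.sum_congr rfl fun a _ => ?_
        rw [Finset.mul_sum]
        refine Finset.sum_congr rfl fun b _ => ?_
        ring
      rw [g1, g2, Finset.sum_mul_sum]
    rw [f3]
    refine Finset.sum_le_sum fun u _ => ?_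
    have hk0 : 0 ≤ ∑ c, z c * (J u.2 c * J c u.1) := Finset.sum_nonneg fun c _ =>
      mul_nonneg (zo_nonneg hz c) (mul_nonneg (zo_nonneg (hJ _) _) (zo_nonneg (hJ _) _))
    have hk1 : ∑ c, z c * (J u.2 c * J c u.1) ≤ ∑ c, z c * J u.2 c :=
      Finset.sum_le_sum fun c _ => mul_le_mul_of_nonneg_left
        (mul_le_of_le_one_right (zo_nonneg (hJ _) _) (zo_le (hJ _) _)) (zo_nonneg hz c)
    have hk2 : ∑ c, z c * (J u.2 c * J c u.1) ≤ ∑ c, z c * J c u.1 :=
      Finset.sum_le_sum fun c _ => mul_le_mul_of_nonneg_left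
        (mul_le_of_le_one_left (zo_nonneg (hJ _) _) (zo_le (hJ _) _)) (zo_nonneg hz c)
    set k := ∑ c, z c * (J u.2 c * J c u.1)
    have hx0 := zo_nonneg hx u.1
    have hy0 := zo_nonneg hy u.2
    rw [mul_pow, Real.sq_sqrt (mul_nonneg hx0 hy0),
      show x u.1 * y u.2 * k ^ 2 = (y u.2 * k) * (x u.1 * k) by ring]
    exact mul_le_mul (mul_le_mul_of_nonneg_left hk1 hy0) (mul_le_mul_of_nonneg_left hk2 hx0)
      (mul_nonneg hx0 hk0) (mul_nonneg hy0 (hk0.trans hk1))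
  exact mul_le_mul f1 f2 (Finset.sum_nonneg fun u _ => sq_nonneg _) (s2_nonneg hJ hx hy)

end bounds

section block

theorem block_real (a b g z β t : ℝ) (ha : 0 ≤ a) (hb : 0 ≤ b) (hg : 0 ≤ g) (hz : 0 ≤ z)
    (hu : b ^ 2 = a ^ 2 + 2 * β + g ^ 2)
    (ht : t ≤ a ^ 3 + 3 * (a * β) + 3 * (g * β) + g ^ 3) (hbz : b * z ^ 2 = b ^ 3 - t) :
    b ^ 2 - a ^ 2 ≤ b ^ 2 / 4 + b * g + b * z := by
  rcases hb.lt_or_eq with hb' | hb'
  · have h1 : b * (b - a - g) ^ 2 ≤ b * z ^ 2 := by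
      have e : (b - a - g) ^ 2 * (b + (a + g) / 2) =
          b ^ 3 - (a ^ 3 + 3 * (a * β) + 3 * (g * β) + g ^ 3) := by
        have : β = (b ^ 2 - a ^ 2 - g ^ 2) / 2 := by linarith
        rw [this]; ring
      have h2 : b * (b - a - g) ^ 2 ≤ (b - a - g) ^ 2 * (b + (a + g) / 2) := by
        nlinarith [mul_nonneg (sq_nonneg (b - a - g)) (add_nonneg ha hg)]
      linarith
    have h3 : (b - a - g) ^ 2 ≤ z ^ 2 := le_of_mul_le_mul_left h1 hb'
    have h4 := (abs_le_of_sq_le_sq' h3 hz).2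
    have h5 : b * (b - a) ≤ b * (g + z) := mul_le_mul_of_nonneg_left (by linarith) hb
    nlinarith [sq_nonneg (b / 2 - (b - a))]
  · rw [← hb']
    nlinarith [sq_nonneg a]

/-- triangles with two vertices of weight `P` and one of weight `N` -/
theorem s3_fibre {V : Type} [Fintype V] {J : V → V → ℝ} (hs : ∀ a b, J a b = J b a)
    (P N : V → ℝ) :
    s3 J P P N = ∑ c, N c * s2 J (fun a => P a * J c a) (fun a => P a * J c a) := by
  unfold s3 s2
  have e : ∀ a : V, ∑ b, ∑ c, P a * P b * N c * (J a b * J b c * J c a) =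
      ∑ c, ∑ b, P a * P b * N c * (J a b * J b c * J c a) := fun a => Finset.sum_comm
  simp only [e]
  rw [Finset.sum_comm]
  refine Finset.sum_congr rfl fun c _ => ?_
  rw [Finset.mul_sum]
  refine Finset.sum_congr rfl fun a _ => ?_
  rw [Finset.mul_sum]
  refine Finset.sum_congr rfl fun b _ => ?_
  rw [hs b c]; ring


variable {V : Type} [Fintype V] {J : V → V → ℝ} (hs : ∀ a b, J a b = J b a) (hJ : ∀ a, zo (J a))
include hs hJ

theorem block {P A : V → ℝ} (hA : zo A) (hB : zo (P - A)) {b z : ℝ}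
    (hb : 0 ≤ b) (hz : 0 ≤ z) (hu : b ^ 2 = s2 J P P) (hbz : b * z ^ 2 = b ^ 3 - s3 J P P P) :
    s2 J P P - s2 J A A ≤ s2 J P P / 4 + b * s1 (P - A) + b * z := by
  set B := P - A with hBd
  have hPAB : P = A + B := by rw [hBd]; ring
  set a := Real.sqrt (s2 J A A) with ha
  set g := Real.sqrt (s2 J B B) with hg
  set β := s2 J A B with hβ
  have ha2 : a ^ 2 = s2 J A A := Real.sq_sqrt (s2_nonneg hJ hA hA)
  have hg2 : g ^ 2 = s2 J B B := Real.sq_sqrt (s2_nonneg hJ hB hB)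
  have ha0 : 0 ≤ a := Real.sqrt_nonneg _
  have hg0 : 0 ≤ g := Real.sqrt_nonneg _
  have hβ0 : 0 ≤ β := s2_nonneg hJ hA hB
  have hgB : g ≤ s1 B := by
    apply Real.sqrt_le_iff.2
    refine ⟨s1_nonneg hB, ?_⟩
    rw [pow_two]
    exact s2_le hJ hB hB
  have hu' : b ^ 2 = a ^ 2 + 2 * β + g ^ 2 := by
    rw [hu, ha2, hg2]
    conv_lhs => rw [hPAB]
    exact s2_sq_add J hs A B
  have q1 : s3 J A A A ≤ a ^ 3 := by
    apply (abs_le_of_sq_le_sq' _ (by positivity)).2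
    refine (loomis hJ hA hA hA).trans (le_of_eq ?_)
    rw [← ha2]; ring
  have q2 : s3 J A A B ≤ a * β := by
    apply (abs_le_of_sq_le_sq' _ (by positivity)).2
    refine (loomis hJ hA hA hB).trans (le_of_eq ?_)
    rw [s2_comm J hs B A, ← ha2]; ring
  have q3 : s3 J A B B ≤ g * β := by
    apply (abs_le_of_sq_le_sq' _ (by positivity)).2
    refine (loomis hJ hA hB hB).trans (le_of_eq ?_)
    rw [s2_comm J hs B A, ← hg2]; ring
  have q4 : s3 J B B B ≤ g ^ 3 := by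
    apply (abs_le_of_sq_le_sq' _ (by positivity)).2
    refine (loomis hJ hB hB hB).trans (le_of_eq ?_)
    rw [← hg2]; ring
  have ht : s3 J P P P ≤ a ^ 3 + 3 * (a * β) + 3 * (g * β) + g ^ 3 := by
    have := s3_cube_add J hs A B
    rw [← hPAB] at this
    rw [this]; linarith
  have h1 := block_real a b g z β (s3 J P P P) ha0 hb hg0 hz hu' ht hbz
  rw [ha2, hu] at h1
  have h2 : b * g ≤ b * s1 B := mul_le_mul_of_nonneg_left hgB hb
  linarith

end block

section main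

variable {V : Type} [Fintype V] {J : V → V → ℝ} (hs : ∀ a b, J a b = J b a) (hJ : ∀ a, zo (J a))
include hs hJ

/-- upper bound for weights `P`, `N` -/
theorem upper_PN {P N : V → ℝ} (hP : zo P) (hN : zo N) (hE : s1 N ≤ s1 P) (σ : ℝ) (hσ : 0 ≤ σ)
    (hσ2 : σ ^ 2 = 2 * s1 P * s1 N + s2 J P P + s2 J N N + 2 * (s1 P * s1 N - s2 J P N))
    (hq : 2 * σ ^ 2 ≤ (s1 P + s1 N) ^ 2) :
    s3 J P P P - 3 * s3 J P P N + 3 * s3 J P N N - s3 J N N N +
      6 * s1 N * (s2 J P P + s2 J N N + 2 * (s1 P * s1 N - s2 J P N)) - 4 * s1 N ^ 3 ≤ σ ^ 3 := by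
  set p := s1 P with hp
  set m := s1 N with hm
  set b := Real.sqrt (s2 J P P) with hb
  have hu0 := s2_nonneg hJ hP hP
  have hb2 : b ^ 2 = s2 J P P := Real.sq_sqrt hu0
  have hb0 : 0 ≤ b := Real.sqrt_nonneg _
  have hp0 : 0 ≤ p := s1_nonneg hP
  have hm0 : 0 ≤ m := s1_nonneg hN
  have hbp : b ≤ p := by
    apply Real.sqrt_le_iff.2
    refine ⟨hp0, ?_⟩
    rw [pow_two]
    exact s2_le hJ hP hP
  have hw0 := s2_nonneg hJ hN hN
  have hw : s2 J N N ≤ m ^ 2 := by rw [pow_two]; exact s2_le hJ hN hN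
  have hi0 : 0 ≤ p * m - s2 J P N := by
    have := s2_le hJ hP hN
    linarith
  set t := s3 J P P P with ht
  have htb : t ≤ b ^ 3 := by
    apply (abs_le_of_sq_le_sq' _ (by positivity)).2
    refine (loomis hJ hP hP hP).trans (le_of_eq ?_)
    rw [← hb2]; ring
  have ht0 : 0 ≤ t := s3_nonneg hJ hP hP hP
  obtain ⟨z, hz, hbz⟩ : ∃ z : ℝ, 0 ≤ z ∧ b * z ^ 2 = b ^ 3 - t := by
    rcases hb0.lt_or_eq with h | h
    · refine ⟨Real.sqrt ((b ^ 3 - t) / b), Real.sqrt_nonneg _, ?_⟩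
      rw [Real.sq_sqrt (div_nonneg (by linarith) h.le)]
      field_simp
    · refine ⟨0, le_rfl, ?_⟩
      rw [← h] at htb ⊢
      norm_num at htb ⊢
      linarith
  -- the sum over the negative crossings
  have hfib : m * s2 J P P - s3 J P P N ≤
      m * (s2 J P P / 4) + b * (p * m - s2 J P N) + m * (b * z) := by
    rw [s3_fibre hs P N]
    have e1 : m * s2 J P P = ∑ c, N c * s2 J P P := by rw [hm, s1, Finset.sum_mul]
    have e2 : m * (s2 J P P / 4) = ∑ c, N c * (s2 J P P / 4) := by rw [hm, s1, Finset.sum_mul]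
    have e3 : m * (b * z) = ∑ c, N c * (b * z) := by rw [hm, s1, Finset.sum_mul]
    have e4 : b * (p * m - s2 J P N) = ∑ c, N c * (b * s1 (P - fun a => P a * J c a)) := by
      have e5 : s2 J P N = ∑ c, N c * ∑ a, P a * J c a := by
        unfold s2
        rw [Finset.sum_comm]
        refine Finset.sum_congr rfl fun c _ => ?_
        rw [Finset.mul_sum]
        refine Finset.sum_congr rfl fun a _ => ?_
        rw [hs a c]; ring
      have e6 : p * m = ∑ c, N c * p := by rw [hm, s1, mul_comm, Finset.sum_mul]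
      rw [e5, e6, ← Finset.sum_sub_distrib, Finset.mul_sum]
      refine Finset.sum_congr rfl fun c _ => ?_
      rw [s1_sub]
      simp only [hp, s1]
      ring
    rw [e1, e2, e3, e4, ← Finset.sum_sub_distrib, ← Finset.sum_add_distrib,
      ← Finset.sum_add_distrib]
    refine Finset.sum_le_sum fun c _ => ?_
    have hA : zo (fun a => P a * J c a) := by
      intro a
      have h1 := zo_nonneg hP a
      have h2 := zo_le hP a
      have h3 := zo_nonneg (hJ c) a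
      have h4 := zo_le (hJ c) a
      exact ⟨mul_nonneg h1 h3, mul_le_one₀ h2 h3 h4⟩
    have hB : zo (P - fun a => P a * J c a) := by
      intro a
      simp only [Pi.sub_apply]
      have h1 := zo_nonneg hP a
      have h2 := zo_le hP a
      have h3 := zo_nonneg (hJ c) a
      have h4 := zo_le (hJ c) a
      have h5 : P a * J c a ≤ P a := mul_le_of_le_one_right h1 h4
      have h6 : 0 ≤ P a * J c a := mul_nonneg h1 h3
      constructor <;> linarith
    have h1 := block hs hJ hA hB hb0 hz hb2 hbz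
    rw [← mul_sub, ← mul_add, ← mul_add]
    exact mul_le_mul_of_nonneg_left h1 (zo_nonneg hN c)
  have hPNN : s3 J P N N ≤ p * s2 J N N := s3_le hJ hP hN hN
  have hNNN : 0 ≤ s3 J N N N := s3_nonneg hJ hN hN hN
  have hR := Rhom p m b (s2 J N N) (p * m - s2 J P N) σ hm0 hE hb0 hbp hw0 hw hi0 hσ
    (by rw [hσ2, hb2]) hq
  have hzz : 3 * m * b * z - b * z ^ 2 ≤ 9 / 4 * m ^ 2 * b := by
    nlinarith [mul_nonneg hb0 (sq_nonneg (z - 3 / 2 * m))]
  rw [← hb2] at hfib ⊢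
  nlinarith

/-- lower bound for weights `P`, `N` -/
theorem lower_PN {P N : V → ℝ} (hP : zo P) (hN : zo N) :
    -(3 * s1 N * (s2 J P P + s2 J N N + 2 * (s1 P * s1 N - s2 J P N))) ≤
      s3 J P P P - 3 * s3 J P P N + 3 * s3 J P N N - s3 J N N N := by
  have h1 := s3_nonneg hJ hP hP hP
  have h2 := s3_nonneg hJ hP hN hN
  have h3 : s3 J P P N ≤ s1 N * s2 J P P := by
    rw [s3_c23 J hs P P N, s3_c12 J hs P N P]
    exact s3_le hJ hN hP hP
  have h4 : s3 J N N N ≤ s1 N * s2 J N N := s3_le hJ hN hN hN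
  have h5 := s2_le hJ hP hN
  have h6 := s1_nonneg hN
  have h7 := s2_nonneg hJ hN hN
  nlinarith [mul_nonneg h6 h7, mul_nonneg h6 (sub_nonneg.2 h5)]

end main

section final

theorem lower_real (p m δ q s : ℝ) (hm : 0 ≤ m) (hmp : m ≤ p) (hδ : 0 ≤ δ)
    (hq : q = p ^ 2 + m ^ 2 - δ) (hs : s ^ 2 = 2 * q - (p + m) ^ 2) :
    s * ((p + m) ^ 2 + q) ≤ 2 * p ^ 3 - 2 * m ^ 3 - 3 * p * δ := by
  have h1 : s ≤ p - m := by
    apply (abs_le_of_sq_le_sq' _ (by linarith)).2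
    rw [hs, hq]; nlinarith
  obtain ⟨t, ht⟩ : ∃ t, t = (p - m - s) / 2 := ⟨_, rfl⟩
  have ht0 : 0 ≤ t := by rw [ht]; linarith
  have hsv : s = p - m - 2 * t := by rw [ht]; ring
  have hδ2 : δ = ((p - m) ^ 2 - s ^ 2) / 2 := by rw [hs, hq]; ring
  have hq2 : q = p ^ 2 + m ^ 2 - ((p - m) ^ 2 - s ^ 2) / 2 := by rw [← hδ2]; exact hq
  have e : 2 * p ^ 3 - 2 * m ^ 3 - 3 * p * δ - s * ((p + m) ^ 2 + q) =
      2 * t * (3 * m * (p + m) + 3 * t * m + 2 * t ^ 2) := by
    rw [hδ2, hq2, hsv]; ring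
  have hp0 : 0 ≤ p := hm.trans hmp
  have h2 : 0 ≤ 2 * t * (3 * m * (p + m) + 3 * t * m + 2 * t ^ 2) := by positivity
  linarith

variable {V : Type} [Fintype V] {J : V → V → ℝ} (hs : ∀ a b, J a b = J b a) (hJ : ∀ a, zo (J a))
include hs hJ

theorem graph_pos (e : V → ℝ) (he : ∀ a, e a = 1 ∨ e a = -1) (hE : 0 ≤ s1 e)
    (hq : (Fintype.card V : ℝ) ^ 2 ≤ 2 * ((s1 e) ^ 2 - s2 J e e)) :
    √(2 * ((s1 e) ^ 2 - s2 J e e) - (Fintype.card V : ℝ) ^ 2) *
        ((Fintype.card V : ℝ) ^ 2 + ((s1 e) ^ 2 - s2 J e e)) ≤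
      2 * (s1 e) ^ 3 - 3 * s1 e * s2 J e e + s3 J e e e ∧
    2 * (s1 e) ^ 3 - 3 * s1 e * s2 J e e + s3 J e e e ≤
      3 * ((s1 e) ^ 2 - s2 J e e) * (Fintype.card V : ℝ) - (Fintype.card V : ℝ) ^ 3 +
        √((Fintype.card V : ℝ) ^ 2 - ((s1 e) ^ 2 - s2 J e e)) ^ 3 := by
  obtain ⟨P, hPd⟩ : ∃ P : V → ℝ, P = fun a => (1 + e a) / 2 := ⟨_, rfl⟩
  obtain ⟨N, hNd⟩ : ∃ N : V → ℝ, N = fun a => (1 - e a) / 2 := ⟨_, rfl⟩
  have hP : zo P := by
    intro a
    rw [hPd]
    rcases he a with h | h <;> simp only [h] <;> norm_num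
  have hN : zo N := by
    intro a
    rw [hNd]
    rcases he a with h | h <;> simp only [h] <;> norm_num
  have heq : e = P - N := by
    funext a
    rw [hPd, hNd]
    simp only [Pi.sub_apply]
    ring
  have hcard : (Fintype.card V : ℝ) = s1 P + s1 N := by
    have : s1 P + s1 N = ∑ a : V, (1 : ℝ) := by
      unfold s1
      rw [← Finset.sum_add_distrib]
      refine Finset.sum_congr rfl fun a _ => ?_
      rw [hPd, hNd]; ring
    rw [this]; simp
  have g1 : s1 e = s1 P - s1 N := by rw [heq, s1_sub]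
  have g2 : s2 J e e = s2 J P P - 2 * s2 J P N + s2 J N N := by
    rw [heq]; exact s2_sq_sub J hs P N
  have g3 : s3 J e e e = s3 J P P P - 3 * s3 J P P N + 3 * s3 J P N N - s3 J N N N := by
    rw [heq]; exact s3_cube_sub J hs P N
  have hlow := lower_PN hs hJ hP hN
  have hup := upper_PN hs hJ hP hN
  have hm0 : 0 ≤ s1 N := s1_nonneg hN
  have hp0 : 0 ≤ s1 P := s1_nonneg hP
  have hu := s2_nonneg hJ hP hP
  have hw := s2_nonneg hJ hN hN
  have hi : 0 ≤ s1 P * s1 N - s2 J P N := by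
    have := s2_le hJ hP hN
    linarith
  rw [g1] at hE
  rw [g1, g2, hcard] at hq
  rw [g1, g2, g3, hcard]
  set p := s1 P
  set m := s1 N
  set T := s3 J P P P - 3 * s3 J P P N + 3 * s3 J P N N - s3 J N N N with hT
  set u := s2 J P P
  set w := s2 J N N
  set j := s2 J P N
  have hq' : (p - m) ^ 2 - (u - 2 * j + w) = p ^ 2 + m ^ 2 - (u + w + 2 * (p * m - j)) := by ring
  rw [hq'] at hq ⊢
  obtain ⟨δ, hδ⟩ : ∃ δ, δ = u + w + 2 * (p * m - j) := ⟨_, rfl⟩
  have hδ0 : 0 ≤ δ := by rw [hδ]; linarith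
  rw [← hδ] at hq ⊢
  have hf : 2 * (p - m) ^ 3 - 3 * (p - m) * (u - 2 * j + w) + T =
      2 * (p ^ 3 - m ^ 3) - 3 * (p - m) * δ + T := by rw [hδ]; ring
  rw [hf]
  constructor
  · have h1 := lower_real p m δ (p ^ 2 + m ^ 2 - δ) (√(2 * (p ^ 2 + m ^ 2 - δ) - (p + m) ^ 2))
      hm0 (by linarith) hδ0 rfl (Real.sq_sqrt (by linarith))
    rw [← hδ] at hlow
    refine h1.trans ?_
    linarith
  · have h2 : 0 ≤ (p + m) ^ 2 - (p ^ 2 + m ^ 2 - δ) := by nlinarith [mul_nonneg hp0 hm0]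
    have h3 := hup (by linarith) (√((p + m) ^ 2 - (p ^ 2 + m ^ 2 - δ))) (Real.sqrt_nonneg _)
      (by rw [Real.sq_sqrt h2, hδ]; ring) (by rw [Real.sq_sqrt h2]; linarith)
    rw [← hδ] at h3
    linarith

/-- the inequalities for signed graphs -/
theorem graph_main (e : V → ℝ) (he : ∀ a, e a = 1 ∨ e a = -1)
    (hq : (Fintype.card V : ℝ) ^ 2 ≤ 2 * ((s1 e) ^ 2 - s2 J e e)) :
    √(2 * ((s1 e) ^ 2 - s2 J e e) - (Fintype.card V : ℝ) ^ 2) *
        ((Fintype.card V : ℝ) ^ 2 + ((s1 e) ^ 2 - s2 J e e)) ≤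
      |2 * (s1 e) ^ 3 - 3 * s1 e * s2 J e e + s3 J e e e| ∧
    |2 * (s1 e) ^ 3 - 3 * s1 e * s2 J e e + s3 J e e e| ≤
      3 * ((s1 e) ^ 2 - s2 J e e) * (Fintype.card V : ℝ) - (Fintype.card V : ℝ) ^ 3 +
        √((Fintype.card V : ℝ) ^ 2 - ((s1 e) ^ 2 - s2 J e e)) ^ 3 := by
  have hr0 : 0 ≤ √(2 * ((s1 e) ^ 2 - s2 J e e) - (Fintype.card V : ℝ) ^ 2) *
        ((Fintype.card V : ℝ) ^ 2 + ((s1 e) ^ 2 - s2 J e e)) := by
    apply mul_nonneg (Real.sqrt_nonneg _)
    nlinarith [sq_nonneg (Fintype.card V : ℝ)]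
  rcases le_total 0 (s1 e) with hE | hE
  · obtain ⟨h1, h2⟩ := graph_pos hs hJ e he hE hq
    rw [abs_of_nonneg (hr0.trans h1)]
    exact ⟨h1, h2⟩
  · have n1 : s1 (-e) = - s1 e := by simp [s1]
    have n2 : s2 J (-e) (-e) = s2 J e e := by simp [s2]
    have n3 : s3 J (-e) (-e) (-e) = - s3 J e e e := by
      simp [s3]
    have he' : ∀ a, (-e) a = 1 ∨ (-e) a = -1 := by
      intro a
      rcases he a with h | h <;> simp [h]
    have h3 := graph_pos hs hJ (-e) he' (by rw [n1]; linarith)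
    rw [n1, n2, n3, neg_sq] at h3
    obtain ⟨h1, h2⟩ := h3 hq
    have e1 : 2 * (-s1 e) ^ 3 - 3 * (-s1 e) * s2 J e e + -s3 J e e e =
      -(2 * (s1 e) ^ 3 - 3 * s1 e * s2 J e e + s3 J e e e) := by ring
    rw [e1] at h1 h2
    rw [← abs_neg, abs_of_nonneg (hr0.trans h1)]
    exact ⟨h1, h2⟩

omit hs in
/-- moving towards the matrix of the signs -/
theorem graph_low (hs : ∀ a b, J a b = J b a) (e : V → ℝ) (he : ∀ a, e a = 1 ∨ e a = -1)
    (hq : 2 * ((s1 e) ^ 2 - s2 J e e) < (Fintype.card V : ℝ) ^ 2) :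
    |2 * (s1 e) ^ 3 - 3 * s1 e * s2 J e e + s3 J e e e| ≤
      (Fintype.card V : ℝ) ^ 3 * (1 / 2 + √(1 / 2) ^ 3) +
      6 * (Fintype.card V : ℝ) * ((Fintype.card V : ℝ) ^ 2 / 2 - ((s1 e) ^ 2 - s2 J e e)) := by
  obtain ⟨n, hn⟩ : ∃ n : ℝ, n = Fintype.card V := ⟨_, rfl⟩
  have hn0 : 0 ≤ n := by rw [hn]; exact Nat.cast_nonneg _
  obtain ⟨K, hK⟩ : ∃ K : V → V → ℝ, K = fun a b => (1 - e a * e b) / 2 := ⟨_, rfl⟩
  have hKs : ∀ a b, K a b = K b a := by intro a b; rw [hK]; simp only; ring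
  have hee : ∀ a b : V, e a * e b = 1 ∨ e a * e b = -1 := by
    intro a b
    rcases he a with h | h <;> rcases he b with h' | h' <;> rw [h, h'] <;> norm_num
  have hee2 : ∀ a b : V, (e a * e b) * (e a * e b) = 1 := by
    intro a b
    rcases hee a b with h | h <;> rw [h] <;> norm_num
  have hEabs : |s1 e| ≤ n := by
    unfold s1
    refine (Finset.abs_sum_le_sum_abs _ _).trans ?_
    have : ∀ a : V, |e a| = 1 := by
      intro a; rcases he a with h | h <;> rw [h] <;> norm_num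
    simp [this, hn]
  have hqK : (s1 e) ^ 2 - s2 K e e = (n ^ 2 + (s1 e) ^ 2) / 2 := by
    have h1 : s2 K e e = ((s1 e) ^ 2 - n ^ 2) / 2 := by
      have e1 : ∀ a b : V, e a * e b * K a b = (e a * e b - 1) / 2 := by
        intro a b
        rw [hK]
        simp only
        linear_combination (-1 / 2) * hee2 a b
      have e2 : (s1 e) ^ 2 = ∑ a, ∑ b, e a * e b := by
        unfold s1; rw [pow_two, Finset.sum_mul_sum]
      have e3 : n ^ 2 = ∑ _a : V, ∑ _b : V, (1 : ℝ) := by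
        simp [hn, pow_two]
      unfold s2
      rw [e2, e3, ← Finset.sum_sub_distrib, Finset.sum_div]
      refine Finset.sum_congr rfl fun a _ => ?_
      rw [← Finset.sum_sub_distrib, Finset.sum_div]
      exact Finset.sum_congr rfl fun b _ => e1 a b
    rw [h1]; ring
  set q := (s1 e) ^ 2 - s2 J e e with hqd
  rw [← hn] at hq ⊢
  have hpos : 0 < (n ^ 2 + (s1 e) ^ 2) / 2 - q := by nlinarith [sq_nonneg (s1 e)]
  obtain ⟨t, ht⟩ : ∃ t, t = (n ^ 2 / 2 - q) / ((n ^ 2 + (s1 e) ^ 2) / 2 - q) := ⟨_, rfl⟩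
  have ht0 : 0 ≤ t := by rw [ht]; exact div_nonneg (by linarith) hpos.le
  have ht1 : t ≤ 1 := by
    rw [ht, div_le_one hpos]; nlinarith [sq_nonneg (s1 e)]
  have htq : t * ((n ^ 2 + (s1 e) ^ 2) / 2 - q) = n ^ 2 / 2 - q := by
    rw [ht, div_mul_cancel₀ _ hpos.ne']
  obtain ⟨L, hL⟩ : ∃ L : V → V → ℝ, L = fun a b => J a b + t * (K a b - J a b) := ⟨_, rfl⟩
  have hKzo : ∀ a b, 0 ≤ K a b ∧ K a b ≤ 1 := by
    intro a b
    rw [hK]
    simp only
    rcases hee a b with h | h <;> rw [h] <;> norm_num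
  have hLs : ∀ a b, L a b = L b a := by
    intro a b; rw [hL]; simp only; rw [hs a b, hKs a b]
  have hLzo : ∀ a, zo (L a) := by
    intro a b
    rw [hL]
    simp only
    obtain ⟨k1, k2⟩ := hKzo a b
    have j1 := zo_nonneg (hJ a) b
    have j2 := zo_le (hJ a) b
    constructor <;> nlinarith [mul_nonneg ht0 k1, mul_nonneg (sub_nonneg.2 ht1) j1,
      mul_le_mul_of_nonneg_left k2 ht0, mul_le_mul_of_nonneg_left j2 (sub_nonneg.2 ht1)]
  -- the total change
  have hchange : ∑ a, ∑ b, |L a b - J a b| = n ^ 2 / 2 - q := by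
    have e1 : ∀ a b : V, |L a b - J a b| = t * (e a * e b * J a b - e a * e b * K a b) := by
      intro a b
      have h1 : L a b - J a b = t * (K a b - J a b) := by rw [hL]; ring
      rw [h1, abs_mul, abs_of_nonneg ht0]
      congr 1
      obtain ⟨k1, k2⟩ := hKzo a b
      have j1 := zo_nonneg (hJ a) b
      have j2 := zo_le (hJ a) b
      have hKv : K a b = (1 - e a * e b) / 2 := by rw [hK]
      rcases hee a b with h | h
      · have hk0 : K a b = 0 := by rw [hKv, h]; norm_num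
        rw [hk0, h, abs_of_nonpos (by linarith)]; ring
      · have hk0 : K a b = 1 := by rw [hKv, h]; norm_num
        rw [hk0, h, abs_of_nonneg (by linarith)]; ring
    simp only [e1, ← Finset.mul_sum, Finset.sum_sub_distrib]
    change t * (s2 J e e - s2 K e e) = _
    have : s2 J e e - s2 K e e = (n ^ 2 + (s1 e) ^ 2) / 2 - q := by
      rw [← hqK, hqd]; ring
    rw [this, htq]
  have hq2 : |s2 L e e - s2 J e e| ≤ n ^ 2 / 2 - q := by
    rw [← hchange]
    unfold s2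
    rw [← Finset.sum_sub_distrib]
    refine (Finset.abs_sum_le_sum_abs _ _).trans (Finset.sum_le_sum fun a _ => ?_)
    rw [← Finset.sum_sub_distrib]
    refine (Finset.abs_sum_le_sum_abs _ _).trans (Finset.sum_le_sum fun b _ => ?_)
    rw [← mul_sub, abs_mul]
    rcases hee a b with h | h <;> rw [h] <;> simp
  have hqL : (s1 e) ^ 2 - s2 L e e = n ^ 2 / 2 := by
    have h1 : s2 L e e = s2 J e e + t * (s2 K e e - s2 J e e) := by
      unfold s2
      rw [← Finset.sum_sub_distrib, Finset.mul_sum, ← Finset.sum_add_distrib]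
      refine Finset.sum_congr rfl fun a _ => ?_
      rw [← Finset.sum_sub_distrib, Finset.mul_sum, ← Finset.sum_add_distrib]
      refine Finset.sum_congr rfl fun b _ => ?_
      rw [hL]; ring
    have h2 : s2 K e e - s2 J e e = -((n ^ 2 + (s1 e) ^ 2) / 2 - q) := by
      rw [← hqK, hqd]; ring
    rw [h1, h2, mul_neg, htq, hqd]
    ring
  have h3 : |s3 L e e e - s3 J e e e| ≤ 3 * n * (n ^ 2 / 2 - q) := by
    have hterm : ∀ a b c : V, |e a * e b * e c * (L a b * L b c * L c a) -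
        e a * e b * e c * (J a b * J b c * J c a)| ≤
        |L a b - J a b| + |L b c - J b c| + |L c a - J c a| := by
      intro a b c
      have h0 : |e a * e b * e c| = 1 := by
        rcases he a with x | x <;> rcases he b with y | y <;> rcases he c with z | z <;>
          rw [x, y, z] <;> norm_num
      rw [← mul_sub, abs_mul, h0, one_mul]
      have e1 : L a b * L b c * L c a - J a b * J b c * J c a =
          (L a b - J a b) * (L b c * L c a) + (L b c - J b c) * (J a b * L c a) +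
          (L c a - J c a) * (J a b * J b c) := by ring
      have b1 : ∀ x y z : ℝ, 0 ≤ y → y ≤ 1 → 0 ≤ z → z ≤ 1 → |x * (y * z)| ≤ |x| := by
        intro x y z hy0 hy1 hz0 hz1
        rw [abs_mul]
        refine mul_le_of_le_one_right (abs_nonneg _) ?_
        rw [abs_of_nonneg (mul_nonneg hy0 hz0)]
        exact mul_le_one₀ hy1 hz0 hz1
      rw [e1]
      have t1 := b1 (L a b - J a b) (L b c) (L c a) (zo_nonneg (hLzo _) _) (zo_le (hLzo _) _)
        (zo_nonneg (hLzo _) _) (zo_le (hLzo _) _)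
      have t2 := b1 (L b c - J b c) (J a b) (L c a) (zo_nonneg (hJ _) _) (zo_le (hJ _) _)
        (zo_nonneg (hLzo _) _) (zo_le (hLzo _) _)
      have t3 := b1 (L c a - J c a) (J a b) (J b c) (zo_nonneg (hJ _) _) (zo_le (hJ _) _)
        (zo_nonneg (hJ _) _) (zo_le (hJ _) _)
      exact (abs_add_le _ _).trans (add_le_add ((abs_add_le _ _).trans (add_le_add t1 t2)) t3)
    have hsum : |s3 L e e e - s3 J e e e| ≤ ∑ a, ∑ b, ∑ c, (|L a b - J a b| + |L b c - J b c| +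
        |L c a - J c a|) := by
      unfold s3
      rw [← Finset.sum_sub_distrib]
      refine (Finset.abs_sum_le_sum_abs _ _).trans (Finset.sum_le_sum fun a _ => ?_)
      rw [← Finset.sum_sub_distrib]
      refine (Finset.abs_sum_le_sum_abs _ _).trans (Finset.sum_le_sum fun b _ => ?_)
      rw [← Finset.sum_sub_distrib]
      refine (Finset.abs_sum_le_sum_abs _ _).trans (Finset.sum_le_sum fun c _ => hterm a b c)
    refine hsum.trans (le_of_eq ?_)
    simp only [Finset.sum_add_distrib]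
    have g1 : ∑ a : V, ∑ b : V, ∑ _c : V, |L a b - J a b| = n * (n ^ 2 / 2 - q) := by
      rw [← hchange]
      simp only [Finset.sum_const, Finset.card_univ, nsmul_eq_mul, ← Finset.mul_sum, ← hn]
    have g2 : ∑ _a : V, ∑ b : V, ∑ c : V, |L b c - J b c| = n * (n ^ 2 / 2 - q) := by
      rw [hchange]
      simp only [Finset.sum_const, Finset.card_univ, nsmul_eq_mul, ← hn]
    have g3 : ∑ a : V, ∑ _b : V, ∑ c : V, |L c a - J c a| = n * (n ^ 2 / 2 - q) := by
      simp only [Finset.sum_const, Finset.card_univ, nsmul_eq_mul, ← Finset.mul_sum, ← hn]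
      rw [Finset.sum_comm, hchange]
    rw [g1, g2, g3]; ring
  have hmain := (graph_main hLs hLzo e he (by rw [hqL, ← hn]; linarith)).2
  rw [hqL, ← hn] at hmain
  have hsq : √(n ^ 2 - n ^ 2 / 2) = n * √(1 / 2) := by
    rw [show n ^ 2 - n ^ 2 / 2 = n ^ 2 * (1 / 2) by ring, Real.sqrt_mul (sq_nonneg n),
      Real.sqrt_sq hn0]
  rw [hsq] at hmain
  have h4 : |3 * s1 e * (s2 L e e - s2 J e e)| ≤ 3 * n * (n ^ 2 / 2 - q) := by
    rw [abs_mul, abs_mul, abs_of_pos (by norm_num : (0 : ℝ) < 3)]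
    exact mul_le_mul (mul_le_mul_of_nonneg_left hEabs (by norm_num)) hq2 (abs_nonneg _)
      (by positivity)
  have e5 : 2 * (s1 e) ^ 3 - 3 * s1 e * s2 J e e + s3 J e e e =
      (2 * (s1 e) ^ 3 - 3 * s1 e * s2 L e e + s3 L e e e) +
      3 * s1 e * (s2 L e e - s2 J e e) - (s3 L e e e - s3 J e e e) := by ring
  rw [e5]
  rw [abs_le] at *
  constructor <;> nlinarith [hmain.1, hmain.2, h4.1, h4.2, h3.1, h3.2]

end final

end Pool.Agent.H86.VR.Graph
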